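import Pool.Agent.H23.AE.Defs

/-!
# MP_ae97ec_co, d = 4: relabelling of the geometric realization
-/

namespace Pool.Agent.H23.AE

open Finset Pool.Agent.H30.NZ

namespace Top2

/-- The convex hull of some of the unit vectors. -/
theorem mem_hull {n : ℕ} (σ : Finset (Fin n)) (x : EuclideanSpace ℝ (Fin n)) :
    x ∈ convexHull ℝ ((fun i : Fin n => EuclideanSpace.single i (1 : ℝ)) '' (↑σ : Set (Fin n))) ↔
      (∀ i, 0 ≤ x i) ∧ (∀ i, i ∉ σ → x i = 0) ∧ ∑ i ∈ σ, x i = 1 := by
  constructor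
  · intro h
    have hsub : convexHull ℝ ((fun i : Fin n => EuclideanSpace.single i (1 : ℝ)) ''
        (↑σ : Set (Fin n))) ⊆ {x : EuclideanSpace ℝ (Fin n) |
          (∀ i, 0 ≤ x i) ∧ (∀ i, i ∉ σ → x i = 0) ∧ ∑ i ∈ σ, x i = 1} := by
      apply convexHull_min
      · rintro _ ⟨i, hi, rfl⟩
        have hi' : i ∈ σ := hi
        refine ⟨?_, ?_, ?_⟩
        · intro j
          show 0 ≤ (EuclideanSpace.single i (1 : ℝ) : EuclideanSpace ℝ (Fin n)) j
          rw [EuclideanSpace.single_apply]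
          split_ifs <;> norm_num
        · intro j hj
          show (EuclideanSpace.single i (1 : ℝ) : EuclideanSpace ℝ (Fin n)) j = 0
          rw [EuclideanSpace.single_apply, if_neg]
          rintro rfl
          exact hj hi'
        · show ∑ j ∈ σ, (EuclideanSpace.single i (1 : ℝ) : EuclideanSpace ℝ (Fin n)) j = 1
          simp only [EuclideanSpace.single_apply]
          rw [Finset.sum_ite_eq' σ i (fun _ => (1 : ℝ)), if_pos hi']
      · rintro x ⟨hx1, hx2, hx3⟩ y ⟨hy1, hy2, hy3⟩ a b ha hb hab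
        refine ⟨?_, ?_, ?_⟩
        · intro i
          show 0 ≤ a * x i + b * y i
          exact add_nonneg (mul_nonneg ha (hx1 i)) (mul_nonneg hb (hy1 i))
        · intro i hi
          show a * x i + b * y i = 0
          rw [hx2 i hi, hy2 i hi]
          ring
        · show ∑ i ∈ σ, (a * x i + b * y i) = 1
          rw [Finset.sum_add_distrib, ← Finset.mul_sum, ← Finset.mul_sum, hx3, hy3]
          linarith
    exact hsub h
  · rintro ⟨h1, h2, h3⟩
    have hx : x = ∑ i ∈ σ, x i • (EuclideanSpace.single i (1 : ℝ) : EuclideanSpace ℝ (Fin n)) := by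
      ext j
      simp only [WithLp.ofLp_sum, Finset.sum_apply, WithLp.ofLp_smul, Pi.smul_apply, smul_eq_mul,
        EuclideanSpace.single_apply]
      by_cases hj : j ∈ σ
      · rw [Finset.sum_eq_single j]
        · simp
        · intro b _ hb
          rw [if_neg (fun h => hb h.symm)]
          simp
        · intro h
          exact absurd hj h
      · rw [h2 j hj]
        symm
        apply Finset.sum_eq_zero
        intro b hb
        rw [if_neg]
        · simp
        · rintro rfl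
          exact hj hb
    rw [hx]
    apply (convex_convexHull ℝ _).sum_mem (fun i _ => h1 i) h3
    intro i hi
    exact subset_convexHull ℝ _ ⟨i, hi, rfl⟩

/-- extension by zero -/
def up {n : ℕ} (x : Fin n → ℝ) (z : ℤ) : ℝ :=
  if h : z.toNat < n ∧ 0 ≤ z then x ⟨z.toNat, h.1⟩ else 0

theorem up_cast {n : ℕ} (x : Fin n → ℝ) (i : Fin n) : up x (i : ℕ) = x i := by
  unfold up
  rw [dif_pos ⟨by simp, by positivity⟩]
  congr 1

theorem up_out {n : ℕ} (x : Fin n → ℝ) (z : ℤ) (h : ¬ (0 ≤ z ∧ z < n)) : up x z = 0 := by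
  unfold up
  rw [dif_neg]
  intro h'
  apply h
  omega

theorem exists_cast {n : ℕ} (z : ℤ) (h : 0 ≤ z ∧ z < n) : ∃ i : Fin n, ((i : ℕ) : ℤ) = z :=
  ⟨⟨z.toNat, by omega⟩, by simp; omega⟩

theorem continuous_up {n : ℕ} : Continuous (fun x : Fin n → ℝ => up x) := by
  apply continuous_pi
  intro z
  unfold up
  by_cases h : z.toNat < n ∧ 0 ≤ z
  · simp only [dif_pos h]
    exact continuous_apply _
  · simp only [dif_neg h]
    exact continuous_const

theorem cast_inj {n : ℕ} : Function.Injective (fun i : Fin n => ((i : ℕ) : ℤ)) := by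
  intro i j h
  apply Fin.ext
  have h' : ((i : ℕ) : ℤ) = ((j : ℕ) : ℤ) := h
  exact_mod_cast h'

end Top2

open Top2 in
theorem homeo_real {n : ℕ} {K : Cx} (hv : ∀ F ∈ K, ∀ x ∈ F, 0 ≤ x ∧ x < (n : ℤ))
    {D : Finset (Finset (Fin n))}
    (hD : ∀ σ, σ ∈ D ↔ Fc K (σ.image (fun i : Fin n => ((i : ℕ) : ℤ)))) :
    Nonempty (↥(⋃ σ ∈ D, convexHull ℝ
          ((fun i : Fin n => EuclideanSpace.single i (1 : ℝ)) '' (↑σ : Set (Fin n)))) ≃ₜ
      real K) := by
  classical
  set X : Set (EuclideanSpace ℝ (Fin n)) := ⋃ σ ∈ D, convexHull ℝ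
    ((fun i : Fin n => EuclideanSpace.single i (1 : ℝ)) '' (↑σ : Set (Fin n))) with hX
  have hXm : ∀ x, x ∈ X ↔ ∃ σ ∈ D, (∀ i, 0 ≤ x i) ∧ (∀ i, i ∉ σ → x i = 0) ∧
      ∑ i ∈ σ, x i = 1 := by
    intro x
    rw [hX]
    simp only [Set.mem_iUnion]
    constructor
    · rintro ⟨σ, hσ, h⟩
      exact ⟨σ, hσ, (mem_hull σ x).1 h⟩
    · rintro ⟨σ, hσ, h⟩
      exact ⟨σ, hσ, (mem_hull σ x).2 h⟩
  have hup : ∀ x ∈ X, up (fun i => x i) ∈ real K := by
    intro x hx
    obtain ⟨σ, hσ, h1, h2, h3⟩ := (hXm x).1 hx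
    obtain ⟨F, hF, hsF⟩ := (hD σ).1 hσ
    have hz : ∀ z, z ∉ σ.image (fun i : Fin n => ((i : ℕ) : ℤ)) → up (fun i => x i) z = 0 := by
      intro z hz
      by_cases h : 0 ≤ z ∧ z < n
      · obtain ⟨i, rfl⟩ := exists_cast z h
        rw [up_cast]
        apply h2
        intro hi
        exact hz (mem_image.2 ⟨i, hi, rfl⟩)
      · exact up_out _ z h
    refine ⟨?_, F, hF, ?_, ?_⟩
    · intro z
      by_cases h : 0 ≤ z ∧ z < n
      · obtain ⟨i, rfl⟩ := exists_cast z h
        rw [up_cast]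
        exact h1 i
      · rw [up_out _ z h]
    · intro z hzF
      exact hz z (fun h => hzF (hsF h))
    · rw [← Finset.sum_subset hsF (fun z _ h => hz z h),
        Finset.sum_image (fun a _ b _ h => cast_inj h), ← h3]
      apply Finset.sum_congr rfl
      intro i _
      rw [up_cast]
  have hdn : ∀ w ∈ real K, (WithLp.toLp 2 (fun i : Fin n => w ((i : ℕ) : ℤ))) ∈ X := by
    rintro w ⟨h1, F, hF, h2, h3⟩
    have himg : (univ.filter (fun i : Fin n => ((i : ℕ) : ℤ) ∈ F)).image
        (fun i : Fin n => ((i : ℕ) : ℤ)) = F := by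
      ext z
      simp only [mem_image, mem_filter, mem_univ, true_and]
      constructor
      · rintro ⟨i, hi, rfl⟩
        exact hi
      · intro hz
        obtain ⟨i, rfl⟩ := exists_cast z (hv F hF z hz)
        exact ⟨i, hz, rfl⟩
    rw [hXm]
    refine ⟨univ.filter (fun i : Fin n => ((i : ℕ) : ℤ) ∈ F), ?_, ?_, ?_, ?_⟩
    · rw [hD, himg]
      exact ⟨F, hF, subset_rfl⟩
    · intro i
      exact h1 _
    · intro i hi
      apply h2
      intro h
      exact hi (mem_filter.2 ⟨mem_univ _, h⟩)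
    · show ∑ i ∈ univ.filter (fun i : Fin n => ((i : ℕ) : ℤ) ∈ F), w ((i : ℕ) : ℤ) = 1
      rw [← h3]
      conv_rhs => rw [← himg]
      rw [Finset.sum_image (fun a _ b _ h => cast_inj h)]
  refine ⟨{
    toFun := fun x => ⟨up (fun i => x.1 i), hup x.1 x.2⟩
    invFun := fun w => ⟨WithLp.toLp 2 (fun i : Fin n => w.1 ((i : ℕ) : ℤ)), hdn w.1 w.2⟩
    left_inv := ?_
    right_inv := ?_
    continuous_toFun := ?_
    continuous_invFun := ?_ }⟩
  · intro x
    apply Subtype.ext
    ext i
    exact up_cast _ i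
  · rintro ⟨w, hw⟩
    apply Subtype.ext
    funext z
    show up (fun i : Fin n => w ((i : ℕ) : ℤ)) z = w z
    by_cases h : 0 ≤ z ∧ z < n
    · obtain ⟨i, rfl⟩ := exists_cast z h
      exact up_cast _ i
    · rw [up_out _ z h]
      obtain ⟨-, F, hF, h2, -⟩ := hw
      symm
      apply h2
      intro hz
      exact h (hv F hF z hz)
  · apply Continuous.subtype_mk
    apply continuous_up.comp
    apply continuous_pi
    intro i
    have h1 : Continuous (fun x : EuclideanSpace ℝ (Fin n) => x i) := by fun_prop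
    exact h1.comp continuous_subtype_val
  · apply Continuous.subtype_mk
    have h1 : Continuous (fun w : ℤ → ℝ => (WithLp.toLp 2 (fun i : Fin n => w ((i : ℕ) : ℤ)) :
        EuclideanSpace ℝ (Fin n))) := by
      apply (PiLp.continuous_toLp 2 (fun _ : Fin n => ℝ)).comp
      apply continuous_pi
      intro i
      exact continuous_apply _
    exact h1.comp continuous_subtype_val

end Pool.Agent.H23.AE
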