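import Pool.Agent.H23.AE.Top1
import Pool.Agent.H23.AE.Top2
import Pool.Agent.H30.NZ.Comb

/-!
# MP_ae97ec_co, d = 4: final assembly
-/

namespace Pool.Agent.H23.AE

open Finset Pool.Agent.H30.NZ

/-- The vertex label of `i`. -/
private def cst {n : ℕ} (i : Fin n) : ℤ := ((i : ℕ) : ℤ)

private theorem cst_inj {n : ℕ} {i j : Fin n} (h : cst i = cst j) : i = j := by
  unfold cst at h
  exact Fin.ext (by exact_mod_cast h)

/-- Iterated rotation of a facet. -/
private theorem asm_rot {v : ℕ} {K : Cx} (h : CSN v K) (m : ℕ) :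
    ∀ F ∈ K, F.image (fun x => (x + (m : ℤ)) % (2 * (v : ℤ))) ∈ K := by
  induction m with
  | zero =>
    intro F hF
    have : F.image (fun x => (x + ((0 : ℕ) : ℤ)) % (2 * (v : ℤ))) = F := by
      conv_rhs => rw [← image_id (s := F)]
      apply image_congr
      intro x hx
      have := h.vert F hF x hx
      simp only [Nat.cast_zero, add_zero, id]
      exact Int.emod_eq_of_lt this.1 this.2
    rw [this]
    exact hF
  | succ m ih =>
    intro F hF
    have h1 := h.rot _ (ih F hF)
    rw [image_image] at h1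
    have : F.image (fun x => (x + ((m + 1 : ℕ) : ℤ)) % (2 * (v : ℤ))) =
        F.image ((fun x => (x + 1) % (2 * (v : ℤ))) ∘
          (fun x => (x + (m : ℤ)) % (2 * (v : ℤ)))) := by
      apply image_congr
      intro x _
      simp only [Function.comp]
      rw [Int.emod_add_emod]
      congr 1
      push_cast
      ring
    rw [this]
    exact h1

private theorem asm_rot_fin {v : ℕ} {K : Cx} (h : CSN v K) [NeZero (2 * v)]
    (c : Fin (2 * v)) {σ : Finset (Fin (2 * v))} (hσ : Fc K (σ.image cst)) :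
    Fc K ((σ.image (fun i => i + c)).image cst) := by
  obtain ⟨F, hF, hs⟩ := hσ
  refine ⟨_, asm_rot h (c : ℕ) F hF, ?_⟩
  intro z hz
  obtain ⟨j, hj, rfl⟩ := mem_image.mp hz
  obtain ⟨i, hi, rfl⟩ := mem_image.mp hj
  refine mem_image.mpr ⟨cst i, hs (mem_image_of_mem _ hi), ?_⟩
  unfold cst
  rw [Fin.val_add]
  push_cast
  rfl

private theorem asm_homeo {K L : Cx} {f g : (ℤ → ℝ) → (ℤ → ℝ)}
    (h : PLH f g (real K) (real L)) : Nonempty (real K ≃ₜ real L) := by
  refine ⟨⟨⟨fun x => ⟨f x, h.mf x x.2⟩, fun y => ⟨g y, h.mg y y.2⟩, ?_, ?_⟩, ?_, ?_⟩⟩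
  · intro x
    exact Subtype.ext (h.gf x x.2)
  · intro y
    exact Subtype.ext (h.fg y y.2)
  · exact (continuousOn_iff_continuous_domRestrict.mp h.pf.1).subtype_mk _
  · exact (continuousOn_iff_continuous_domRestrict.mp h.pg.1).subtype_mk _

theorem asm {v : ℕ} (hv : 4 ≤ v) {K : Cx} (h : CSN v K) :
    ∃ K : Finset (Finset (Fin (2 * v))),
      (∀ σ ∈ K, ∀ τ : Finset (Fin (2 * v)), τ ⊆ σ → τ ∈ K) ∧
      (∀ i : Fin (2 * v), ({i} : Finset (Fin (2 * v))) ∈ K) ∧
      Nonempty (↥(⋃ σ ∈ K, convexHull ℝ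
          ((fun i : Fin (2 * v) => EuclideanSpace.single i (1 : ℝ)) '' (↑σ : Set (Fin (2 * v)))))
        ≃ₜ Metric.sphere (0 : EuclideanSpace ℝ (Fin 4)) 1) ∧
      (∃ ι : Equiv.Perm (Fin (2 * v)),
        (∀ i, ι (ι i) = i) ∧ (∀ i, ι i ≠ i) ∧
        (∀ σ ∈ K, σ.image ι ∈ K) ∧
        (∀ σ ∈ K, σ.Nonempty → σ.image ι ≠ σ) ∧
        (∀ τ : Finset (Fin (2 * v)), τ.card = 4 / 2 → (∀ i ∈ τ, ι i ∉ τ) → τ ∈ K)) ∧
      (∀ a b : Fin (2 * v), ∃ g : Equiv.Perm (Fin (2 * v)), g a = b ∧
        ∀ σ : Finset (Fin (2 * v)), σ ∈ K ↔ σ.image g ∈ K) := by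
  classical
  have : NeZero (2 * v) := ⟨by omega⟩
  have hD : ∀ σ : Finset (Fin (2 * v)),
      σ ∈ (univ : Finset (Finset (Fin (2 * v)))).filter (fun σ => Fc K (σ.image cst)) ↔
        Fc K (σ.image cst) := by
    intro σ
    rw [mem_filter]
    exact ⟨fun h => h.2, fun h => ⟨mem_univ _, h⟩⟩
  -- pairs
  have hpair : ∀ x y : Fin (2 * v), x < y → (y : ℕ) - (x : ℕ) ≠ v →
      ∃ F ∈ K, cst x ∈ F ∧ cst y ∈ F := by
    intro x y hxy hne
    have h1 : (x : ℕ) < (y : ℕ) := hxy
    have h2 := y.2
    apply h.nbr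
    · unfold cst; positivity
    · unfold cst; exact_mod_cast h1
    · unfold cst
      have : ((y : ℕ) : ℤ) < ((2 * v : ℕ) : ℤ) := by exact_mod_cast h2
      push_cast at this
      exact this
    · unfold cst
      intro he
      apply hne
      omega
  have hvert : ∀ i : Fin (2 * v), Fc K ({cst i}) := by
    intro i
    have hi := i.2
    by_cases hlast : (i : ℕ) + 1 < 2 * v
    · obtain ⟨F, hF, h1, -⟩ := hpair i ⟨(i : ℕ) + 1, hlast⟩
        (by rw [Fin.lt_def]; simp) (by simp only []; omega)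
      exact ⟨F, hF, singleton_subset_iff.mpr h1⟩
    · obtain ⟨F, hF, -, h1⟩ := hpair ⟨(i : ℕ) - 1, by omega⟩ i
        (by rw [Fin.lt_def]; simp only []; omega) (by simp only []; omega)
      exact ⟨F, hF, singleton_subset_iff.mpr h1⟩
  -- rotations
  have hrot : ∀ (c : Fin (2 * v)) (σ : Finset (Fin (2 * v))),
      Fc K (σ.image cst) ↔ Fc K ((σ.image (Equiv.addRight c)).image cst) := by
    intro c σ
    have he : ∀ (c : Fin (2 * v)) (σ : Finset (Fin (2 * v))),
        σ.image (Equiv.addRight c) = σ.image (fun i => i + c) := fun c σ => rfl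
    constructor
    · intro hσ
      rw [he]
      exact asm_rot_fin h c hσ
    · intro hσ
      rw [he] at hσ
      have h1 := asm_rot_fin h (-c) hσ
      have h2 : (σ.image (fun i => i + c)).image (fun i => i + -c) = σ := by
        rw [image_image]
        conv_rhs => rw [← image_id (s := σ)]
        apply image_congr
        intro x _
        simp
      rwa [h2] at h1
  refine ⟨(univ : Finset (Finset (Fin (2 * v)))).filter (fun σ => Fc K (σ.image cst)),
    ?_, ?_, ?_, ?_, ?_⟩
  · intro σ hσ τ hτ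
    rw [hD] at hσ ⊢
    exact fc_sub (image_subset_image hτ) hσ
  · intro i
    rw [hD, image_singleton]
    exact hvert i
  · obtain ⟨F, hF, f, g, hfg⟩ := h.sph
    obtain ⟨e1⟩ := homeo_real (n := 2 * v) (K := K) (by
      intro F hF x hx
      have := h.vert F hF x hx
      push_cast
      exact this) (D := (univ : Finset (Finset (Fin (2 * v)))).filter
        (fun σ => Fc K (σ.image cst))) hD
    obtain ⟨e2⟩ := asm_homeo hfg
    obtain ⟨e3⟩ := homeo_bsimp hF
    exact ⟨(e1.trans e2).trans e3⟩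
  · have hvlt : v < 2 * v := by omega
    set cv : Fin (2 * v) := ⟨v, hvlt⟩ with hcv
    have hval : ∀ i : Fin (2 * v), ((i + cv : Fin (2 * v)) : ℕ) = ((i : ℕ) + v) % (2 * v) := by
      intro i
      rw [Fin.val_add]
    have hcase : ∀ i : Fin (2 * v), (((i + cv : Fin (2 * v)) : ℕ) = (i : ℕ) + v ∧ (i : ℕ) < v) ∨
        (((i + cv : Fin (2 * v)) : ℕ) + v = (i : ℕ) ∧ v ≤ (i : ℕ)) := by
      intro i
      have hi := i.2
      rw [hval]
      rcases lt_or_ge (i : ℕ) v with h1 | h1
      · left
        exact ⟨Nat.mod_eq_of_lt (by omega), h1⟩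
      · right
        refine ⟨?_, h1⟩
        have : (i : ℕ) + v = ((i : ℕ) - v) + 2 * v := by omega
        rw [this, Nat.add_mod_right, Nat.mod_eq_of_lt (by omega)]
        omega
    refine ⟨Equiv.addRight cv, ?_, ?_, ?_, ?_, ?_⟩
    · intro i
      change (i + cv) + cv = i
      apply Fin.ext
      rcases hcase i with h1 | h1 <;> rcases hcase (i + cv) with h2 | h2 <;> omega
    · intro i he
      have he' : i + cv = i := he
      have : ((i + cv : Fin (2 * v)) : ℕ) = (i : ℕ) := by rw [he']
      rcases hcase i with h1 | h1 <;> omega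
    · intro σ hσ
      rw [hD] at hσ ⊢
      exact (hrot cv σ).mp hσ
    · intro σ hσ hne he
      rw [hD] at hσ
      obtain ⟨F, hF, hs⟩ := hσ
      obtain ⟨i, hi⟩ := hne
      have hi2 : i + cv ∈ σ := by
        rw [← he]
        exact mem_image_of_mem _ hi
      have m1 : cst i ∈ F := hs (mem_image_of_mem _ hi)
      have m2 : cst (i + cv) ∈ F := hs (mem_image_of_mem _ hi2)
      rcases hcase i with h1 | h1
      · apply h.anti F hF _ m1 _ m2
        unfold cst
        omega
      · apply h.anti F hF _ m2 _ m1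
        unfold cst
        omega
    · intro τ hτ hanti
      rw [hD]
      have hτ2 : τ.card = 2 := hτ
      obtain ⟨x, y, hxy, rfl⟩ := card_eq_two.mp hτ2
      have key : ∀ x y : Fin (2 * v), x < y → (∀ i ∈ ({x, y} : Finset (Fin (2 * v))),
          Equiv.addRight cv i ∉ ({x, y} : Finset (Fin (2 * v)))) →
          Fc K (({x, y} : Finset (Fin (2 * v))).image cst) := by
        intro x y hlt hanti
        have hne : (y : ℕ) - (x : ℕ) ≠ v := by
          intro he
          apply hanti x (by simp)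
          have : (Equiv.addRight cv x : Fin (2 * v)) = y := by
            change x + cv = y
            apply Fin.ext
            have hy := y.2
            have hl : (x : ℕ) < (y : ℕ) := hlt
            rcases hcase x with h1 | h1 <;> omega
          rw [this]
          simp
        obtain ⟨F, hF, h1, h2⟩ := hpair x y hlt hne
        refine ⟨F, hF, ?_⟩
        intro z hz
        rw [image_insert, image_singleton, mem_insert, mem_singleton] at hz
        rcases hz with rfl | rfl
        · exact h1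
        · exact h2
      rcases lt_or_gt_of_ne hxy with hlt | hlt
      · exact key x y hlt hanti
      · rw [pair_comm] at hanti ⊢
        exact key y x hlt hanti
  · intro a b
    refine ⟨Equiv.addRight (b - a), ?_, ?_⟩
    · change a + (b - a) = b
      exact add_sub_cancel a b
    · intro σ
      rw [hD, hD]
      exact hrot (b - a) σ

end Pool.Agent.H23.AE
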