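import Pool.Agent.H23.AE.Defs
import Pool.Agent.H30.NZ.GoodOps

/-!
# MP_ae97ec_co: parts of the boundary of a simplex
-/

namespace Pool.Agent.H23.AE

open Finset Pool.Agent.H30.NZ

/-- The facets `G.erase x`, `x ∈ T`, of the boundary of the simplex `G`. -/
def part (G T : Finset ℤ) : Cx := T.image (fun x => G.erase x)

private theorem pt_mem {G T F : Finset ℤ} : F ∈ part G T ↔ ∃ x ∈ T, G.erase x = F := by
  unfold part
  rw [mem_image]

private theorem pt_insert {T : Finset ℤ} {g : ℤ} (hg : g ∉ T) :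
    part (insert g T) T = cone g (bsimp T) := by
  ext F
  rw [pt_mem, h83_mem_cone]
  constructor
  · rintro ⟨x, hx, rfl⟩
    refine ⟨T.erase x, h83_mem_bsimp.2 ⟨x, hx, rfl⟩, ?_⟩
    rw [erase_insert_of_ne]
    rintro rfl
    exact hg hx
  · rintro ⟨H, hH, rfl⟩
    obtain ⟨x, hx, rfl⟩ := h83_mem_bsimp.1 hH
    refine ⟨x, hx, ?_⟩
    rw [erase_insert_of_ne]
    rintro rfl
    exact hg hx

private theorem pt_cone {G T : Finset ℤ} {g : ℤ} (hg : g ∈ G) (hgT : g ∉ T) :
    part G T = cone g (part (G.erase g) T) := by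
  ext F
  rw [pt_mem, h83_mem_cone]
  constructor
  · rintro ⟨x, hx, rfl⟩
    refine ⟨(G.erase g).erase x, pt_mem.2 ⟨x, hx, rfl⟩, ?_⟩
    rw [erase_right_comm, insert_erase]
    exact mem_erase.2 ⟨fun h => hgT (h ▸ hx), hg⟩
  · rintro ⟨H, hH, rfl⟩
    obtain ⟨x, hx, rfl⟩ := pt_mem.1 hH
    refine ⟨x, hx, ?_⟩
    rw [erase_right_comm, insert_erase]
    exact mem_erase.2 ⟨fun h => hgT (h ▸ hx), hg⟩

private theorem pt_not_vts {G T : Finset ℤ} {g : ℤ} (hg : g ∉ G) : g ∉ vts (part G T) := by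
  intro h
  obtain ⟨F, hF, hgF⟩ := h83_mem_vts.1 h
  obtain ⟨x, hx, rfl⟩ := pt_mem.1 hF
  exact hg (mem_of_mem_erase hgF)

private theorem pt_bs_not_vts {F : Finset ℤ} {x : ℤ} (hx : x ∉ F) : x ∉ vts (bsimp F) := by
  intro h
  obtain ⟨G, hG, hxG⟩ := h83_mem_vts.1 h
  obtain ⟨y, hy, rfl⟩ := h83_mem_bsimp.1 hG
  exact hx (mem_of_mem_erase hxG)

private theorem pt_good : ∀ (n : ℕ) {G T : Finset ℤ}, T ⊆ G → T.Nonempty →
    (G \ T).card = n + 1 → Good (G.card - 1) (part G T) := by
  intro n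
  induction n with
  | zero =>
    intro G T hT hne hc
    obtain ⟨g, hg⟩ := card_eq_one.1 hc
    have hgG : g ∈ G \ T := by rw [hg]; exact mem_singleton_self g
    obtain ⟨hgG, hgT⟩ := mem_sdiff.1 hgG
    have hG : G = insert g T := by
      ext x
      rw [mem_insert]
      constructor
      · intro hx
        by_cases hxT : x ∈ T
        · exact Or.inr hxT
        · left
          have : x ∈ G \ T := mem_sdiff.2 ⟨hx, hxT⟩
          rw [hg] at this
          exact mem_singleton.1 this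
      · rintro (rfl | hx)
        · exact hgG
        · exact hT hx
    subst hG
    have hcard : (insert g T).card - 1 = T.card := by
      rw [card_insert_of_notMem hgT]; rfl
    rw [hcard, pt_insert hgT]
    by_cases h1 : T.card = 1
    · obtain ⟨x, rfl⟩ := card_eq_one.1 h1
      have h2 : cone g (bsimp {x}) = {{g}} := by
        unfold bsimp cone
        rw [image_singleton, image_singleton]
        congr 1
        ext y
        simp
      rw [h2, card_singleton, ← card_singleton g]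
      exact good_simplex (singleton_nonempty g)
    · have h2 : 1 ≤ T.card := card_pos.2 hne
      obtain ⟨c, hc⟩ : ∃ c, T.card = c + 1 := ⟨T.card - 1, by omega⟩
      rw [hc]
      refine good_cone_closed (hne.image _) (by omega) ?_ pm_bsimp nor_bsimp (bd_bsimp hne)
        (pt_bs_not_vts hgT)
      intro F hF
      obtain ⟨y, hy, rfl⟩ := h83_mem_bsimp.1 hF
      rw [card_erase_of_mem hy, hc]
      rfl
  | succ n ih =>
    intro G T hT hne hc
    obtain ⟨g, hg⟩ : (G \ T).Nonempty := by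
      rw [← card_pos]; omega
    obtain ⟨hgG, hgT⟩ := mem_sdiff.1 hg
    have hT' : T ⊆ G.erase g := fun x hx => mem_erase.2 ⟨fun h => hgT (h ▸ hx), hT hx⟩
    have hsd : G.erase g \ T = (G \ T).erase g := by
      ext x
      simp only [mem_sdiff, mem_erase]
      tauto
    have h1 := ih hT' hne (by rw [hsd, card_erase_of_mem hg, hc]; rfl)
    have h2 := good_cone h1 (w := g) (pt_not_vts (notMem_erase g G))
    rw [← pt_cone hgG hgT] at h2
    have h3 : 1 ≤ (G.erase g).card := by
      have := card_le_card hT'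
      have := card_pos.2 hne
      omega
    have h4 : G.card - 1 = (G.erase g).card - 1 + 1 := by
      rw [← card_erase_of_mem hgG]; omega
    rw [h4]
    exact h2

theorem good_part {G T : Finset ℤ} (hT : T ⊆ G) (hne : T.Nonempty) (hne' : T ≠ G) :
    Good (G.card - 1) (part G T) := by
  have h : 0 < (G \ T).card := by
    rw [card_pos, sdiff_nonempty]
    exact fun h => hne' (hT.antisymm h)
  exact pt_good ((G \ T).card - 1) hT hne (by omega)

theorem ball_part {G T : Finset ℤ} (hT : T ⊆ G) (hne : T.Nonempty) (hne' : T ≠ G) :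
    Ball (part G T) := (good_part hT hne hne').ball

theorem bd_part {G T : Finset ℤ} (hT : T ⊆ G) (hne : T.Nonempty) (hne' : T ≠ G) :
    bd (part G T) = T.biUnion (fun x => (G \ T).image (fun y => (G.erase x).erase y)) := by
  have _ := hne
  have _ := hne'
  ext H
  rw [h83_mem_bd, h83_mem_ridges]
  simp only [mem_biUnion, mem_image, mem_sdiff]
  constructor
  · rintro ⟨⟨F, hF, y, hy, rfl⟩, h1⟩
    obtain ⟨x, hx, rfl⟩ := pt_mem.1 hF
    refine ⟨x, hx, y, ⟨mem_of_mem_erase hy, fun hyT => ?_⟩, rfl⟩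
    have h2 : G.erase x ∈ star (part G T) ((G.erase x).erase y) :=
      h83_mem_star.2 ⟨pt_mem.2 ⟨x, hx, rfl⟩, erase_subset _ _⟩
    have h3 : G.erase y ∈ star (part G T) ((G.erase x).erase y) := by
      refine h83_mem_star.2 ⟨pt_mem.2 ⟨y, hyT, rfl⟩, ?_⟩
      rw [erase_right_comm]
      exact erase_subset _ _
    have h4 := card_le_one.1 h1.le _ h2 _ h3
    rw [h4] at hy
    exact (mem_erase.1 hy).1 rfl
  · rintro ⟨x, hx, y, ⟨hyG, hyT⟩, rfl⟩
    have hyx : y ≠ x := fun h => hyT (h ▸ hx)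
    refine ⟨⟨G.erase x, pt_mem.2 ⟨x, hx, rfl⟩, y, mem_erase.2 ⟨hyx, hyG⟩, rfl⟩, ?_⟩
    rw [card_eq_one]
    refine ⟨G.erase x, ?_⟩
    ext F
    rw [h83_mem_star, mem_singleton, pt_mem]
    constructor
    · rintro ⟨⟨z, hz, rfl⟩, h1⟩
      by_cases hzx : z = x
      · rw [hzx]
      · exfalso
        have h2 : z ∈ (G.erase x).erase y :=
          mem_erase.2 ⟨fun h => hyT (h ▸ hz), mem_erase.2 ⟨hzx, hT hz⟩⟩
        exact (mem_erase.1 (h1 h2)).1 rfl
    · rintro rfl
      exact ⟨⟨x, hx, rfl⟩, erase_subset _ _⟩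

end Pool.Agent.H23.AE
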