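import Pool.Agent.H23.AE.Swap
import Pool.Agent.H23.AE.Part

/-!
# MP_ae97ec_co: bistellar flips preserve spheres
-/

namespace Pool.Agent.H23.AE

open Finset Pool.Agent.H30.NZ

theorem h23_mem_part {G T F : Finset ℤ} : F ∈ part G T ↔ ∃ x ∈ T, G.erase x = F := by
  simp [part]

theorem isSph_bist {c : ℕ} {S : Cx} {G R : Finset ℤ} (hS : IsSph c S) (hR : R ⊆ G)
    (hne : R.Nonempty) (hne' : R ≠ G) (c1 : ∀ x ∈ R, G.erase x ∈ S)
    (c2 : ∀ F ∈ S, G \ R ⊆ F → ∃ x ∈ R, F = G.erase x) (c3 : ∀ F ∈ S, ¬ R ⊆ F) :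
    IsSph c ((S \ part G R) ∪ part G (G \ R)) := by
  have hsub : G \ R ⊆ G := sdiff_subset
  have hn1 : (G \ R).Nonempty := by
    rw [sdiff_nonempty]
    intro h
    exact hne' (Subset.antisymm hR h)
  have hn2 : G \ R ≠ G := by
    intro h
    obtain ⟨x, hx⟩ := hne
    have hxG : x ∈ G \ R := by
      rw [h]
      exact hR hx
    exact (mem_sdiff.1 hxG).2 hx
  have hb := bd_part hR hne hne'
  have hb' := bd_part hsub hn1 hn2
  have key : ∀ s : Finset ℤ, s ⊆ G → (∃ x ∈ R, x ∉ s) → (∃ y ∈ G \ R, y ∉ s) →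
      Fc (bd (part G R)) s := by
    rintro s hs ⟨x, hx, hxs⟩ ⟨y, hy, hys⟩
    refine ⟨(G.erase x).erase y, ?_, ?_⟩
    · rw [hb, mem_biUnion]
      exact ⟨x, hx, mem_image.2 ⟨y, hy, rfl⟩⟩
    · intro z hz
      rw [mem_erase, mem_erase]
      refine ⟨?_, ?_, hs hz⟩
      · rintro rfl
        exact hys hz
      · rintro rfl
        exact hxs hz
  refine isSph_swap hS (ball_part hR hne hne') (ball_part hsub hn1 hn2) ?_ ?_ ?_ ?_
  · intro F hF
    rw [h23_mem_part] at hF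
    obtain ⟨x, hx, rfl⟩ := hF
    exact c1 x hx
  · rw [hb, hb']
    have h1 : G \ (G \ R) = R := by
      rw [sdiff_sdiff_right_self]
      exact inf_eq_right.2 hR
    rw [h1]
    ext F
    simp only [mem_biUnion, mem_image]
    constructor
    · rintro ⟨x, hx, y, hy, rfl⟩
      exact ⟨y, hy, x, hx, erase_right_comm⟩
    · rintro ⟨x, hx, y, hy, rfl⟩
      exact ⟨y, hy, x, hx, erase_right_comm⟩
  · rintro s ⟨F, hF, hsF⟩ ⟨F', hF', hsF'⟩
    rw [h23_mem_part] at hF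
    obtain ⟨x, hx, rfl⟩ := hF
    rw [mem_sdiff] at hF'
    refine key s (hsF.trans (erase_subset _ _)) ⟨x, hx, fun h => (mem_erase.1 (hsF h)).1 rfl⟩ ?_
    by_contra hcon
    push Not at hcon
    obtain ⟨z, hz, hz'⟩ := c2 F' hF'.1 (fun y hy => hsF' (hcon y hy))
    exact hF'.2 (h23_mem_part.2 ⟨z, hz, hz'.symm⟩)
  · rintro s ⟨F, hF, hsF⟩ ⟨F', hF', hsF'⟩
    rw [h23_mem_part] at hF
    obtain ⟨y, hy, rfl⟩ := hF
    rw [mem_sdiff] at hF'
    refine key s (hsF.trans (erase_subset _ _)) ?_ ⟨y, hy, fun h => (mem_erase.1 (hsF h)).1 rfl⟩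
    by_contra hcon
    push Not at hcon
    exact c3 F' hF'.1 (fun x hx => hsF' (hcon x hx))

end Pool.Agent.H23.AE
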