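import Pool.Agent.H23.AE.Mem

/-!
# MP_ae97ec_co, d = 4: cardinalities, restriction sets, injectivity of the order
-/

namespace Pool.Agent.H23.AE

open Finset Pool.Agent.H30.NZ

theorem CSI_card4 {w x y z : ℤ} (h1 : w ≠ x) (h2 : w ≠ y) (h3 : w ≠ z) (h4 : x ≠ y) (h5 : x ≠ z)
    (h6 : y ≠ z) : ({w, x, y, z} : Finset ℤ).card = 4 := by
  rw [card_insert_of_notMem (by simp [h1, h2, h3]), card_insert_of_notMem (by simp [h4, h5]),
    card_insert_of_notMem (by simp [h6]), card_singleton]

theorem CSI_card_image {w x y z n : ℤ} (hn : 0 < n) (h1 : w ≠ x) (h2 : w ≠ y) (h3 : w ≠ z)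
    (h4 : x ≠ y) (h5 : x ≠ z) (h6 : y ≠ z)
    (hd : ∀ u ∈ ({w, x, y, z} : Finset ℤ), ∀ v ∈ ({w, x, y, z} : Finset ℤ), u < v → v - u < n) :
    (({w, x, y, z} : Finset ℤ).image (fun t => t % n)).card = 4 := by
  rw [card_image_of_injOn, CSI_card4 h1 h2 h3 h4 h5 h6]
  intro u hu v hv huv
  rw [mem_coe] at hu hv
  by_contra hne
  have hdv : n ∣ v - u := by
    have h7 : u % n = v % n := huv
    exact Int.ModEq.dvd h7
  obtain ⟨c, hc⟩ := hdv
  rcases lt_or_gt_of_ne hne with h | h
  · have h8 := hd u hu v hv h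
    have h9 : 0 < c := by
      by_contra hc0
      have : n * c ≤ 0 := by nlinarith
      omega
    nlinarith
  · have h8 := hd v hv u hu h
    have h9 : c < 0 := by
      by_contra hc0
      have : 0 ≤ n * c := by nlinarith
      omega
    nlinarith

theorem ff_card {a b : ℤ} (h : Par a b) (hp : Pth a b) {t : ℤ × ℤ × ℤ} (ht : t ∈ Idx a b) :
    (ff a b t).card = 4 := by
  obtain ⟨s, y, i⟩ := t
  have ha := h.ha
  have hb := h.hb
  have hN := h.hN
  have hne := h.ne
  have hC : 1 ≤ i → i ≤ a + b - 2 → (fC a b y i).card = 4 := by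
    intro h3 h4
    have hr := hp.range i h3 (by omega)
    have hr' := hp.range (i + 1) (by omega) (by omega)
    have hst := hp.step i h3 h4
    unfold fC
    apply CSI_card_image
    · unfold nn; omega
    · omega
    · omega
    · omega
    · omega
    · omega
    · omega
    · intro u hu v hv
      simp only [mem_insert, mem_singleton] at hu hv
      unfold nn
      omega
  rcases mem_Idx.1 ht with ⟨rfl, h1, h2, h3, h4⟩ | ⟨rfl, h1, h2, h3⟩ | ⟨rfl, h1, h2, h3, h4⟩
  · simp only [ff]
    rw [if_neg (by norm_num)]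
    exact hC h3 h4
  · simp only [ff, if_true]
    unfold fQ
    apply CSI_card_image
    · unfold nn; omega
    · omega
    · omega
    · omega
    · omega
    · omega
    · omega
    · intro u hu v hv
      simp only [mem_insert, mem_singleton] at hu hv
      unfold nn
      omega
  · simp only [ff]
    rw [if_neg (by norm_num)]
    exact hC h3 h4

theorem RR_sub {a b : ℤ} (h : Par a b) (hp : Pth a b) {t : ℤ × ℤ × ℤ} (ht : t ∈ Idx a b) :
    RR a b t ⊆ ff a b t := by
  obtain ⟨s, y, i⟩ := t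
  have ha := h.ha
  have hb := h.hb
  have hN := h.hN
  have hne := h.ne
  have h1r := hp.one
  intro v hv
  rcases mem_Idx.1 ht with ⟨rfl, h1, h2, h3, h4⟩ | ⟨rfl, h1, h2, h3⟩ | ⟨rfl, h1, h2, h3, h4⟩
  · simp only [ff]
    rw [if_neg (by norm_num), mem_fC0 h hp h1 h2 h3 h4]
    simp only [RR, if_true, RA] at hv
    split_ifs at hv <;> simp only [mem_insert, mem_singleton, notMem_empty] at hv <;> tauto
  · simp only [ff, if_true]
    rw [mem_fQ h h1 h2]
    simp only [RR] at hv
    rw [if_neg (by norm_num), if_pos trivial] at hv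
    simp only [RQ] at hv
    split_ifs at hv with q1 q2 q3 <;> simp only [mem_insert, mem_singleton] at hv
    · omega
    · omega
    · have q3' : y ≤ 3 * a + 2 * b - a - 1 := q3
      omega
    · have q3' : ¬ y ≤ 3 * a + 2 * b - a - 1 := q3
      simp only [nn] at hv
      omega
  · simp only [ff]
    rw [if_neg (by norm_num), mem_fC2 h hp h1 h2 h3 h4]
    simp only [RR] at hv
    rw [if_neg (by norm_num), if_neg (by norm_num), mem_RW h hp h1 h2 h3 h4] at hv
    have hr := hp.range i h3 (by omega)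
    have hr' := hp.range (i + 1) (by omega) (by omega)
    rcases hv with ⟨v1, v2, hv⟩
    refine ⟨v1, v2, ?_⟩
    rcases hv with ⟨c1, c2, hv⟩ | ⟨c1, c2, hv⟩ | ⟨c1, c2, hv⟩ | ⟨c1, c2, hv⟩
    · omega
    · subst c2
      rw [show (1 : ℤ) + 1 = 2 by norm_num]
      rw [h1r]
      omega
    · subst c1
      omega
    · subst c1 c2
      rw [show (1 : ℤ) + 1 = 2 by norm_num]
      rw [h1r]
      omega

theorem rk_inj {a b : ℤ} (h : Par a b) {s t : ℤ × ℤ × ℤ} (hs : s ∈ Idx a b)
    (ht : t ∈ Idx a b) (e : rk s = rk t) : s = t := by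
  obtain ⟨s, y, i⟩ := s
  obtain ⟨s', y', i'⟩ := t
  have key : ¬ rk (s, y, i) < rk (s', y', i') := by rw [e]; exact lt_irrefl _
  have key' : ¬ rk (s', y', i') < rk (s, y, i) := by rw [e]; exact lt_irrefl _
  rcases mem_Idx.1 hs with ⟨rfl, h1, h2, h3, h4⟩ | ⟨rfl, h1, h2, h3⟩ | ⟨rfl, h1, h2, h3, h4⟩ <;>
    rcases mem_Idx.1 ht with ⟨rfl, h1', h2', h3', h4'⟩ | ⟨rfl, h1', h2', h3'⟩ |
      ⟨rfl, h1', h2', h3', h4'⟩
  · rw [rk00] at key key'
    have : y = y' ∧ i = i' := by omega
    rw [this.1, this.2]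
  · exact absurd rk01 key
  · exact absurd rk02 key
  · exact absurd rk01 key'
  · rw [rk11] at key key'
    have : y = y' := by omega
    rw [this, h3, h3']
  · exact absurd rk12 key
  · exact absurd rk02 key'
  · exact absurd rk12 key'
  · rw [rk22] at key key'
    have : y = y' ∧ i = i' := by omega
    rw [this.1, this.2]

end Pool.Agent.H23.AE
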