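import Pool.Agent.H23.AE.Mem

/-! # MP_ae97ec_co, d = 4: the facets of the first cylinder part have neighbours -/

namespace Pool.Agent.H23.AE

open Finset Pool.Agent.H30.NZ

/-- the index of a pair `(s, s + a)` -/
theorem clA_up {a b s : ℤ} (h : Par a b) (hp : Pth a b) (h1 : 1 ≤ s) (h2 : s < b) :
    ∃ j, 1 ≤ j ∧ j ≤ a + b - 2 ∧ rr a b j = s ∧ rr a b (j + 1) = s + a := by
  have ha := h.ha
  obtain ⟨j, hj1, hj2, hj3⟩ := hp.surj s h1 (by omega)
  have hj4 : j ≠ a + b - 1 := by
    intro e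
    rw [e, hp.last] at hj3
    omega
  refine ⟨j, hj1, by omega, hj3, ?_⟩
  rcases hp.step j hj1 (by omega) with h5 | h5 <;> omega

/-- the index of a pair `(s, s - b)` -/
theorem clA_down {a b s : ℤ} (h : Par a b) (hp : Pth a b) (h1 : b < s) (h2 : s ≤ a + b - 1) :
    ∃ j, 1 ≤ j ∧ j ≤ a + b - 2 ∧ rr a b j = s ∧ rr a b (j + 1) = s - b := by
  have ha := h.ha
  have hb := h.hb
  obtain ⟨j, hj1, hj2, hj3⟩ := hp.surj s (by omega) (by omega)
  have hj4 : j ≠ a + b - 1 := by
    intro e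
    rw [e, hp.last] at hj3
    omega
  refine ⟨j, hj1, by omega, hj3, ?_⟩
  rcases hp.step j hj1 (by omega) with h5 | h5 <;> omega

/-- blocks -/
theorem clA_block {a b y i z j : ℤ} (h : Par a b) (hp : Pth a b) (h1 : -1 ≤ z)
    (h2 : z ≤ 2 * a + b) (h3 : 1 ≤ j) (h4 : j ≤ a + b - 2) (hz : z ≠ y) :
    ∃ t ∈ Idx a b, t ≠ (0, y, i) ∧ ∀ v, 0 ≤ v → v < 3 * a + 2 * b →
      (v = z ∨ v = z + 1 ∨ v = z + 1 + rr a b j ∨ v = z + 1 + rr a b (j + 1)) →
      v ∈ ff a b t := by
  have ha := h.ha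
  have hb := h.hb
  rcases lt_or_ge z 0 with hz0 | hz0
  · have hz1 : z = -1 := by omega
    subst hz1
    refine ⟨(2, -1, j), mem_Idx.mpr (by omega), by simp, fun v hv1 hv2 hv => ?_⟩
    show v ∈ ff a b (2, -1, j)
    have e : ff a b (2, -1, j) = fC a b (-1) j := by simp [ff]
    rw [e, mem_fC2 h hp (by omega) (by omega) h3 h4]
    omega
  · rcases lt_or_ge z (2 * a + b) with hz2 | hz2
    · refine ⟨(0, z, j), mem_Idx.mpr (by omega), by
        intro e
        simp only [Prod.mk.injEq] at e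
        omega, fun v hv1 hv2 hv => ?_⟩
      have e : ff a b (0, z, j) = fC a b z j := by simp [ff]
      rw [e, mem_fC0 h hp hz0 (by omega) h3 h4]
      omega
    · have hz1 : z = 2 * a + b := by omega
      subst hz1
      refine ⟨(2, -(a + b), j), mem_Idx.mpr (by omega), by simp, fun v hv1 hv2 hv => ?_⟩
      have e : ff a b (2, -(a + b), j) = fC a b (-(a + b)) j := by simp [ff]
      rw [e, mem_fC2 h hp (by omega) (by omega) h3 h4]
      omega

/-- core facets -/
theorem clA_core {a b y i k : ℤ} (h : Par a b) (h1 : -a ≤ k) (h2 : k ≤ 3 * a + 2 * b - 1) :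
    ∃ t ∈ Idx a b, t ≠ (0, y, i) ∧ ∀ v, 0 ≤ v → v < 3 * a + 2 * b →
      (v = k ∨ v = k + a ∨ v = k + a + b ∨ v = k + a + b + a) → v ∈ ff a b t := by
  have ha := h.ha
  have hb := h.hb
  rcases lt_or_ge k 0 with hk | hk
  · refine ⟨(1, k + (3 * a + 2 * b), 0), mem_Idx.mpr (by omega), by simp,
      fun v hv1 hv2 hv => ?_⟩
    have e : ff a b (1, k + (3 * a + 2 * b), 0) = fQ a b (k + (3 * a + 2 * b)) := by simp [ff]
    rw [e, mem_fQ h (by omega) (by omega)]
    omega
  · refine ⟨(1, k, 0), mem_Idx.mpr (by omega), by simp, fun v hv1 hv2 hv => ?_⟩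
    have e : ff a b (1, k, 0) = fQ a b k := by simp [ff]
    rw [e, mem_fQ h hk h2]
    omega

theorem closed_A {a b y i : ℤ} (h : Par a b) (hp : Pth a b) (h1 : 0 ≤ y)
    (h2 : y ≤ 2 * a + b - 1) (h3 : 1 ≤ i) (h4 : i ≤ a + b - 2) :
    ∀ x ∈ fC a b y i, ∃ t ∈ Idx a b, t ≠ (0, y, i) ∧ (fC a b y i).erase x ⊆ ff a b t := by
  have ha := h.ha
  have hb := h.hb
  have hr := hp.range i h3 (by omega)
  have hr' := hp.range (i + 1) (by omega) (by omega)
  have hst := hp.step i h3 h4
  -- a facet containing three of the four vertices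
  have key : ∀ x t, t ≠ (0, y, i) → t ∈ Idx a b →
      (∀ v, 0 ≤ v → v < 3 * a + 2 * b → v ≠ x →
        (v = y ∨ v = y + 1 ∨ v = y + 1 + rr a b i ∨ v = y + 1 + rr a b (i + 1)) →
        v ∈ ff a b t) →
      ∃ t ∈ Idx a b, t ≠ (0, y, i) ∧ (fC a b y i).erase x ⊆ ff a b t := by
    intro x t ht1 ht2 ht3
    refine ⟨t, ht2, ht1, fun v hv => ?_⟩
    rw [mem_erase, mem_fC0 h hp h1 h2 h3 h4] at hv
    exact ht3 v (by omega) (by omega) hv.1 hv.2
  intro x hx
  rw [mem_fC0 h hp h1 h2 h3 h4] at hx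
  rcases hx with hx | hx | hx | hx
  · -- without `y`: block `y + 1`
    by_cases hm : rr a b i = 1 ∨ rr a b (i + 1) = 1
    · by_cases hc : rr a b i = 1
      · -- the pair `(1, 1 + a)` or, if `b < 1`, impossible
        obtain ⟨t, ht1, ht2, ht3⟩ := clA_block (y := y) (i := i) (z := y + 1) (j := 1) h hp
          (by omega) (by omega) (by omega) (by omega) (by omega)
        refine key x t ht2 ht1 fun v hv1 hv2 hv3 hv4 => ht3 v hv1 hv2 ?_
        have h5 := hp.one
        omega
      · obtain ⟨t, ht1, ht2, ht3⟩ := clA_block (y := y) (i := i) (z := y + 1) (j := a + b - 2)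
          h hp (by omega) (by omega) (by omega) (by omega) (by omega)
        refine key x t ht2 ht1 fun v hv1 hv2 hv3 hv4 => ht3 v hv1 hv2 ?_
        have h5 := hp.last
        have h6 : a + b - 2 + 1 = a + b - 1 := by ring
        rw [h6]
        omega
    · rcases hst with hst | hst
      · obtain ⟨j, hj1, hj2, hj3, hj4⟩ := clA_up (s := rr a b i - 1) h hp (by omega) (by omega)
        obtain ⟨t, ht1, ht2, ht3⟩ := clA_block (y := y) (i := i) (z := y + 1) (j := j) h hp
          (by omega) (by omega) hj1 hj2 (by omega)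
        exact key x t ht2 ht1 fun v hv1 hv2 hv3 hv4 => ht3 v hv1 hv2 (by omega)
      · obtain ⟨j, hj1, hj2, hj3, hj4⟩ := clA_down (s := rr a b i - 1) h hp (by omega) (by omega)
        obtain ⟨t, ht1, ht2, ht3⟩ := clA_block (y := y) (i := i) (z := y + 1) (j := j) h hp
          (by omega) (by omega) hj1 hj2 (by omega)
        exact key x t ht2 ht1 fun v hv1 hv2 hv3 hv4 => ht3 v hv1 hv2 (by omega)
  · -- without `y + 1`: block `y - 1`
    rcases hst with hst | hst
    · by_cases hm : rr a b (i + 1) = a + b - 1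
      · obtain ⟨t, ht1, ht2, ht3⟩ := clA_core (y := y) (i := i) (k := y - a) h
          (by omega) (by omega)
        exact key x t ht2 ht1 fun v hv1 hv2 hv3 hv4 => ht3 v hv1 hv2 (by omega)
      · obtain ⟨j, hj1, hj2, hj3, hj4⟩ := clA_up (s := rr a b i + 1) h hp (by omega) (by omega)
        obtain ⟨t, ht1, ht2, ht3⟩ := clA_block (y := y) (i := i) (z := y - 1) (j := j) h hp
          (by omega) (by omega) hj1 hj2 (by omega)
        exact key x t ht2 ht1 fun v hv1 hv2 hv3 hv4 => ht3 v hv1 hv2 (by omega)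
    · by_cases hm : rr a b i = a + b - 1
      · obtain ⟨t, ht1, ht2, ht3⟩ := clA_core (y := y) (i := i) (k := y) h
          (by omega) (by omega)
        exact key x t ht2 ht1 fun v hv1 hv2 hv3 hv4 => ht3 v hv1 hv2 (by omega)
      · obtain ⟨j, hj1, hj2, hj3, hj4⟩ := clA_down (s := rr a b i + 1) h hp (by omega) (by omega)
        obtain ⟨t, ht1, ht2, ht3⟩ := clA_block (y := y) (i := i) (z := y - 1) (j := j) h hp
          (by omega) (by omega) hj1 hj2 (by omega)
        exact key x t ht2 ht1 fun v hv1 hv2 hv3 hv4 => ht3 v hv1 hv2 (by omega)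
  · -- without `y + 1 + r i`
    by_cases hi : i = a + b - 2
    · have h5 : rr a b (i + 1) = b := by
        rw [hi, show a + b - 2 + 1 = a + b - 1 by ring]
        exact hp.last
      obtain ⟨j, hj1, hj2, hj3, hj4⟩ := clA_down (s := 1 + b) h hp (by omega) (by omega)
      obtain ⟨t, ht1, ht2, ht3⟩ := clA_block (y := y) (i := i) (z := y - 1) (j := j) h hp
        (by omega) (by omega) hj1 hj2 (by omega)
      exact key x t ht2 ht1 fun v hv1 hv2 hv3 hv4 => ht3 v hv1 hv2 (by omega)
    · refine key x (0, y, i + 1) (by simp) (mem_Idx.mpr (by omega)) fun v hv1 hv2 hv3 hv4 => ?_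
      have e : ff a b (0, y, i + 1) = fC a b y (i + 1) := by simp [ff]
      rw [e, mem_fC0 h hp h1 h2 (by omega) (by omega)]
      omega
  · -- without `y + 1 + r (i + 1)`
    by_cases hi : i = 1
    · have h5 : rr a b i = a := by
        rw [hi]
        exact hp.one
      by_cases hb1 : b = 1
      · obtain ⟨t, ht1, ht2, ht3⟩ := clA_core (y := y) (i := i) (k := y - a) h
          (by omega) (by omega)
        exact key x t ht2 ht1 fun v hv1 hv2 hv3 hv4 => ht3 v hv1 hv2 (by omega)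
      · obtain ⟨j, hj1, hj2, hj3, hj4⟩ := clA_up (s := 1) h hp (by omega) (by omega)
        obtain ⟨t, ht1, ht2, ht3⟩ := clA_block (y := y) (i := i) (z := y - 1) (j := j) h hp
          (by omega) (by omega) hj1 hj2 (by omega)
        exact key x t ht2 ht1 fun v hv1 hv2 hv3 hv4 => ht3 v hv1 hv2 (by omega)
    · refine key x (0, y, i - 1) (by simp) (mem_Idx.mpr (by omega)) fun v hv1 hv2 hv3 hv4 => ?_
      have e : ff a b (0, y, i - 1) = fC a b y (i - 1) := by simp [ff]
      rw [e, mem_fC0 h hp h1 h2 (by omega) (by omega), show i - 1 + 1 = i by ring]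
      omega

end Pool.Agent.H23.AE
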