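import Pool.Agent.H23.AE.Defs

/-!
# MP_ae97ec_co, d = 4: membership lemmas
-/

namespace Pool.Agent.H23.AE

open Finset Pool.Agent.H30.NZ

theorem mem_emod {n x v : ℤ} (hn : 0 < n) (h1 : -n ≤ x) (h2 : x < 2 * n) :
    x % n = v ↔ 0 ≤ v ∧ v < n ∧ (v = x ∨ v = x + n ∨ v + n = x) := by
  have e1 := Int.emod_nonneg x hn.ne'
  have e2 := Int.emod_lt_of_pos x hn
  have e3 : x % n = x ∨ x % n = x + n ∨ x % n + n = x := by
    rcases lt_or_ge x 0 with hx | hx
    · right; left
      have : (x + n) % n = x + n := Int.emod_eq_of_lt (by omega) (by omega)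
      rw [← this, Int.add_emod_right]
      
    · rcases lt_or_ge x n with hx' | hx'
      · left; exact Int.emod_eq_of_lt hx hx'
      · right; right
        have : (x - n) % n = x - n := Int.emod_eq_of_lt (by omega) (by omega)
        rw [Int.sub_emod_right] at this
        omega
  constructor
  · rintro rfl
    exact ⟨e1, e2, e3⟩
  · rintro ⟨h3, h4, h5⟩
    omega

theorem mem_Idx {a b s y i : ℤ} : (s, y, i) ∈ Idx a b ↔
    (s = 0 ∧ 0 ≤ y ∧ y ≤ 2 * a + b - 1 ∧ 1 ≤ i ∧ i ≤ a + b - 2) ∨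
    (s = 1 ∧ 0 ≤ y ∧ y ≤ 3 * a + 2 * b - 1 ∧ i = 0) ∨
    (s = 2 ∧ -(a + b) ≤ y ∧ y ≤ -1 ∧ 1 ≤ i ∧ i ≤ a + b - 2) := by
  simp only [Idx, nn, mem_union, mem_product, mem_singleton, mem_Icc]
  omega

theorem mem_fC {a b y i v : ℤ} : v ∈ fC a b y i ↔ y % nn a b = v ∨ (y + 1) % nn a b = v ∨
    (y + 1 + rr a b i) % nn a b = v ∨ (y + 1 + rr a b (i + 1)) % nn a b = v := by
  simp only [fC, mem_image, mem_insert, mem_singleton, exists_eq_or_imp, exists_eq_left]

theorem mem_fC0 {a b y i v : ℤ} (h : Par a b) (hp : Pth a b) (h1 : 0 ≤ y)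
    (h2 : y ≤ 2 * a + b - 1) (h3 : 1 ≤ i) (h4 : i ≤ a + b - 2) :
    v ∈ fC a b y i ↔ v = y ∨ v = y + 1 ∨ v = y + 1 + rr a b i ∨ v = y + 1 + rr a b (i + 1) := by
  have ha := h.ha
  have hb := h.hb
  have r1 := hp.range i h3 (by omega)
  have r2 := hp.range (i + 1) (by omega) (by omega)
  rw [mem_fC, nn, mem_emod (by omega) (by omega) (by omega), mem_emod (by omega) (by omega) (by omega),
    mem_emod (by omega) (by omega) (by omega), mem_emod (by omega) (by omega) (by omega)]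
  omega

theorem mem_fC2 {a b y i v : ℤ} (h : Par a b) (hp : Pth a b) (h1 : -(a + b) ≤ y)
    (h2 : y ≤ -1) (h3 : 1 ≤ i) (h4 : i ≤ a + b - 2) :
    v ∈ fC a b y i ↔ 0 ≤ v ∧ v < 3 * a + 2 * b ∧
      ((v = y ∨ v = y + 1 ∨ v = y + 1 + rr a b i ∨ v = y + 1 + rr a b (i + 1)) ∨
        (v = y + (3 * a + 2 * b) ∨ v = y + 1 + (3 * a + 2 * b) ∨
          v = y + 1 + rr a b i + (3 * a + 2 * b) ∨
          v = y + 1 + rr a b (i + 1) + (3 * a + 2 * b))) := by
  have ha := h.ha
  have hb := h.hb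
  have r1 := hp.range i h3 (by omega)
  have r2 := hp.range (i + 1) (by omega) (by omega)
  rw [mem_fC, nn, mem_emod (by omega) (by omega) (by omega), mem_emod (by omega) (by omega) (by omega),
    mem_emod (by omega) (by omega) (by omega), mem_emod (by omega) (by omega) (by omega)]
  omega

theorem mem_fQ {a b k v : ℤ} (h : Par a b) (h1 : 0 ≤ k) (h2 : k ≤ 3 * a + 2 * b - 1) :
    v ∈ fQ a b k ↔ 0 ≤ v ∧ v < 3 * a + 2 * b ∧
      (v = k ∨ v = k + a ∨ v = k + a + b ∨ v = k + a + b + a ∨ v + (3 * a + 2 * b) = k + a ∨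
        v + (3 * a + 2 * b) = k + a + b ∨ v + (3 * a + 2 * b) = k + a + b + a) := by
  have ha := h.ha
  have hb := h.hb
  have e : v ∈ fQ a b k ↔ k % nn a b = v ∨ (k + a) % nn a b = v ∨
      (k + (a + b)) % nn a b = v ∨ (k + (a + b) + a) % nn a b = v := by
    simp only [fQ, mem_image, mem_insert, mem_singleton, exists_eq_or_imp, exists_eq_left]
  rw [e, nn, mem_emod (by omega) (by omega) (by omega), mem_emod (by omega) (by omega) (by omega),
    mem_emod (by omega) (by omega) (by omega), mem_emod (by omega) (by omega) (by omega)]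
  omega

theorem mem_RW {a b y i v : ℤ} (h : Par a b) (hp : Pth a b) (h1 : -(a + b) ≤ y)
    (h2 : y ≤ -1) (h3 : 1 ≤ i) (h4 : i ≤ a + b - 2) :
    v ∈ RW a b y i ↔ 0 ≤ v ∧ v < 3 * a + 2 * b ∧
      ((y ≤ -2 ∧ 2 ≤ i ∧ (v = y + 1 + (3 * a + 2 * b) ∨ v = y + 1 + rr a b i ∨
          v = y + 1 + rr a b i + (3 * a + 2 * b))) ∨
        (y ≤ -2 ∧ i = 1 ∧ (v = y + 1 + (3 * a + 2 * b) ∨ v = y + 1 + a ∨
          v = y + 1 + a + (3 * a + 2 * b) ∨ v = y + 1 + rr a b 2 ∨
          v = y + 1 + rr a b 2 + (3 * a + 2 * b))) ∨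
        (y = -1 ∧ 2 ≤ i ∧ (v = 3 * a + 2 * b - 1 ∨ v = 0 ∨ v = rr a b i)) ∨
        (y = -1 ∧ i = 1 ∧ (v = 3 * a + 2 * b - 1 ∨ v = 0 ∨ v = a ∨ v = rr a b 2))) := by
  have ha := h.ha
  have hb := h.hb
  have r1 := hp.range i h3 (by omega)
  have r2 := hp.range (i + 1) (by omega) (by omega)
  have hN := h.hN
  have r3 := hp.range 2 (by omega) (by omega)
  by_cases hy : y ≤ -2
  · by_cases hi : i = 1
    · simp only [RW, if_pos hy, if_pos hi, mem_image, mem_insert, mem_singleton,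
        exists_eq_or_imp, exists_eq_left]
      rw [nn, mem_emod (by omega) (by omega) (by omega), mem_emod (by omega) (by omega) (by omega),
        mem_emod (by omega) (by omega) (by omega)]
      omega
    · simp only [RW, if_pos hy, if_neg hi, mem_image, mem_insert, mem_singleton,
        exists_eq_or_imp, exists_eq_left]
      rw [nn, mem_emod (by omega) (by omega) (by omega), mem_emod (by omega) (by omega) (by omega)]
      omega
  · by_cases hi : i = 1
    · simp only [RW, if_neg hy, if_pos hi, mem_image, mem_insert, mem_singleton,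
        exists_eq_or_imp, exists_eq_left]
      rw [nn, mem_emod (by omega) (by omega) (by omega), mem_emod (by omega) (by omega) (by omega),
        mem_emod (by omega) (by omega) (by omega), mem_emod (by omega) (by omega) (by omega)]
      omega
    · simp only [RW, if_neg hy, if_neg hi, mem_image, mem_insert, mem_singleton,
        exists_eq_or_imp, exists_eq_left]
      rw [nn, mem_emod (by omega) (by omega) (by omega), mem_emod (by omega) (by omega) (by omega),
        mem_emod (by omega) (by omega) (by omega)]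
      omega

theorem rk00 {y i y' i' : ℤ} : rk (0, y, i) < rk (0, y', i') ↔ y' < y ∨ (y = y' ∧ i < i') := by
  simp [rk, Prod.Lex.toLex_lt_toLex]

theorem rk11 {y i y' i' : ℤ} : rk (1, y, i) < rk (1, y', i') ↔ y < y' := by
  simp [rk, Prod.Lex.toLex_lt_toLex]

theorem rk22 {y i y' i' : ℤ} : rk (2, y, i) < rk (2, y', i') ↔ y < y' ∨ (y = y' ∧ i' < i) := by
  simp [rk, Prod.Lex.toLex_lt_toLex]

theorem rk01 {y i y' i' : ℤ} : rk (0, y, i) < rk (1, y', i') := by
  simp [rk, Prod.Lex.toLex_lt_toLex]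

theorem rk02 {y i y' i' : ℤ} : rk (0, y, i) < rk (2, y', i') := by
  simp [rk, Prod.Lex.toLex_lt_toLex]

theorem rk12 {y i y' i' : ℤ} : rk (1, y, i) < rk (2, y', i') := by
  simp [rk, Prod.Lex.toLex_lt_toLex]

end Pool.Agent.H23.AE
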