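import Pool.Agent.H23.AE.Defs
import Pool.Agent.H23.AE.Mem

/-!
# MP_ae97ec_co: every face of codimension one of a core facet lies in another facet
-/

namespace Pool.Agent.H23.AE

open Finset Pool.Agent.H30.NZ

private theorem ff_zero {a b y i : ℤ} : ff a b (0, y, i) = fC a b y i := by
  simp [ff]

private theorem ff_one {a b y i : ℤ} : ff a b (1, y, i) = fQ a b y := by
  simp [ff]

private theorem ff_two {a b y i : ℤ} : ff a b (2, y, i) = fC a b y i := by
  simp [ff]

/-- The block of `p` modulo `n` contains the triangle `{p, p + 1 + r i, p + 1 + r (i + 1)}` and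
also `p + 1`. -/
private theorem block_cover {a b p i : ℤ} (h : Par a b) (hp : Pth a b) (h1 : 0 ≤ p)
    (h2 : p ≤ 3 * a + 2 * b - 1 + a) (h3 : 1 ≤ i) (h4 : i ≤ a + b - 2) :
    ∃ t ∈ Idx a b, t.1 ≠ 1 ∧ ∀ v : ℤ, 0 ≤ v → v < 3 * a + 2 * b →
      (∃ w : ℤ, (w = p ∨ w = p + 1 ∨ w = p + 1 + rr a b i ∨ w = p + 1 + rr a b (i + 1)) ∧
        (v = w ∨ v + (3 * a + 2 * b) = w ∨ v + 2 * (3 * a + 2 * b) = w)) → v ∈ ff a b t := by
  have ha := h.ha
  have hb := h.hb
  obtain ⟨r1, r2⟩ := hp.range i h3 (by omega)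
  obtain ⟨r3, r4⟩ := hp.range (i + 1) (by omega) (by omega)
  by_cases c1 : p ≤ 2 * a + b - 1
  · refine ⟨(0, p, i), mem_Idx.2 (Or.inl ⟨rfl, h1, c1, h3, h4⟩), by simp, ?_⟩
    rintro v v1 v2 ⟨w, hw, hv⟩
    rw [ff_zero, mem_fC0 h hp h1 c1 h3 h4]
    omega
  · by_cases c2 : p ≤ 3 * a + 2 * b - 1
    · refine ⟨(2, p - (3 * a + 2 * b), i), mem_Idx.2 (Or.inr (Or.inr ⟨rfl, by omega, by omega,
        h3, h4⟩)), by simp, ?_⟩
      rintro v v1 v2 ⟨w, hw, hv⟩
      rw [ff_two, mem_fC2 h hp (by omega) (by omega) h3 h4]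
      omega
    · refine ⟨(0, p - (3 * a + 2 * b), i), mem_Idx.2 (Or.inl ⟨rfl, by omega, by omega,
        h3, h4⟩), by simp, ?_⟩
      rintro v v1 v2 ⟨w, hw, hv⟩
      rw [ff_zero, mem_fC0 h hp (by omega) (by omega) h3 h4]
      omega

theorem closed_Q {a b k : ℤ} (h : Par a b) (hp : Pth a b) (h1 : 0 ≤ k)
    (h2 : k ≤ 3 * a + 2 * b - 1) :
    ∀ x ∈ fQ a b k, ∃ t ∈ Idx a b, t ≠ (1, k, 0) ∧ (fQ a b k).erase x ⊆ ff a b t := by
  have ha := h.ha
  have hb := h.hb
  intro x hx
  have hx' := (mem_fQ h h1 h2).1 hx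
  obtain ⟨x0, xn, hx2⟩ := hx'
  -- the four cases
  have hcase : (x = k) ∨ (x = k + a ∨ x + (3 * a + 2 * b) = k + a) ∨
      (x = k + a + b ∨ x + (3 * a + 2 * b) = k + a + b) ∨
      (x = k + a + b + a ∨ x + (3 * a + 2 * b) = k + a + b + a) := by omega
  rcases hcase with c | c | c | c
  · -- `x = k`: the block of `k + a`
    have key : ∃ i, 1 ≤ i ∧ i ≤ a + b - 2 ∧ (∀ w : ℤ, w = k + a ∨ w = k + a + b ∨
        w = k + a + b + a → (w = k + a ∨ w = k + a + 1 ∨ w = k + a + 1 + rr a b i ∨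
          w = k + a + 1 + rr a b (i + 1))) := by
      by_cases b1 : b = 1
      · refine ⟨1, le_refl _, by omega, ?_⟩
        have r1 := hp.one
        intro w hw
        omega
      · obtain ⟨i, i1, i2, i3⟩ := hp.surj (b - 1) (by omega) (by omega)
        have hl := hp.last
        have i4 : i ≤ a + b - 2 := by
          by_contra hne
          have : i = a + b - 1 := by omega
          rw [this] at i3
          omega
        have st := hp.step i i1 i4
        refine ⟨i, i1, i4, ?_⟩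
        intro w hw
        omega
    obtain ⟨i, i1, i2, i3⟩ := key
    obtain ⟨t, t1, t2, t3⟩ := block_cover (p := k + a) h hp (by omega) (by omega) i1 i2
    refine ⟨t, t1, fun e => t2 (by rw [e]), ?_⟩
    intro v hv
    rw [mem_erase, mem_fQ h h1 h2] at hv
    obtain ⟨hne, v0, vn, hv⟩ := hv
    refine t3 v v0 vn ?_
    by_cases cc : v = k + a ∨ v = k + a + b ∨ v = k + a + b + a
    · exact ⟨v, i3 v cc, by omega⟩
    · refine ⟨v + (3 * a + 2 * b), i3 _ ?_, by omega⟩
      omega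
  · -- `x = k + a`: the core facet of `k + N`
    by_cases cc : k + (a + b) ≤ 3 * a + 2 * b - 1
    · refine ⟨(1, k + (a + b), 0), mem_Idx.2 (Or.inr (Or.inl ⟨rfl, by omega, cc, rfl⟩)), ?_, ?_⟩
      · intro e
        simp only [Prod.mk.injEq] at e
        omega
      · intro v hv
        rw [mem_erase, mem_fQ h h1 h2] at hv
        rw [ff_one, mem_fQ h (by omega) cc]
        omega
    · refine ⟨(1, k + (a + b) - (3 * a + 2 * b), 0), mem_Idx.2 (Or.inr (Or.inl ⟨rfl, by omega,
        by omega, rfl⟩)), ?_, ?_⟩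
      · intro e
        simp only [Prod.mk.injEq] at e
        omega
      · intro v hv
        rw [mem_erase, mem_fQ h h1 h2] at hv
        rw [ff_one, mem_fQ h (by omega) (by omega)]
        omega
  · -- `x = k + N`: the core facet of `k - N`
    by_cases cc : 0 ≤ k - (a + b)
    · refine ⟨(1, k - (a + b), 0), mem_Idx.2 (Or.inr (Or.inl ⟨rfl, cc, by omega, rfl⟩)), ?_, ?_⟩
      · intro e
        simp only [Prod.mk.injEq] at e
        omega
      · intro v hv
        rw [mem_erase, mem_fQ h h1 h2] at hv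
        rw [ff_one, mem_fQ h cc (by omega)]
        omega
    · refine ⟨(1, k - (a + b) + (3 * a + 2 * b), 0), mem_Idx.2 (Or.inr (Or.inl ⟨rfl, by omega,
        by omega, rfl⟩)), ?_, ?_⟩
      · intro e
        simp only [Prod.mk.injEq] at e
        omega
      · intro v hv
        rw [mem_erase, mem_fQ h h1 h2] at hv
        rw [ff_one, mem_fQ h (by omega) (by omega)]
        omega
  · -- `x = k + N + a`: the block of `k`
    have key : ∃ i, 1 ≤ i ∧ i ≤ a + b - 2 ∧ (∀ w : ℤ, w = k ∨ w = k + a ∨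
        w = k + a + b → (w = k ∨ w = k + 1 ∨ w = k + 1 + rr a b i ∨
          w = k + 1 + rr a b (i + 1))) := by
      obtain ⟨i, i1, i2, i3⟩ := hp.surj (a + b - 1) (by omega) (by omega)
      have hl := hp.last
      have i4 : i ≤ a + b - 2 := by
        by_contra hne
        have : i = a + b - 1 := by omega
        rw [this] at i3
        omega
      have st := hp.step i i1 i4
      refine ⟨i, i1, i4, ?_⟩
      intro w hw
      omega
    obtain ⟨i, i1, i2, i3⟩ := key
    obtain ⟨t, t1, t2, t3⟩ := block_cover (p := k) h hp (by omega) (by omega) i1 i2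
    refine ⟨t, t1, fun e => t2 (by rw [e]), ?_⟩
    intro v hv
    rw [mem_erase, mem_fQ h h1 h2] at hv
    obtain ⟨hne, v0, vn, hv⟩ := hv
    refine t3 v v0 vn ?_
    by_cases cc : v = k ∨ v = k + a ∨ v = k + a + b
    · exact ⟨v, i3 v cc, by omega⟩
    · refine ⟨v + (3 * a + 2 * b), i3 _ ?_, by omega⟩
      omega

end Pool.Agent.H23.AE
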