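import Pool.Agent.H23.AE.ClA

/-! # MP_ae97ec_co, d = 4: the facets of the second cylinder part have neighbours -/

namespace Pool.Agent.H23.AE

open Finset Pool.Agent.H30.NZ

/-- blocks -/
theorem clW_block {a b y i z j : ℤ} (h : Par a b) (hp : Pth a b) (h1 : -(a + b) - 1 ≤ z)
    (h2 : z ≤ 0) (h3 : 1 ≤ j) (h4 : j ≤ a + b - 2) (hz : z ≠ y) :
    ∃ t ∈ Idx a b, t ≠ (2, y, i) ∧ ∀ v, 0 ≤ v → v < 3 * a + 2 * b →
      ((v = z ∨ v = z + 1 ∨ v = z + 1 + rr a b j ∨ v = z + 1 + rr a b (j + 1)) ∨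
        (v = z + (3 * a + 2 * b) ∨ v = z + 1 + (3 * a + 2 * b) ∨
          v = z + 1 + rr a b j + (3 * a + 2 * b) ∨
          v = z + 1 + rr a b (j + 1) + (3 * a + 2 * b))) →
      v ∈ ff a b t := by
  have ha := h.ha
  have hb := h.hb
  have hr := hp.range j h3 (by omega)
  have hr' := hp.range (j + 1) (by omega) (by omega)
  rcases lt_or_ge z (-(a + b)) with hz0 | hz0
  · have hz1 : z = -(a + b) - 1 := by omega
    subst hz1
    refine ⟨(0, 2 * a + b - 1, j), mem_Idx.mpr (by omega), by simp, fun v hv1 hv2 hv => ?_⟩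
    have e : ff a b (0, 2 * a + b - 1, j) = fC a b (2 * a + b - 1) j := by simp [ff]
    rw [e, mem_fC0 h hp (by omega) (by omega) h3 h4]
    omega
  · rcases lt_or_ge z 0 with hz2 | hz2
    · refine ⟨(2, z, j), mem_Idx.mpr (by omega), by
        intro e
        simp only [Prod.mk.injEq] at e
        omega, fun v hv1 hv2 hv => ?_⟩
      have e : ff a b (2, z, j) = fC a b z j := by simp [ff]
      rw [e, mem_fC2 h hp (by omega) (by omega) h3 h4]
      exact ⟨hv1, hv2, hv⟩
    · have hz1 : z = 0 := by omega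
      subst hz1
      refine ⟨(0, 0, j), mem_Idx.mpr (by omega), by simp, fun v hv1 hv2 hv => ?_⟩
      have e : ff a b (0, 0, j) = fC a b 0 j := by simp [ff]
      rw [e, mem_fC0 h hp (by omega) (by omega) h3 h4]
      omega

/-- core facets -/
theorem clW_core {a b y i k : ℤ} (h : Par a b) (h1 : -(2 * a + b) ≤ k) (h2 : k ≤ -1) :
    ∃ t ∈ Idx a b, t ≠ (2, y, i) ∧ ∀ v, 0 ≤ v → v < 3 * a + 2 * b →
      ((v = k ∨ v = k + a ∨ v = k + a + b ∨ v = k + a + b + a) ∨
        (v = k + (3 * a + 2 * b) ∨ v = k + a + (3 * a + 2 * b) ∨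
          v = k + a + b + (3 * a + 2 * b) ∨ v = k + a + b + a + (3 * a + 2 * b))) →
      v ∈ ff a b t := by
  have ha := h.ha
  have hb := h.hb
  refine ⟨(1, k + (3 * a + 2 * b), 0), mem_Idx.mpr (by omega), by simp,
    fun v hv1 hv2 hv => ?_⟩
  have e : ff a b (1, k + (3 * a + 2 * b), 0) = fQ a b (k + (3 * a + 2 * b)) := by simp [ff]
  rw [e, mem_fQ h (by omega) (by omega)]
  omega

theorem closed_W {a b y i : ℤ} (h : Par a b) (hp : Pth a b) (h1 : -(a + b) ≤ y)
    (h2 : y ≤ -1) (h3 : 1 ≤ i) (h4 : i ≤ a + b - 2) :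
    ∀ x ∈ fC a b y i, ∃ t ∈ Idx a b, t ≠ (2, y, i) ∧ (fC a b y i).erase x ⊆ ff a b t := by
  have ha := h.ha
  have hb := h.hb
  have hr := hp.range i h3 (by omega)
  have hr' := hp.range (i + 1) (by omega) (by omega)
  have hst := hp.step i h3 h4
  -- a facet containing three of the four vertices
  have key : ∀ x t, t ≠ (2, y, i) → t ∈ Idx a b →
      (∀ v, 0 ≤ v → v < 3 * a + 2 * b → v ≠ x →
        ((v = y ∨ v = y + 1 ∨ v = y + 1 + rr a b i ∨ v = y + 1 + rr a b (i + 1)) ∨
        (v = y + (3 * a + 2 * b) ∨ v = y + 1 + (3 * a + 2 * b) ∨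
          v = y + 1 + rr a b i + (3 * a + 2 * b) ∨
          v = y + 1 + rr a b (i + 1) + (3 * a + 2 * b))) →
        v ∈ ff a b t) →
      ∃ t ∈ Idx a b, t ≠ (2, y, i) ∧ (fC a b y i).erase x ⊆ ff a b t := by
    intro x t ht1 ht2 ht3
    refine ⟨t, ht2, ht1, fun v hv => ?_⟩
    rw [mem_erase, mem_fC2 h hp h1 h2 h3 h4] at hv
    exact ht3 v hv.2.1 hv.2.2.1 hv.1 hv.2.2.2
  intro x hx
  rw [mem_fC2 h hp h1 h2 h3 h4] at hx
  obtain ⟨hx0, hxn, hx⟩ := hx
  have hx' : (x = y + (3 * a + 2 * b)) ∨ (x = y + 1 ∨ x = y + 1 + (3 * a + 2 * b)) ∨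
      (x = y + 1 + rr a b i ∨ x = y + 1 + rr a b i + (3 * a + 2 * b)) ∨
      (x = y + 1 + rr a b (i + 1) ∨ x = y + 1 + rr a b (i + 1) + (3 * a + 2 * b)) := by
    omega
  clear hx
  rcases hx' with hx | hx | hx | hx
  · -- without `y`: block `y + 1`
    by_cases hm : rr a b i = 1 ∨ rr a b (i + 1) = 1
    · by_cases hc : rr a b i = 1
      · obtain ⟨t, ht1, ht2, ht3⟩ := clW_block (y := y) (i := i) (z := y + 1) (j := 1) h hp
          (by omega) (by omega) (by omega) (by omega) (by omega)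
        refine key x t ht2 ht1 fun v hv1 hv2 hv3 hv4 => ht3 v hv1 hv2 ?_
        have h5 := hp.one
        omega
      · obtain ⟨t, ht1, ht2, ht3⟩ := clW_block (y := y) (i := i) (z := y + 1) (j := a + b - 2)
          h hp (by omega) (by omega) (by omega) (by omega) (by omega)
        refine key x t ht2 ht1 fun v hv1 hv2 hv3 hv4 => ht3 v hv1 hv2 ?_
        have h5 := hp.last
        have h6 : a + b - 2 + 1 = a + b - 1 := by ring
        rw [h6]
        omega
    · rcases hst with hst | hst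
      · obtain ⟨j, hj1, hj2, hj3, hj4⟩ := clA_up (s := rr a b i - 1) h hp (by omega) (by omega)
        obtain ⟨t, ht1, ht2, ht3⟩ := clW_block (y := y) (i := i) (z := y + 1) (j := j) h hp
          (by omega) (by omega) hj1 hj2 (by omega)
        exact key x t ht2 ht1 fun v hv1 hv2 hv3 hv4 => ht3 v hv1 hv2 (by omega)
      · obtain ⟨j, hj1, hj2, hj3, hj4⟩ := clA_down (s := rr a b i - 1) h hp (by omega) (by omega)
        obtain ⟨t, ht1, ht2, ht3⟩ := clW_block (y := y) (i := i) (z := y + 1) (j := j) h hp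
          (by omega) (by omega) hj1 hj2 (by omega)
        exact key x t ht2 ht1 fun v hv1 hv2 hv3 hv4 => ht3 v hv1 hv2 (by omega)
  · -- without `y + 1`: block `y - 1`
    rcases hst with hst | hst
    · by_cases hm : rr a b (i + 1) = a + b - 1
      · obtain ⟨t, ht1, ht2, ht3⟩ := clW_core (y := y) (i := i) (k := y - a) h
          (by omega) (by omega)
        exact key x t ht2 ht1 fun v hv1 hv2 hv3 hv4 => ht3 v hv1 hv2 (by omega)
      · obtain ⟨j, hj1, hj2, hj3, hj4⟩ := clA_up (s := rr a b i + 1) h hp (by omega) (by omega)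
        obtain ⟨t, ht1, ht2, ht3⟩ := clW_block (y := y) (i := i) (z := y - 1) (j := j) h hp
          (by omega) (by omega) hj1 hj2 (by omega)
        exact key x t ht2 ht1 fun v hv1 hv2 hv3 hv4 => ht3 v hv1 hv2 (by omega)
    · by_cases hm : rr a b i = a + b - 1
      · obtain ⟨t, ht1, ht2, ht3⟩ := clW_core (y := y) (i := i) (k := y) h
          (by omega) (by omega)
        exact key x t ht2 ht1 fun v hv1 hv2 hv3 hv4 => ht3 v hv1 hv2 (by omega)
      · obtain ⟨j, hj1, hj2, hj3, hj4⟩ := clA_down (s := rr a b i + 1) h hp (by omega) (by omega)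
        obtain ⟨t, ht1, ht2, ht3⟩ := clW_block (y := y) (i := i) (z := y - 1) (j := j) h hp
          (by omega) (by omega) hj1 hj2 (by omega)
        exact key x t ht2 ht1 fun v hv1 hv2 hv3 hv4 => ht3 v hv1 hv2 (by omega)
  · -- without `y + 1 + r i`
    by_cases hi : i = a + b - 2
    · have h5 : rr a b (i + 1) = b := by
        rw [hi, show a + b - 2 + 1 = a + b - 1 by ring]
        exact hp.last
      obtain ⟨j, hj1, hj2, hj3, hj4⟩ := clA_down (s := 1 + b) h hp (by omega) (by omega)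
      obtain ⟨t, ht1, ht2, ht3⟩ := clW_block (y := y) (i := i) (z := y - 1) (j := j) h hp
        (by omega) (by omega) hj1 hj2 (by omega)
      exact key x t ht2 ht1 fun v hv1 hv2 hv3 hv4 => ht3 v hv1 hv2 (by omega)
    · refine key x (2, y, i + 1) (by simp) (mem_Idx.mpr (by omega)) fun v hv1 hv2 hv3 hv4 => ?_
      have e : ff a b (2, y, i + 1) = fC a b y (i + 1) := by simp [ff]
      rw [e, mem_fC2 h hp h1 h2 (by omega) (by omega)]
      omega
  · -- without `y + 1 + r (i + 1)`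
    by_cases hi : i = 1
    · have h5 : rr a b i = a := by
        rw [hi]
        exact hp.one
      by_cases hb1 : b = 1
      · obtain ⟨t, ht1, ht2, ht3⟩ := clW_core (y := y) (i := i) (k := y - a) h
          (by omega) (by omega)
        exact key x t ht2 ht1 fun v hv1 hv2 hv3 hv4 => ht3 v hv1 hv2 (by omega)
      · obtain ⟨j, hj1, hj2, hj3, hj4⟩ := clA_up (s := 1) h hp (by omega) (by omega)
        obtain ⟨t, ht1, ht2, ht3⟩ := clW_block (y := y) (i := i) (z := y - 1) (j := j) h hp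
          (by omega) (by omega) hj1 hj2 (by omega)
        exact key x t ht2 ht1 fun v hv1 hv2 hv3 hv4 => ht3 v hv1 hv2 (by omega)
    · refine key x (2, y, i - 1) (by simp) (mem_Idx.mpr (by omega)) fun v hv1 hv2 hv3 hv4 => ?_
      have e : ff a b (2, y, i - 1) = fC a b y (i - 1) := by simp [ff]
      rw [e, mem_fC2 h hp h1 h2 (by omega) (by omega), show i - 1 + 1 = i by ring]
      omega

end Pool.Agent.H23.AE
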