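import Pool.Agent.H30.NZ.Basic

/-!
# MP_ae97ec_co, d = 4: definitions

`n = 3 a + 2 b`, `N = a + b`; vertex labels are the integers `0, …, n - 1`.
-/

namespace Pool.Agent.H23.AE

open Finset Pool.Agent.H30.NZ

/-- Shelling data for a closed complex with facets `f i`, `i ∈ I` (4 vertices each), in the order
given by `ρ`. -/
structure Shelling {ι α : Type} [LinearOrder α] (I : Finset ι) (f R : ι → Finset ℤ)
    (ρ : ι → α) : Prop where
  card : ∀ i ∈ I, (f i).card = 4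
  sub : ∀ i ∈ I, R i ⊆ f i
  inj : ∀ i ∈ I, ∀ j ∈ I, ρ i = ρ j → i = j
  closed : ∀ i ∈ I, ∀ x ∈ f i, ∃ j ∈ I, j ≠ i ∧ (f i).erase x ⊆ f j
  s2 : ∀ i ∈ I, ∀ j ∈ I, ρ j < ρ i → ¬ R i ⊆ f j
  s3 : ∀ i ∈ I, ∀ j ∈ I, ρ i < ρ j → ¬ (f i \ R i) ⊆ f j

/-- The number of vertices. -/
def nn (a b : ℤ) : ℤ := 3 * a + 2 * b

/-- The path `r i = i a mod (a + b)`. -/
def rr (a b i : ℤ) : ℤ := (i * a) % (a + b)

/-- The cylinder facets. -/
def fC (a b y i : ℤ) : Finset ℤ :=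
  ({y, y + 1, y + 1 + rr a b i, y + 1 + rr a b (i + 1)} : Finset ℤ).image (fun x => x % nn a b)

/-- The core facets. -/
def fQ (a b k : ℤ) : Finset ℤ :=
  ({k, k + a, k + (a + b), k + (a + b) + a} : Finset ℤ).image (fun x => x % nn a b)

/-- Indices: `(0, y, i)` (first cylinder part, `0 ≤ y < n - N`), `(1, k, 0)` (core),
`(2, y, i)` (second cylinder part, `-N ≤ y < 0`); `1 ≤ i ≤ N - 2`. -/
noncomputable def Idx (a b : ℤ) : Finset (ℤ × ℤ × ℤ) :=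
  (({0} : Finset ℤ) ×ˢ (Icc 0 (nn a b - 1 - (a + b)) ×ˢ Icc 1 (a + b - 2))) ∪
    ((({1} : Finset ℤ) ×ˢ (Icc 0 (nn a b - 1) ×ˢ ({0} : Finset ℤ))) ∪
      (({2} : Finset ℤ) ×ˢ (Icc (-(a + b)) (-1) ×ˢ Icc 1 (a + b - 2))))

/-- The facet with a given index. -/
def ff (a b : ℤ) (t : ℤ × ℤ × ℤ) : Finset ℤ :=
  if t.1 = 1 then fQ a b t.2.1 else fC a b t.2.1 t.2.2

/-- The order. -/
def rk (t : ℤ × ℤ × ℤ) : ℤ ×ₗ ℤ ×ₗ ℤ :=
  if t.1 = 0 then toLex (0, toLex (-t.2.1, t.2.2))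
  else if t.1 = 1 then toLex (1, toLex (t.2.1, 0)) else toLex (2, toLex (t.2.1, -t.2.2))

/-- The restriction sets, first cylinder part. -/
def RA (a b y i : ℤ) : Finset ℤ :=
  if y = nn a b - 1 - (a + b) then (if i = 1 then ∅ else {y + 1 + rr a b (i + 1)})
  else (if i = 1 then {y} else {y, y + 1 + rr a b (i + 1)})

/-- The restriction sets, core. -/
def RQ (a b k : ℤ) : Finset ℤ :=
  if k ≤ a + b - 1 then {k, k + (a + b) + a}
  else if k ≤ a + b + a - 1 then {k - (a + b), k + (a + b)}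
  else if k ≤ nn a b - a - 1 then {k - (a + b) - a, k + a}
  else {k + a - nn a b, k - (a + b) - a, k}

/-- The restriction sets, second cylinder part. -/
def RW (a b y i : ℤ) : Finset ℤ :=
  (if y ≤ -2 then (if i = 1 then ({y + 1, y + 1 + a, y + 1 + rr a b 2} : Finset ℤ)
      else {y + 1, y + 1 + rr a b i})
    else (if i = 1 then {-1, 0, a, rr a b 2} else {-1, 0, rr a b i})).image (fun x => x % nn a b)

/-- The restriction sets. -/
def RR (a b : ℤ) (t : ℤ × ℤ × ℤ) : Finset ℤ :=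
  if t.1 = 0 then RA a b t.2.1 t.2.2 else if t.1 = 1 then RQ a b t.2.1 else RW a b t.2.1 t.2.2

/-- The facets of the sphere. -/
noncomputable def KK (a b : ℤ) : Cx := (Idx a b).image (ff a b)

/-- The parameters. -/
structure Par (a b : ℤ) : Prop where
  ha : 2 ≤ a
  hb : 1 ≤ b
  hN : 5 ≤ a + b
  ne : a ≠ b
  cop : IsCoprime a b

/-- The properties of the path which are used. -/
structure Pth (a b : ℤ) : Prop where
  one : rr a b 1 = a
  last : rr a b (a + b - 1) = b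
  range : ∀ i, 1 ≤ i → i ≤ a + b - 1 → 1 ≤ rr a b i ∧ rr a b i ≤ a + b - 1
  inj : ∀ i j, 1 ≤ i → i ≤ a + b - 1 → 1 ≤ j → j ≤ a + b - 1 → rr a b i = rr a b j → i = j
  step : ∀ i, 1 ≤ i → i ≤ a + b - 2 →
    (rr a b i < b ∧ rr a b (i + 1) = rr a b i + a) ∨
      (b < rr a b i ∧ rr a b (i + 1) = rr a b i - b)
  surj : ∀ s, 1 ≤ s → s ≤ a + b - 1 → ∃ i, 1 ≤ i ∧ i ≤ a + b - 1 ∧ rr a b i = s

/-- The new facets in the odd case (`a = 4`): the three simplices around the edge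
`{x + 1, x + 8 + c}`. -/
def fl (c x : ℤ) : Cx :=
  {({x, x + 1, x + 4, x + 8 + c} : Finset ℤ).image (fun z => z % nn 4 c),
    ({x, x + 1, x + 4 + c, x + 8 + c} : Finset ℤ).image (fun z => z % nn 4 c),
    ({x + 1, x + 4, x + 4 + c, x + 8 + c} : Finset ℤ).image (fun z => z % nn 4 c)}

/-- The two facets removed by the flip. -/
def flo (c x : ℤ) : Cx :=
  {({x, x + 1, x + 4, x + 4 + c} : Finset ℤ).image (fun z => z % nn 4 c), fQ 4 c x}

/-- The complex after the flips with index `< m`. -/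
noncomputable def FK (c : ℤ) (m : ℕ) : Cx :=
  (KK 4 c \ (range m).biUnion (fun x => flo c (x : ℤ))) ∪ (range m).biUnion (fun x => fl c (x : ℤ))

/-- What the final assembly needs, for the facets `K` on the vertices `0, …, 2 v - 1`. -/
structure CSN (v : ℕ) (K : Cx) : Prop where
  sph : IsSph 4 K
  vert : ∀ F ∈ K, ∀ x ∈ F, 0 ≤ x ∧ x < 2 * (v : ℤ)
  rot : ∀ F ∈ K, F.image (fun x => (x + 1) % (2 * (v : ℤ))) ∈ K
  anti : ∀ F ∈ K, ∀ x ∈ F, ∀ y ∈ F, y - x ≠ (v : ℤ)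
  nbr : ∀ x y : ℤ, 0 ≤ x → x < y → y < 2 * (v : ℤ) → y - x ≠ (v : ℤ) → ∃ F ∈ K, x ∈ F ∧ y ∈ F

end Pool.Agent.H23.AE
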