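import Pool.Agent.H23.AE.Path

/-!
# MP_ae97ec_co, d = 4: facts about the complex `KK a b`
-/

namespace Pool.Agent.H23.AE

open Finset Pool.Agent.H30.NZ

theorem kf_emod (n y q c : ℤ) : (y - n * q + c) % n = (y + c) % n := by
  have h : y - n * q + c = (y + c) + n * (-q) := by ring
  rw [h, Int.add_mul_emod_self_left]

theorem kf_fC_shift (a b y q i : ℤ) : fC a b (y - nn a b * q) i = fC a b y i := by
  have e := kf_emod (nn a b) y q
  have e0 : (y - nn a b * q) % nn a b = y % nn a b := by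
    have := e 0
    rwa [add_zero, add_zero] at this
  unfold fC
  simp only [image_insert, image_singleton, add_assoc, e, e0]

theorem kf_fQ_shift (a b y q : ℤ) : fQ a b (y - nn a b * q) = fQ a b y := by
  have e := kf_emod (nn a b) y q
  have e0 : (y - nn a b * q) % nn a b = y % nn a b := by
    have := e 0
    rwa [add_zero, add_zero] at this
  unfold fQ
  simp only [image_insert, image_singleton, add_assoc, e, e0]

theorem kf_pos {a b : ℤ} (h : Par a b) : 0 < nn a b := by
  have := h.ha; have := h.hb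
  unfold nn; omega

theorem kf_fC_mem {a b : ℤ} (h : Par a b) (y i : ℤ) (h1 : 1 ≤ i) (h2 : i ≤ a + b - 2) :
    fC a b y i ∈ KK a b := by
  have hn := kf_pos h
  have ha := h.ha
  have hb := h.hb
  rw [← kf_fC_shift a b y ((y + (a + b)) / nn a b) i]
  have hd := Int.emod_add_mul_ediv (y + (a + b)) (nn a b)
  have hm1 := Int.emod_nonneg (y + (a + b)) hn.ne'
  have hm2 := Int.emod_lt_of_pos (y + (a + b)) hn
  set y' := y - nn a b * ((y + (a + b)) / nn a b) with hy'
  have l1 : -(a + b) ≤ y' := by omega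
  have l2 : y' ≤ nn a b - 1 - (a + b) := by omega
  unfold KK
  rw [mem_image]
  rcases lt_or_ge y' 0 with h3 | h3
  · refine ⟨(2, y', i), ?_, ?_⟩
    · have l3 : y' ≤ -1 := by omega
      unfold Idx
      exact mem_union_right _ (mem_union_right _ (mem_product.2 ⟨mem_singleton.2 rfl,
        mem_product.2 ⟨mem_Icc.2 ⟨l1, l3⟩, mem_Icc.2 ⟨h1, h2⟩⟩⟩))
    · unfold ff
      rw [if_neg (by simp)]
  · refine ⟨(0, y', i), ?_, ?_⟩
    · unfold Idx
      exact mem_union_left _ (mem_product.2 ⟨mem_singleton.2 rfl,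
        mem_product.2 ⟨mem_Icc.2 ⟨h3, l2⟩, mem_Icc.2 ⟨h1, h2⟩⟩⟩)
    · unfold ff
      rw [if_neg (by simp)]

theorem kf_fQ_mem {a b : ℤ} (h : Par a b) (k : ℤ) : fQ a b k ∈ KK a b := by
  have hn := kf_pos h
  rw [← kf_fQ_shift a b k (k / nn a b)]
  have hd := Int.emod_add_mul_ediv k (nn a b)
  have hm1 := Int.emod_nonneg k hn.ne'
  have hm2 := Int.emod_lt_of_pos k hn
  set k' := k - nn a b * (k / nn a b) with hk'
  unfold KK
  rw [mem_image]
  refine ⟨(1, k', 0), ?_, ?_⟩
  · have l1 : 0 ≤ k' := by omega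
    have l2 : k' ≤ nn a b - 1 := by omega
    unfold Idx
    exact mem_union_right _ (mem_union_left _ (mem_product.2 ⟨mem_singleton.2 rfl,
      mem_product.2 ⟨mem_Icc.2 ⟨l1, l2⟩, mem_singleton.2 rfl⟩⟩))
  · unfold ff
    rw [if_pos rfl]

theorem kf_cases {a b : ℤ} {F : Finset ℤ} (hF : F ∈ KK a b) :
    (∃ y i, 1 ≤ i ∧ i ≤ a + b - 2 ∧ F = fC a b y i) ∨ ∃ k, F = fQ a b k := by
  unfold KK at hF
  rw [mem_image] at hF
  obtain ⟨⟨s, y, i⟩, ht, rfl⟩ := hF
  simp only [Idx, mem_union, mem_product, mem_singleton, mem_Icc] at ht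
  rcases ht with ⟨hs, h1, h2⟩ | ⟨hs, h1, h2⟩ | ⟨hs, h1, h2⟩
  · left
    refine ⟨y, i, h2.1, h2.2, ?_⟩
    unfold ff
    rw [if_neg (by simp [hs])]
  · right
    refine ⟨y, ?_⟩
    unfold ff
    rw [if_pos hs]
  · left
    refine ⟨y, i, h2.1, h2.2, ?_⟩
    unfold ff
    rw [if_neg (by simp [hs])]

theorem KK_vert {a b : ℤ} (h : Par a b) : ∀ F ∈ KK a b, ∀ x ∈ F, 0 ≤ x ∧ x < 3 * a + 2 * b := by
  have hn := kf_pos h
  intro F hF x hx
  have key : ∀ z : ℤ, 0 ≤ z % nn a b ∧ z % nn a b < 3 * a + 2 * b := fun z =>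
    ⟨Int.emod_nonneg z hn.ne', Int.emod_lt_of_pos z hn⟩
  rcases kf_cases hF with ⟨y, i, h1, h2, rfl⟩ | ⟨k, rfl⟩
  · unfold fC at hx
    obtain ⟨z, _, rfl⟩ := mem_image.1 hx
    exact key z
  · unfold fQ at hx
    obtain ⟨z, _, rfl⟩ := mem_image.1 hx
    exact key z

theorem KK_rot {a b : ℤ} (h : Par a b) :
    ∀ F ∈ KK a b, F.image (fun x => (x + 1) % (3 * a + 2 * b)) ∈ KK a b := by
  intro F hF
  have e : ∀ z : ℤ, (z % nn a b + 1) % (3 * a + 2 * b) = (z + 1) % nn a b := by
    intro z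
    have h1 : (3 * a + 2 * b) = nn a b := rfl
    rw [h1, Int.emod_add_emod]
  rcases kf_cases hF with ⟨y, i, h1, h2, rfl⟩ | ⟨k, rfl⟩
  · have h3 := kf_fC_mem h (y + 1) i h1 h2
    have h4 : (fC a b y i).image (fun x => (x + 1) % (3 * a + 2 * b)) = fC a b (y + 1) i := by
      unfold fC
      rw [image_image]
      simp only [image_insert, image_singleton, Function.comp_apply, e]
      have e1 : y + 1 + rr a b i + 1 = y + 1 + 1 + rr a b i := by ring
      have e2 : y + 1 + rr a b (i + 1) + 1 = y + 1 + 1 + rr a b (i + 1) := by ring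
      rw [e1, e2]
    rw [h4]; exact h3
  · have h3 := kf_fQ_mem h (k + 1)
    have h4 : (fQ a b k).image (fun x => (x + 1) % (3 * a + 2 * b)) = fQ a b (k + 1) := by
      unfold fQ
      rw [image_image]
      simp only [image_insert, image_singleton, Function.comp_apply, e]
      have e1 : k + a + 1 = k + 1 + a := by ring
      have e2 : k + (a + b) + 1 = k + 1 + (a + b) := by ring
      have e3 : k + (a + b) + a + 1 = k + 1 + (a + b) + a := by ring
      rw [e1, e2, e3]
    rw [h4]; exact h3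

/-- the possible differences -/
theorem kf_diff {n p q d : ℤ} (hd : q - p = d) :
    ∃ m : ℤ, q % n - p % n = d + n * m := by
  refine ⟨p / n - q / n, ?_⟩
  have h1 := Int.emod_add_mul_ediv p n
  have h2 := Int.emod_add_mul_ediv q n
  rw [mul_sub]
  linarith

theorem kf_span {n N p q : ℤ} (hn : 0 < n) (hN0 : 0 ≤ N) (hN : N < n)
    (hd : -N ≤ q - p ∧ q - p ≤ N) (h : p % n < q % n) :
    q % n - p % n ≤ N ∨ n - N ≤ q % n - p % n := by
  obtain ⟨m, hm⟩ := kf_diff (n := n) (p := p) rfl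
  have h1 := Int.emod_nonneg p hn.ne'
  have h2 := Int.emod_lt_of_pos q hn
  have h3 : -1 ≤ m ∧ m ≤ 1 := by
    constructor
    · by_contra hc
      have : m ≤ -2 := by omega
      nlinarith
    · by_contra hc
      have : 2 ≤ m := by omega
      nlinarith
  have h4 : m = -1 ∨ m = 0 ∨ m = 1 := by omega
  rcases h4 with rfl | rfl | rfl
  · exfalso; omega
  · left; omega
  · right; omega

theorem KK_anti {a b : ℤ} (h : Par a b) : ∀ F ∈ KK a b, ∀ x ∈ F, ∀ y ∈ F, x < y →
    y - x ≤ a + b ∨ 3 * a + 2 * b - (a + b) ≤ y - x := by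
  intro F hF u hu v hv huv
  have hn := kf_pos h
  have ha := h.ha
  have hb := h.hb
  have hnn : nn a b = 3 * a + 2 * b := rfl
  have hp := pth_of_par h
  rcases kf_cases hF with ⟨y, i, h1, h2, rfl⟩ | ⟨k, rfl⟩
  · have r1 := hp.range i h1 (by omega)
    have r2 := hp.range (i + 1) (by omega) (by omega)
    unfold fC at hu hv
    obtain ⟨p, hp1, rfl⟩ := mem_image.1 hu
    obtain ⟨q, hq1, rfl⟩ := mem_image.1 hv
    simp only [mem_insert, mem_singleton] at hp1 hq1
    have h3 : -(a + b) ≤ q - p ∧ q - p ≤ a + b := by omega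
    have h4 := kf_span hn (by omega) (by omega) h3 huv
    rw [hnn] at h4 ⊢
    exact h4
  · unfold fQ at hu hv
    obtain ⟨p, hp1, rfl⟩ := mem_image.1 hu
    obtain ⟨q, hq1, rfl⟩ := mem_image.1 hv
    simp only [mem_insert, mem_singleton] at hp1 hq1
    by_cases h3 : -(a + b) ≤ q - p ∧ q - p ≤ a + b
    · have h4 := kf_span hn (by omega) (by omega) h3 huv
      rw [hnn] at h4 ⊢
      exact h4
    · -- the difference is `± (N + a)`
      obtain ⟨m, hm⟩ := kf_diff (n := nn a b) (p := p) rfl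
      have g1 := Int.emod_nonneg p hn.ne'
      have g2 := Int.emod_lt_of_pos q hn
      have h4 : q - p = a + b + a ∨ q - p = -(a + b + a) := by omega
      have h5 : -1 ≤ m ∧ m ≤ 1 := by
        constructor
        · by_contra hc
          have : m ≤ -2 := by omega
          rcases h4 with h4 | h4 <;> nlinarith
        · by_contra hc
          have : 2 ≤ m := by omega
          rcases h4 with h4 | h4 <;> nlinarith
      have h6 : m = -1 ∨ m = 0 ∨ m = 1 := by omega
      rcases h6 with rfl | rfl | rfl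
      · omega
      · omega
      · omega

theorem kf_edge {a b : ℤ} (h : Par a b) (p s : ℤ) (h1 : 1 ≤ s) (h2 : s ≤ a + b) :
    ∃ F ∈ KK a b, p % nn a b ∈ F ∧ (p + s) % nn a b ∈ F := by
  have hp := pth_of_par h
  have hN := h.hN
  rcases eq_or_ne s 1 with rfl | hs
  · refine ⟨fC a b p 1, kf_fC_mem h p 1 le_rfl (by omega), ?_, ?_⟩
    · exact mem_image_of_mem _ (by simp)
    · exact mem_image_of_mem _ (by simp)
  · obtain ⟨j, j1, j2, j3⟩ := hp.surj (s - 1) (by omega) (by omega)
    rcases le_or_gt j (a + b - 2) with hj | hj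
    · refine ⟨fC a b p j, kf_fC_mem h p j j1 hj, mem_image_of_mem _ (by simp), ?_⟩
      refine mem_image_of_mem _ ?_
      rw [j3]
      simp only [mem_insert, mem_singleton]
      right; right; left; ring
    · have hj' : j = (a + b - 2) + 1 := by omega
      refine ⟨fC a b p (a + b - 2), kf_fC_mem h p _ (by omega) le_rfl,
        mem_image_of_mem _ (by simp), ?_⟩
      refine mem_image_of_mem _ ?_
      rw [← hj', j3]
      simp only [mem_insert, mem_singleton]
      right; right; right; ring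

theorem KK_nbr {a b : ℤ} (h : Par a b) : ∀ x y : ℤ, 0 ≤ x → x < y → y < 3 * a + 2 * b →
    (y - x ≤ a + b ∨ 3 * a + 2 * b - (a + b) ≤ y - x) → ∃ F ∈ KK a b, x ∈ F ∧ y ∈ F := by
  intro x y hx hxy hy hd
  have hn := kf_pos h
  have hnn : nn a b = 3 * a + 2 * b := rfl
  rcases hd with hd | hd
  · obtain ⟨F, hF, h1, h2⟩ := kf_edge h x (y - x) (by omega) hd
    rw [Int.emod_eq_of_lt hx (by omega)] at h1
    have e : x + (y - x) = y := by ring
    rw [e, Int.emod_eq_of_lt (by omega) (by omega)] at h2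
    exact ⟨F, hF, h1, h2⟩
  · obtain ⟨F, hF, h1, h2⟩ := kf_edge h y (nn a b - (y - x)) (by omega) (by omega)
    rw [Int.emod_eq_of_lt (by omega) (by omega)] at h1
    have e : y + (nn a b - (y - x)) = x + nn a b := by ring
    rw [e, Int.add_emod_right, Int.emod_eq_of_lt hx (by omega)] at h2
    exact ⟨F, hF, h2, h1⟩

end Pool.Agent.H23.AE
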