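import Pool.Agent.H23.AE.KSph
import Pool.Agent.H23.AE.KFacts

/-!
# MP_ae97ec_co, d = 4: all even `v ≥ 6`
-/

namespace Pool.Agent.H23.AE

open Finset Pool.Agent.H30.NZ

theorem csn_even {v : ℕ} (hv : 6 ≤ v) (he : Even v) : ∃ K, CSN v K := by
  have hpar : Par 2 ((v : ℤ) - 3) := by
    refine ⟨le_refl _, by omega, by omega, by omega, ?_⟩
    obtain ⟨k, hk⟩ := he
    refine ⟨2 - (k : ℤ), 1, ?_⟩
    rw [hk]
    push_cast
    ring
  have en : 3 * (2 : ℤ) + 2 * ((v : ℤ) - 3) = 2 * (v : ℤ) := by ring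
  refine ⟨KK 2 ((v : ℤ) - 3), isSph_KK hpar, ?_, ?_, ?_, ?_⟩
  · have := KK_vert hpar
    rwa [en] at this
  · have := KK_rot hpar
    rwa [en] at this
  · intro F hF x hx y hy e
    have := KK_anti hpar F hF x hx y hy (by omega)
    omega
  · intro x y hx hxy hy hne
    exact KK_nbr hpar x y hx hxy (by omega) (by omega)

end Pool.Agent.H23.AE
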