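import Pool.Agent.H23.AE.KSph
import Pool.Agent.H23.AE.KFacts
import Pool.Agent.H23.AE.Bist

/-!
# MP_ae97ec_co, d = 4: the flips in the odd case (`a = 4`)
-/

namespace Pool.Agent.H23.AE

open Finset Pool.Agent.H30.NZ

namespace Flp

theorem par {c : ℤ} (hc : 1 ≤ c) (ho : Odd c) : Par 4 c := by
  refine ⟨by norm_num, hc, by omega, ?_, ?_⟩
  · rintro rfl
    obtain ⟨k, hk⟩ := ho
    omega
  · obtain ⟨k, hk⟩ := ho
    rcases Int.even_or_odd k with ⟨j, hj⟩ | ⟨j, hj⟩
    · exact ⟨-j, 1, by rw [hk, hj]; ring⟩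
    · exact ⟨j + 1, -1, by rw [hk, hj]; ring⟩

theorem ne4 {c : ℤ} (ho : Odd c) : c ≠ 4 := by
  rintro rfl
  obtain ⟨k, hk⟩ := ho
  omega

theorem nn4 (c : ℤ) : nn 4 c = 12 + 2 * c := by
  unfold nn; ring

theorem eq_iff' {n x x' δ k u v : ℤ} (hn : 0 < n) (hx : x = x' + δ + n * k) (h0 : 0 ≤ δ)
    (h1 : δ < n) (hu : 0 ≤ u) (hu' : u < n) (hv : 0 ≤ v) (hv' : v < n) :
    (x + u) % n = (x' + v) % n ↔ δ + u = v ∨ δ + u = v + n := by
  have e : (x + u) % n = (x' + v) % n ↔ n ∣ (δ + u - v) := by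
    rw [Int.emod_eq_emod_iff_emod_sub_eq_zero, hx]
    have : x' + δ + n * k + u - (x' + v) = (δ + u - v) + n * k := by ring
    rw [this, Int.add_mul_emod_self_left]
    exact ⟨Int.dvd_of_emod_eq_zero, Int.emod_eq_zero_of_dvd⟩
  rw [e]
  constructor
  · rintro ⟨t, ht⟩
    have t1 : t < 2 := by
      by_contra h
      push Not at h
      nlinarith
    have t0 : -1 < t := by
      by_contra h
      push Not at h
      nlinarith
    have : t = 0 ∨ t = 1 := by omega
    rcases this with rfl | rfl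
    · left; linarith
    · right; linarith
  · rintro (h | h)
    · exact ⟨0, by linarith⟩
    · exact ⟨1, by linarith⟩

theorem mem4 {n x x' δ k u v1 v2 v3 v4 : ℤ} (hn : 0 < n) (hx : x = x' + δ + n * k) (h0 : 0 ≤ δ)
    (h1 : δ < n) (hu : 0 ≤ u) (hu' : u < n) (h11 : 0 ≤ v1) (h12 : v1 < n) (h21 : 0 ≤ v2)
    (h22 : v2 < n) (h31 : 0 ≤ v3) (h32 : v3 < n) (h41 : 0 ≤ v4) (h42 : v4 < n) :
    (x + u) % n ∈ ({x' + v1, x' + v2, x' + v3, x' + v4} : Finset ℤ).image (fun z => z % n) ↔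
      (δ + u = v1 ∨ δ + u = v1 + n) ∨ (δ + u = v2 ∨ δ + u = v2 + n) ∨
        (δ + u = v3 ∨ δ + u = v3 + n) ∨ (δ + u = v4 ∨ δ + u = v4 + n) := by
  rw [← eq_iff' hn hx h0 h1 hu hu' h11 h12, ← eq_iff' hn hx h0 h1 hu hu' h21 h22,
    ← eq_iff' hn hx h0 h1 hu hu' h31 h32, ← eq_iff' hn hx h0 h1 hu hu' h41 h42]
  simp only [mem_image, mem_insert, mem_singleton, exists_eq_or_imp, exists_eq_left]
  tauto

/-- the triangle -/
def tri (c x : ℤ) : Finset ℤ := ({x, x + 4, x + 4 + c} : Finset ℤ).image (fun z => z % nn 4 c)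

theorem tri_sub {c x : ℤ} {F : Finset ℤ} : tri c x ⊆ F ↔
    (x + 0) % nn 4 c ∈ F ∧ (x + 4) % nn 4 c ∈ F ∧ (x + (4 + c)) % nn 4 c ∈ F := by
  unfold tri
  rw [image_subset_iff]
  simp only [mem_insert, mem_singleton, forall_eq_or_imp, forall_eq, add_zero, add_assoc]

theorem exd (n x x' : ℤ) (hn : 0 < n) : ∃ δ k : ℤ, x = x' + δ + n * k ∧ 0 ≤ δ ∧ δ < n :=
  ⟨(x - x') % n, (x - x') / n, by have := Int.emod_add_mul_ediv (x - x') n; omega,
    Int.emod_nonneg _ hn.ne', Int.emod_lt_of_pos _ hn⟩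

theorem fQ_eq (c k : ℤ) : fQ 4 c k =
    ({k + 0, k + 4, k + (4 + c), k + (8 + c)} : Finset ℤ).image (fun z => z % nn 4 c) := by
  unfold fQ
  have : k + (4 + c) + 4 = k + (8 + c) := by ring
  rw [this, add_zero]

theorem fC_eq (c y i : ℤ) : fC 4 c y i =
    ({y + 0, y + 1, y + (1 + rr 4 c i), y + (1 + rr 4 c (i + 1))} : Finset ℤ).image
      (fun z => z % nn 4 c) := by
  unfold fC
  rw [add_zero, add_assoc, add_assoc]

theorem eq_of_shift {n x x' k : ℤ} (hx : x = x' + 0 + n * k) (h1 : 0 ≤ x) (h2 : x < n)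
    (h3 : 0 ≤ x') (h4 : x' < n) : x = x' := by
  have hk : k = 0 := by
    by_contra h
    rcases lt_or_gt_of_ne h with h | h
    · have : n * k ≤ n * (-1) := by
        apply mul_le_mul_of_nonneg_left (by omega) (by omega)
      omega
    · have : n * 1 ≤ n * k := by
        apply mul_le_mul_of_nonneg_left (by omega) (by omega)
      omega
  rw [hk] at hx
  omega

theorem tri_Q {c x k : ℤ} (hc : 1 ≤ c) (ho : Odd c) (h1 : 0 ≤ x) (h2 : x < nn 4 c)
    (h3 : 0 ≤ k) (h4 : k < nn 4 c) (h : tri c x ⊆ fQ 4 c k) : x = k := by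
  have hne := ne4 ho
  have hn : 0 < nn 4 c := by rw [nn4]; omega
  obtain ⟨δ, j, hx, hδ, hδ'⟩ := exd (nn 4 c) x k hn
  rw [tri_sub, fQ_eq, mem4 hn hx hδ hδ' (by omega) (by rw [nn4]; omega) (by omega)
    (by rw [nn4]; omega) (by omega) (by rw [nn4]; omega) (by omega) (by rw [nn4]; omega)
    (by omega) (by rw [nn4]; omega), mem4 hn hx hδ hδ' (by omega) (by rw [nn4]; omega) (by omega)
    (by rw [nn4]; omega) (by omega) (by rw [nn4]; omega) (by omega) (by rw [nn4]; omega)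
    (by omega) (by rw [nn4]; omega), mem4 hn hx hδ hδ' (by omega) (by rw [nn4]; omega) (by omega)
    (by rw [nn4]; omega) (by omega) (by rw [nn4]; omega) (by omega) (by rw [nn4]; omega)
    (by omega) (by rw [nn4]; omega)] at h
  have hδ0 : δ = 0 := by
    rw [nn4] at h hδ'
    omega
  rw [hδ0] at hx
  exact eq_of_shift hx h1 h2 h3 h4

theorem tri_C {c x y i : ℤ} (hc : 1 ≤ c) (ho : Odd c) (h1 : 0 ≤ x) (h2 : x < nn 4 c)
    (h3 : 0 ≤ y) (h4 : y < nn 4 c) (h5 : 1 ≤ i) (h6 : i ≤ 4 + c - 2)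
    (h : tri c x ⊆ fC 4 c y i) : x = y ∧ rr 4 c i = 3 + c ∧ rr 4 c (i + 1) = 3 := by
  have hne := ne4 ho
  have hp := pth_of_par (par hc ho)
  have r1 := hp.range i h5 (by omega)
  have r2 := hp.range (i + 1) (by omega) (by omega)
  have r3 := hp.step i h5 h6
  have hn : 0 < nn 4 c := by rw [nn4]; omega
  obtain ⟨δ, j, hx, hδ, hδ'⟩ := exd (nn 4 c) x y hn
  rw [tri_sub, fC_eq, mem4 hn hx hδ hδ' (by omega) (by rw [nn4]; omega) (by omega)
    (by rw [nn4]; omega) (by omega) (by rw [nn4]; omega) (by omega) (by rw [nn4]; omega)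
    (by omega) (by rw [nn4]; omega), mem4 hn hx hδ hδ' (by omega) (by rw [nn4]; omega) (by omega)
    (by rw [nn4]; omega) (by omega) (by rw [nn4]; omega) (by omega) (by rw [nn4]; omega)
    (by omega) (by rw [nn4]; omega), mem4 hn hx hδ hδ' (by omega) (by rw [nn4]; omega) (by omega)
    (by rw [nn4]; omega) (by omega) (by rw [nn4]; omega) (by omega) (by rw [nn4]; omega)
    (by omega) (by rw [nn4]; omega)] at h
  rw [nn4] at h hδ'
  generalize rr 4 c i = r at *
  generalize rr 4 c (i + 1) = r' at *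
  have hδ0 : δ = 0 ∧ r = 3 + c ∧ r' = 3 := by
    obtain ⟨m1, m2, m3⟩ := h
    rcases r3 with ⟨s1, s2⟩ | ⟨s1, s2⟩
    · subst s2
      omega
    · subst s2
      omega
  obtain ⟨e1, e2, e3⟩ := hδ0
  rw [e1] at hx
  exact ⟨eq_of_shift hx h1 h2 h3 h4, e2, e3⟩

/-- the special index -/
theorem ex_idx {c : ℤ} (hc : 1 ≤ c) (ho : Odd c) : ∃ i : ℤ, 1 ≤ i ∧ i ≤ 4 + c - 2 ∧
    rr 4 c i = 3 + c ∧ rr 4 c (i + 1) = 3 := by
  have hp := pth_of_par (par hc ho)
  obtain ⟨i, h1, h2, h3⟩ := hp.surj (3 + c) (by omega) (by omega)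
  have h4 : i ≠ 4 + c - 1 := by
    rintro rfl
    rw [hp.last] at h3
    omega
  refine ⟨i, h1, by omega, h3, ?_⟩
  have := hp.step i h1 (by omega)
  omega

/-- the first facet of `flo` -/
theorem flo1 {c i : ℤ} (x : ℤ) (h1 : rr 4 c i = 3 + c) (h2 : rr 4 c (i + 1) = 3) :
    ({x, x + 1, x + 4, x + 4 + c} : Finset ℤ).image (fun z => z % nn 4 c) = fC 4 c x i := by
  unfold fC
  rw [h1, h2]
  congr 1
  have e1 : x + 1 + (3 + c) = x + 4 + c := by ring
  have e2 : x + 1 + 3 = x + 4 := by ring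
  rw [e1, e2]
  ext a
  simp only [mem_insert, mem_singleton]
  tauto

theorem cases' {c : ℤ} (hc : 1 ≤ c) {F : Finset ℤ} (hF : F ∈ KK 4 c) :
    (∃ y i, 0 ≤ y ∧ y < nn 4 c ∧ 1 ≤ i ∧ i ≤ 4 + c - 2 ∧ F = fC 4 c y i) ∨
      ∃ k, 0 ≤ k ∧ k < nn 4 c ∧ F = fQ 4 c k := by
  have hn : 0 < nn 4 c := by rw [nn4]; omega
  rcases kf_cases hF with ⟨y, i, h1, h2, rfl⟩ | ⟨k, rfl⟩
  · left
    refine ⟨y - nn 4 c * (y / nn 4 c), i, ?_, ?_, h1, h2, (kf_fC_shift 4 c y _ i).symm⟩
    · have := Int.emod_add_mul_ediv y (nn 4 c)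
      have := Int.emod_nonneg y hn.ne'
      omega
    · have := Int.emod_add_mul_ediv y (nn 4 c)
      have := Int.emod_lt_of_pos y hn
      omega
  · right
    refine ⟨k - nn 4 c * (k / nn 4 c), ?_, ?_, (kf_fQ_shift 4 c k _).symm⟩
    · have := Int.emod_add_mul_ediv k (nn 4 c)
      have := Int.emod_nonneg k hn.ne'
      omega
    · have := Int.emod_add_mul_ediv k (nn 4 c)
      have := Int.emod_lt_of_pos k hn
      omega

/-- a facet of `KK` which contains the triangle `x` is in `flo c x` -/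
theorem tri_mem {c x : ℤ} (hc : 1 ≤ c) (ho : Odd c) (h1 : 0 ≤ x) (h2 : x < nn 4 c)
    {F : Finset ℤ} (hF : F ∈ KK 4 c) (h : tri c x ⊆ F) : F ∈ flo c x := by
  unfold flo
  rw [mem_insert, mem_singleton]
  rcases cases' hc hF with ⟨y, i, h3, h4, h5, h6, rfl⟩ | ⟨k, h3, h4, rfl⟩
  · left
    obtain ⟨e1, e2, e3⟩ := tri_C hc ho h1 h2 h3 h4 h5 h6 h
    rw [e1]
    exact (flo1 y e2 e3).symm
  · right
    rw [tri_Q hc ho h1 h2 h3 h4 h]

theorem flo_sub {c : ℤ} (hc : 1 ≤ c) (ho : Odd c) (x : ℤ) : flo c x ⊆ KK 4 c := by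
  obtain ⟨i, h1, h2, h3, h4⟩ := ex_idx hc ho
  intro F hF
  unfold flo at hF
  rw [mem_insert, mem_singleton] at hF
  rcases hF with rfl | rfl
  · rw [flo1 x h3 h4]
    exact kf_fC_mem (par hc ho) x i h1 h2
  · exact kf_fQ_mem (par hc ho) x

theorem tri_flo {c x : ℤ} {F : Finset ℤ} (hF : F ∈ flo c x) : tri c x ⊆ F := by
  unfold flo at hF
  rw [mem_insert, mem_singleton] at hF
  rcases hF with rfl | rfl
  · unfold tri
    apply image_subset_image
    intro a
    simp only [mem_insert, mem_singleton]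
    tauto
  · unfold tri fQ
    apply image_subset_image
    intro a
    simp only [mem_insert, mem_singleton, add_assoc]
    tauto

theorem flo_disj {c x x' : ℤ} (hc : 1 ≤ c) (ho : Odd c) (h1 : 0 ≤ x) (h2 : x < nn 4 c)
    (h3 : 0 ≤ x') (h4 : x' < nn 4 c) {F : Finset ℤ} (hF : F ∈ flo c x) (hF' : F ∈ flo c x') :
    x = x' := by
  have ht := tri_flo hF
  obtain ⟨i, i1, i2, i3, i4⟩ := ex_idx hc ho
  unfold flo at hF'
  rw [mem_insert, mem_singleton] at hF'
  rcases hF' with rfl | rfl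
  · rw [flo1 x' i3 i4] at ht
    exact (tri_C hc ho h1 h2 h3 h4 i1 i2 ht).1
  · exact tri_Q hc ho h1 h2 h3 h4 ht

/-- the new edge -/
def edg (c x : ℤ) : Finset ℤ := ({x + 1, x + 8 + c} : Finset ℤ).image (fun z => z % nn 4 c)

theorem edg_sub {c x : ℤ} {F : Finset ℤ} : edg c x ⊆ F ↔
    (x + 1) % nn 4 c ∈ F ∧ (x + (8 + c)) % nn 4 c ∈ F := by
  unfold edg
  rw [image_subset_iff]
  simp only [mem_insert, mem_singleton, forall_eq_or_imp, forall_eq, add_assoc]

theorem fl_cases {c x : ℤ} {F : Finset ℤ} (hF : F ∈ fl c x) :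
    F = ({x + 0, x + 1, x + 4, x + (8 + c)} : Finset ℤ).image (fun z => z % nn 4 c) ∨
    F = ({x + 0, x + 1, x + (4 + c), x + (8 + c)} : Finset ℤ).image (fun z => z % nn 4 c) ∨
    F = ({x + 1, x + 4, x + (4 + c), x + (8 + c)} : Finset ℤ).image (fun z => z % nn 4 c) := by
  unfold fl at hF
  simp only [mem_insert, mem_singleton] at hF
  simpa only [add_zero, add_assoc] using hF

theorem tri_fl {c x x' : ℤ} (hc : 1 ≤ c) (ho : Odd c) {F : Finset ℤ} (hF : F ∈ fl c x') :
    ¬ tri c x ⊆ F := by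
  intro h
  have hne := ne4 ho
  have hn : 0 < nn 4 c := by rw [nn4]; omega
  obtain ⟨δ, j, hx, hδ, hδ'⟩ := exd (nn 4 c) x x' hn
  rw [tri_sub] at h
  rcases fl_cases hF with rfl | rfl | rfl <;>
  · rw [mem4 hn hx hδ hδ' (by omega) (by rw [nn4]; omega) (by omega)
      (by rw [nn4]; omega) (by omega) (by rw [nn4]; omega) (by omega) (by rw [nn4]; omega)
      (by omega) (by rw [nn4]; omega), mem4 hn hx hδ hδ' (by omega) (by rw [nn4]; omega)
      (by omega) (by rw [nn4]; omega) (by omega) (by rw [nn4]; omega) (by omega)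
      (by rw [nn4]; omega) (by omega) (by rw [nn4]; omega), mem4 hn hx hδ hδ' (by omega)
      (by rw [nn4]; omega) (by omega) (by rw [nn4]; omega) (by omega) (by rw [nn4]; omega)
      (by omega) (by rw [nn4]; omega) (by omega) (by rw [nn4]; omega)] at h
    rw [nn4] at h hδ'
    omega

theorem edg_fl {c x x' : ℤ} (hc : 1 ≤ c) (h1 : 0 ≤ x) (h2 : x < nn 4 c)
    (h3 : 0 ≤ x') (h4 : x' < nn 4 c) {F : Finset ℤ} (hF : F ∈ fl c x') (h : edg c x ⊆ F) :
    x = x' := by
  have hn : 0 < nn 4 c := by rw [nn4]; omega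
  obtain ⟨δ, j, hx, hδ, hδ'⟩ := exd (nn 4 c) x x' hn
  rw [edg_sub] at h
  have hδ0 : δ = 0 := by
    rcases fl_cases hF with rfl | rfl | rfl <;>
    · rw [mem4 hn hx hδ hδ' (by omega) (by rw [nn4]; omega) (by omega)
        (by rw [nn4]; omega) (by omega) (by rw [nn4]; omega) (by omega) (by rw [nn4]; omega)
        (by omega) (by rw [nn4]; omega), mem4 hn hx hδ hδ' (by omega)
        (by rw [nn4]; omega) (by omega) (by rw [nn4]; omega) (by omega) (by rw [nn4]; omega)
        (by omega) (by rw [nn4]; omega) (by omega) (by rw [nn4]; omega)] at h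
      rw [nn4] at h hδ'
      omega
  rw [hδ0] at hx
  exact eq_of_shift hx h1 h2 h3 h4

theorem fl_edg {c x : ℤ} {F : Finset ℤ} (hF : F ∈ fl c x) : edg c x ⊆ F := by
  unfold fl at hF
  simp only [mem_insert, mem_singleton] at hF
  rcases hF with rfl | rfl | rfl <;>
  · unfold edg
    apply image_subset_image
    intro a
    simp only [mem_insert, mem_singleton]
    tauto

theorem edg_KK {c x : ℤ} (hc : 1 ≤ c) (ho : Odd c) {F : Finset ℤ}
    (hF : F ∈ KK 4 c) : ¬ edg c x ⊆ F := by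
  intro h
  rw [edg_sub] at h
  have hn : 0 < nn 4 c := by rw [nn4]; omega
  have ha := KK_anti (par hc ho) F hF
  have hu := Int.emod_add_mul_ediv (x + 1) (nn 4 c)
  have hv := Int.emod_add_mul_ediv (x + (8 + c)) (nn 4 c)
  have u0 := Int.emod_nonneg (x + 1) hn.ne'
  have u1 := Int.emod_lt_of_pos (x + 1) hn
  have v0 := Int.emod_nonneg (x + (8 + c)) hn.ne'
  have v1 := Int.emod_lt_of_pos (x + (8 + c)) hn
  have key : (x + (8 + c)) % nn 4 c - (x + 1) % nn 4 c = 7 + c ∨
      (x + 1) % nn 4 c - (x + (8 + c)) % nn 4 c = 5 + c := by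
    obtain ⟨δ, j, hx, hδ, hδ'⟩ := exd (nn 4 c) (x + 1) 0 hn
    rw [zero_add] at hx
    have e1 : (x + 1) % nn 4 c = δ := by
      rw [hx, Int.add_mul_emod_self_left, Int.emod_eq_of_lt hδ hδ']
    have e2 : (x + (8 + c)) % nn 4 c = (δ + (7 + c)) % nn 4 c := by
      have : x + (8 + c) = (δ + (7 + c)) + nn 4 c * j := by linarith
      rw [this, Int.add_mul_emod_self_left]
    rcases lt_or_ge (δ + (7 + c)) (nn 4 c) with h5 | h5
    · left
      rw [e1, e2, Int.emod_eq_of_lt (by omega) h5]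
      ring
    · right
      have e3 : (δ + (7 + c)) % nn 4 c = δ + (7 + c) - nn 4 c := by
        have h6 : (δ + (7 + c) - nn 4 c) % nn 4 c = δ + (7 + c) - nn 4 c := by
          apply Int.emod_eq_of_lt (by omega)
          rw [nn4] at *
          omega
        rw [Int.sub_emod_right] at h6
        exact h6
      rw [e1, e2, e3, nn4]
      ring
  rcases key with k | k
  · have := ha _ h.1 _ h.2 (by omega)
    omega
  · have := ha _ h.2 _ h.1 (by omega)
    omega

/-- abstract bistellar flip -/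
theorem part_abs {g0 g1 g2 g3 g4 : ℤ} (h01 : g0 ≠ g1) (h02 : g0 ≠ g2) (h03 : g0 ≠ g3)
    (h04 : g0 ≠ g4) (h12 : g1 ≠ g2) (h13 : g1 ≠ g3) (h14 : g1 ≠ g4) (h23 : g2 ≠ g3)
    (h24 : g2 ≠ g4) (h34 : g3 ≠ g4) :
    part {g0, g1, g2, g3, g4} {g1, g4} = {{g0, g1, g2, g3}, {g0, g2, g3, g4}} ∧
    ({g0, g1, g2, g3, g4} : Finset ℤ) \ {g1, g4} = {g0, g2, g3} ∧
    part {g0, g1, g2, g3, g4} {g0, g2, g3} =
      {{g0, g1, g2, g4}, {g0, g1, g3, g4}, {g1, g2, g3, g4}} := by
  have e0 : ({g0, g1, g2, g3, g4} : Finset ℤ).erase g0 = {g1, g2, g3, g4} := by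
    ext a; simp only [mem_erase, mem_insert, mem_singleton]; omega
  have e1 : ({g0, g1, g2, g3, g4} : Finset ℤ).erase g1 = {g0, g2, g3, g4} := by
    ext a; simp only [mem_erase, mem_insert, mem_singleton]; omega
  have e2 : ({g0, g1, g2, g3, g4} : Finset ℤ).erase g2 = {g0, g1, g3, g4} := by
    ext a; simp only [mem_erase, mem_insert, mem_singleton]; omega
  have e3 : ({g0, g1, g2, g3, g4} : Finset ℤ).erase g3 = {g0, g1, g2, g4} := by
    ext a; simp only [mem_erase, mem_insert, mem_singleton]; omega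
  have e4 : ({g0, g1, g2, g3, g4} : Finset ℤ).erase g4 = {g0, g1, g2, g3} := by
    ext a; simp only [mem_erase, mem_insert, mem_singleton]; omega
  refine ⟨?_, ?_, ?_⟩
  · unfold part
    rw [image_insert, image_singleton, e1, e4, pair_comm]
  · ext a; simp only [mem_sdiff, mem_insert, mem_singleton]; omega
  · unfold part
    rw [image_insert, image_insert, image_singleton, e0, e2, e3]
    ext F
    simp only [mem_insert, mem_singleton]
    tauto

/-- the simplex of the flip -/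
def GGx (c x : ℤ) : Finset ℤ :=
  ({x, x + 1, x + 4, x + 4 + c, x + 8 + c} : Finset ℤ).image (fun z => z % nn 4 c)

theorem parts {c : ℤ} (hc : 1 ≤ c) (x : ℤ) :
    part (GGx c x) (edg c x) = flo c x ∧ GGx c x \ edg c x = tri c x ∧
      part (GGx c x) (tri c x) = fl c x := by
  have hn : 0 < nn 4 c := by rw [nn4]; omega
  have ne : ∀ u v : ℤ, 0 ≤ u → u < v → v < nn 4 c → (x + u) % nn 4 c ≠ (x + v) % nn 4 c := by
    intro u v hu huv hv
    rw [Ne, eq_iff' (δ := 0) (k := 0) hn (by ring) le_rfl hn hu (by omega) (by omega) hv]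
    omega
  have hA := part_abs (g0 := (x + 0) % nn 4 c) (g1 := (x + 1) % nn 4 c) (g2 := (x + 4) % nn 4 c)
    (g3 := (x + (4 + c)) % nn 4 c) (g4 := (x + (8 + c)) % nn 4 c)
    (ne _ _ (by omega) (by omega) (by rw [nn4]; omega))
    (ne _ _ (by omega) (by omega) (by rw [nn4]; omega))
    (ne _ _ (by omega) (by omega) (by rw [nn4]; omega))
    (ne _ _ (by omega) (by omega) (by rw [nn4]; omega))
    (ne _ _ (by omega) (by omega) (by rw [nn4]; omega))
    (ne _ _ (by omega) (by omega) (by rw [nn4]; omega))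
    (ne _ _ (by omega) (by omega) (by rw [nn4]; omega))
    (ne _ _ (by omega) (by omega) (by rw [nn4]; omega))
    (ne _ _ (by omega) (by omega) (by rw [nn4]; omega))
    (ne _ _ (by omega) (by omega) (by rw [nn4]; omega))
  have hG : GGx c x = {(x + 0) % nn 4 c, (x + 1) % nn 4 c, (x + 4) % nn 4 c,
      (x + (4 + c)) % nn 4 c, (x + (8 + c)) % nn 4 c} := by
    unfold GGx
    simp only [image_insert, image_singleton, add_zero, add_assoc]
  have hE : edg c x = {(x + 1) % nn 4 c, (x + (8 + c)) % nn 4 c} := by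
    unfold edg
    simp only [image_insert, image_singleton, add_assoc]
  have hT : tri c x = {(x + 0) % nn 4 c, (x + 4) % nn 4 c, (x + (4 + c)) % nn 4 c} := by
    unfold tri
    simp only [image_insert, image_singleton, add_zero, add_assoc]
  have hfo : flo c x = {{(x + 0) % nn 4 c, (x + 1) % nn 4 c, (x + 4) % nn 4 c,
      (x + (4 + c)) % nn 4 c}, {(x + 0) % nn 4 c, (x + 4) % nn 4 c, (x + (4 + c)) % nn 4 c,
      (x + (8 + c)) % nn 4 c}} := by
    unfold flo
    rw [fQ_eq]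
    simp only [image_insert, image_singleton, add_zero, add_assoc]
  have hfl : fl c x = {{(x + 0) % nn 4 c, (x + 1) % nn 4 c, (x + 4) % nn 4 c,
      (x + (8 + c)) % nn 4 c}, {(x + 0) % nn 4 c, (x + 1) % nn 4 c, (x + (4 + c)) % nn 4 c,
      (x + (8 + c)) % nn 4 c}, {(x + 1) % nn 4 c, (x + 4) % nn 4 c, (x + (4 + c)) % nn 4 c,
      (x + (8 + c)) % nn 4 c}} := by
    unfold fl
    simp only [image_insert, image_singleton, add_zero, add_assoc]
  rw [hG, hE, hT, hfo, hfl]
  exact hA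

end Flp

open Flp

theorem KK_tri {c : ℤ} (hc : 1 ≤ c) (ho : Odd c) {x : ℤ} (hx : 0 ≤ x) (hx' : x < nn 4 c) :
    flo c x ⊆ KK 4 c ∧ ∀ F ∈ KK 4 c,
      ({x, x + 4, x + 4 + c} : Finset ℤ).image (fun z => z % nn 4 c) ⊆ F → F ∈ flo c x :=
  ⟨flo_sub hc ho x, fun _ hF h => tri_mem hc ho hx hx' hF h⟩

theorem isSph_FK {c : ℤ} (hc : 1 ≤ c) (ho : Odd c) {m : ℕ} (hm : (m : ℤ) ≤ nn 4 c) :
    IsSph 4 (FK c m) := by
  induction m with
  | zero =>
    have : FK c 0 = KK 4 c := by
      unfold FK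
      simp
    rw [this]
    exact isSph_KK (par hc ho)
  | succ m ih =>
    have hm' : (m : ℤ) < nn 4 c := by push_cast at hm; omega
    have h0 := ih hm'.le
    obtain ⟨p1, p2, p3⟩ := parts hc (m : ℤ)
    have hmem : ∀ F, F ∈ FK c m ↔ (F ∈ KK 4 c ∧ ∀ x < m, F ∉ flo c (x : ℤ)) ∨
        ∃ x < m, F ∈ fl c (x : ℤ) := by
      intro F
      unfold FK
      simp only [mem_union, mem_sdiff, mem_biUnion, mem_range, not_exists, not_and]
    have hstep := isSph_bist (G := GGx c m) (R := edg c m) h0 (by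
        unfold edg GGx
        apply image_subset_image
        intro a
        simp only [mem_insert, mem_singleton]
        tauto)
      (by unfold edg; simp)
      (by
        intro he
        have h1 : GGx c m \ edg c m = ∅ := by rw [he]; simp
        rw [p2] at h1
        unfold tri at h1
        simp at h1)
      (by
        intro r hr
        have h1 : (GGx c m).erase r ∈ flo c (m : ℤ) := by
          rw [← p1]
          unfold part
          exact mem_image_of_mem _ hr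
        rw [hmem]
        left
        refine ⟨flo_sub hc ho _ h1, fun x hxm h2 => ?_⟩
        have := flo_disj hc ho (by omega) hm' (by omega) (by omega) h1 h2
        omega)
      (by
        intro F hF hs
        rw [p2] at hs
        rw [hmem] at hF
        rcases hF with ⟨hF, -⟩ | ⟨x, hx, hF⟩
        · have h1 := tri_mem hc ho (by omega) hm' hF hs
          rw [← p1] at h1
          unfold part at h1
          obtain ⟨r, hr, e⟩ := mem_image.1 h1
          exact ⟨r, hr, e.symm⟩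
        · exact absurd hs (tri_fl hc ho hF))
      (by
        intro F hF hs
        rw [hmem] at hF
        rcases hF with ⟨hF, -⟩ | ⟨x, hx, hF⟩
        · exact edg_KK hc ho hF hs
        · have := edg_fl hc (by omega) hm' (by omega) (by omega) hF hs
          omega)
    rw [p2, p1, p3] at hstep
    have he : FK c (m + 1) = (FK c m \ flo c (m : ℤ)) ∪ fl c (m : ℤ) := by
      ext F
      rw [mem_union, mem_sdiff, hmem]
      unfold FK
      simp only [mem_union, mem_sdiff, mem_biUnion, mem_range, not_exists, not_and,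
        Order.lt_add_one_iff]
      constructor
      · rintro (⟨h1, h2⟩ | ⟨x, hx, h2⟩)
        · left
          exact ⟨Or.inl ⟨h1, fun x hx => h2 x hx.le⟩, h2 m le_rfl⟩
        · rcases Nat.lt_or_ge x m with h3 | h3
          · left
            refine ⟨Or.inr ⟨x, h3, h2⟩, fun h4 => ?_⟩
            exact edg_KK hc ho (flo_sub hc ho _ h4) (fl_edg h2)
          · right
            have : x = m := by omega
            rwa [this] at h2
      · rintro (⟨⟨h1, h2⟩ | ⟨x, hx, h2⟩, h3⟩ | h1)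
        · left
          refine ⟨h1, fun x hx => ?_⟩
          rcases Nat.lt_or_ge x m with h4 | h4
          · exact h2 x h4
          · have : x = m := by omega
            rwa [this]
        · right
          exact ⟨x, hx.le, h2⟩
        · right
          exact ⟨m, le_rfl, h1⟩
    rw [he]
    exact hstep

end Pool.Agent.H23.AE
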