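import Pool.Agent.H23.AE.Defs

/-!
# MP_ae97ec_co, d = 4: the path `i ↦ i a mod (a + b)`
-/

set_option autoImplicit false

namespace Pool.Agent.H23.AE

namespace PathL

theorem dvd_of {a b k : ℤ} (h : Par a b) (hd : (a + b) ∣ k * a) : (a + b) ∣ k := by
  have hc : IsCoprime (a + b) a := by
    have := h.cop
    rw [isCoprime_comm]
    have h2 := this.add_mul_left_right 1
    rwa [mul_one, add_comm b a] at h2
  exact hc.dvd_of_dvd_mul_right hd

theorem bounds {a b i : ℤ} (h : Par a b) : 0 ≤ rr a b i ∧ rr a b i < a + b := by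
  have := h.hN
  exact ⟨Int.emod_nonneg _ (by omega), Int.emod_lt_of_pos _ (by omega)⟩

theorem pos {a b i : ℤ} (h : Par a b) (h1 : 1 ≤ i) (h2 : i ≤ a + b - 1) : 1 ≤ rr a b i := by
  have hb := bounds (i := i) h
  by_contra hc
  have h0 : rr a b i = 0 := by omega
  have h3 : (a + b) ∣ i := dvd_of h (Int.dvd_of_emod_eq_zero h0)
  have := Int.le_of_dvd (by omega) h3
  omega

theorem succ {a b i : ℤ} : rr a b (i + 1) = (rr a b i + a) % (a + b) := by
  unfold rr
  rw [add_mul, one_mul, Int.emod_add_emod]

end PathL

theorem pth_of_par {a b : ℤ} (h : Par a b) : Pth a b := by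
  have ha := h.ha
  have hb := h.hb
  have hN := h.hN
  refine ⟨?_, ?_, ?_, ?_, ?_, ?_⟩
  · unfold rr
    rw [one_mul]
    exact Int.emod_eq_of_lt (by omega) (by omega)
  · unfold rr
    have h1 : (a + b - 1) * a = b + (a + b) * (a - 1) := by ring
    rw [h1, Int.add_mul_emod_self_left]
    exact Int.emod_eq_of_lt (by omega) (by omega)
  · intro i h1 h2
    have := PathL.bounds (i := i) h
    have := PathL.pos h h1 h2
    omega
  · intro i j h1 h2 h3 h4 he
    have h5 : (a + b) ∣ i * a - j * a :=
      Int.dvd_of_emod_eq_zero (Int.emod_eq_emod_iff_emod_sub_eq_zero.1 he)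
    rw [← sub_mul] at h5
    have h6 := PathL.dvd_of h h5
    obtain ⟨q, hq⟩ := h6
    have hq0 : q = 0 := by
      by_contra hne
      rcases lt_or_gt_of_ne hne with hlt | hgt
      · nlinarith
      · nlinarith
    rw [hq0, mul_zero] at hq
    omega
  · intro i h1 h2
    have hbd := PathL.bounds (i := i) h
    have hp := PathL.pos h (i := i + 1) (by omega) (by omega)
    rw [PathL.succ] at hp ⊢
    rcases lt_trichotomy (rr a b i) b with hlt | heq | hgt
    · left
      exact ⟨hlt, Int.emod_eq_of_lt (by omega) (by omega)⟩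
    · exfalso
      rw [heq, add_comm b a, Int.emod_self] at hp
      omega
    · right
      refine ⟨hgt, ?_⟩
      have h3 : rr a b i + a = (rr a b i - b) + (a + b) := by ring
      rw [h3, Int.add_emod_right]
      exact Int.emod_eq_of_lt (by omega) (by omega)
  · intro s h1 h2
    obtain ⟨u, v, huv⟩ := h.cop
    have hN0 : (0 : ℤ) < a + b := by omega
    have h3 : rr a b (s * (u - v) % (a + b)) = s := by
      unfold rr
      have h4 : (s * (u - v) % (a + b)) = s * (u - v) - (a + b) * (s * (u - v) / (a + b)) := by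
        have := Int.emod_add_mul_ediv (s * (u - v)) (a + b)
        omega
      have h5 : s * (u - v) % (a + b) * a
          = s + (a + b) * (-(s * v) - s * (u - v) / (a + b) * a) := by
        rw [h4]
        linear_combination s * huv
      rw [h5, Int.add_mul_emod_self_left]
      exact Int.emod_eq_of_lt (by omega) (by omega)
    have h7 := Int.emod_nonneg (s * (u - v)) (show a + b ≠ 0 by omega)
    have h8 := Int.emod_lt_of_pos (s * (u - v)) hN0
    refine ⟨s * (u - v) % (a + b), ?_, by omega, h3⟩
    by_contra hc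
    have h9 : s * (u - v) % (a + b) = 0 := by omega
    rw [h9] at h3
    unfold rr at h3
    rw [zero_mul, Int.zero_emod] at h3
    omega

end Pool.Agent.H23.AE
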