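import Pool.Agent.H23.AE.Mem

/-!
# MP_ae97ec_co, d = 4: condition `s2` inside the first cylinder part
-/

namespace Pool.Agent.H23.AE

open Finset Pool.Agent.H30.NZ

theorem s2_AA {a b y i y' i' : ℤ} (h : Par a b) (hp : Pth a b) (h1 : 0 ≤ y)
    (h2 : y ≤ 2 * a + b - 1) (h3 : 1 ≤ i) (h4 : i ≤ a + b - 2) (h1' : 0 ≤ y')
    (h2' : y' ≤ 2 * a + b - 1) (h3' : 1 ≤ i') (h4' : i' ≤ a + b - 2)
    (hlt : y < y' ∨ (y' = y ∧ i' < i)) : ¬ RA a b y i ⊆ fC a b y' i' := by
  intro hsub
  have hr1 := hp.range (i + 1) (by omega) (by omega)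
  have hr2 := hp.range i' (by omega) (by omega)
  have hr3 := hp.range (i' + 1) (by omega) (by omega)
  -- the vertex `y` is not in a later block
  have hy : y ∈ RA a b y i → y < y' → False := by
    intro hm hlt'
    have := (mem_fC0 h hp h1' h2' h3' h4').1 (hsub hm)
    omega
  -- inside the block
  have hz : y + 1 + rr a b (i + 1) ∈ RA a b y i → y' = y → i' < i → False := by
    intro hm he hlt'
    have := (mem_fC0 h hp h1' h2' h3' h4').1 (hsub hm)
    subst he
    rcases this with e | e | e | e
    · omega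
    · omega
    · have := hp.inj (i + 1) i' (by omega) (by omega) (by omega) (by omega) (by omega)
      omega
    · have := hp.inj (i + 1) (i' + 1) (by omega) (by omega) (by omega) (by omega) (by omega)
      omega
  by_cases hY : y = nn a b - 1 - (a + b)
  · have hY' : y = 2 * a + b - 1 := by rw [hY, nn]; ring
    rcases hlt with hlt | ⟨he, hlt⟩
    · omega
    · refine hz ?_ he hlt
      rw [RA, if_pos hY, if_neg (by omega)]
      simp
  · rcases hlt with hlt | ⟨he, hlt⟩
    · refine hy ?_ hlt
      rw [RA, if_neg hY]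
      split <;> simp
    · refine hz ?_ he hlt
      rw [RA, if_neg hY, if_neg (by omega)]
      simp

end Pool.Agent.H23.AE
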