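import Pool.Agent.H23.AE.Mem

/-!
# MP_ae97ec_co, d = 4: condition `s2` for the core
-/

namespace Pool.Agent.H23.AE

open Finset Pool.Agent.H30.NZ

theorem s2_QA {a b k y i : ℤ} (h : Par a b) (hp : Pth a b) (h1 : 0 ≤ k)
    (h2 : k ≤ 3 * a + 2 * b - 1) (h1' : 0 ≤ y)
    (h2' : y ≤ 2 * a + b - 1) (h3' : 1 ≤ i) (h4' : i ≤ a + b - 2) :
    ¬ RQ a b k ⊆ fC a b y i := by
  intro hsub
  have ha := h.ha
  have hb := h.hb
  have hr1 := hp.range i (by omega) (by omega)
  have hr2 := hp.range (i + 1) (by omega) (by omega)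
  have key : ∀ u v : ℤ, u ∈ RQ a b k → v ∈ RQ a b k → v - u ≤ a + b := by
    intro u v hu hv
    have := (mem_fC0 h hp h1' h2' h3' h4').1 (hsub hu)
    have := (mem_fC0 h hp h1' h2' h3' h4').1 (hsub hv)
    omega
  unfold RQ nn at key
  split at key
  · have := key k (k + (a + b) + a) (by simp) (by simp)
    omega
  · split at key
    · have := key (k - (a + b)) (k + (a + b)) (by simp) (by simp)
      omega
    · split at key
      · have := key (k - (a + b) - a) (k + a) (by simp) (by simp)
        omega
      · have := key (k + a - (3 * a + 2 * b)) k (by simp) (by simp)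
        omega

theorem s2_QQ {a b k k' : ℤ} (h : Par a b) (h1 : 0 ≤ k') (hlt : k' < k)
    (h2 : k ≤ 3 * a + 2 * b - 1) : ¬ RQ a b k ⊆ fQ a b k' := by
  intro hsub
  have ha := h.ha
  have hb := h.hb
  have hne := h.ne
  have key : ∀ u : ℤ, u ∈ RQ a b k → 0 ≤ u ∧ u < 3 * a + 2 * b ∧
      (u = k' ∨ u = k' + a ∨ u = k' + a + b ∨ u = k' + a + b + a ∨
        u + (3 * a + 2 * b) = k' + a ∨
        u + (3 * a + 2 * b) = k' + a + b ∨ u + (3 * a + 2 * b) = k' + a + b + a) :=
    fun u hu => (mem_fQ h h1 (by omega)).1 (hsub hu)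
  clear hsub
  unfold RQ nn at key
  split at key
  · obtain ⟨_, _, e⟩ := key k (by simp)
    obtain ⟨_, _, e'⟩ := key (k + (a + b) + a) (by simp)
    clear key
    rcases e with e | e | e | e | e | e | e <;> rcases e' with e' | e' | e' | e' | e' | e' | e' <;>
      omega
  · split at key
    · obtain ⟨_, _, e⟩ := key (k - (a + b)) (by simp)
      obtain ⟨_, _, e'⟩ := key (k + (a + b)) (by simp)
      clear key
      rcases e with e | e | e | e | e | e | e <;>
        rcases e' with e' | e' | e' | e' | e' | e' | e' <;> omega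
    · split at key
      · obtain ⟨_, _, e⟩ := key (k - (a + b) - a) (by simp)
        obtain ⟨_, _, e'⟩ := key (k + a) (by simp)
        clear key
        rcases e with e | e | e | e | e | e | e <;>
          rcases e' with e' | e' | e' | e' | e' | e' | e' <;> omega
      · obtain ⟨_, _, e⟩ := key (k + a - (3 * a + 2 * b)) (by simp)
        obtain ⟨_, _, e'⟩ := key k (by simp)
        obtain ⟨_, _, e''⟩ := key (k - (a + b) - a) (by simp)
        clear key
        rcases e with e | e | e | e | e | e | e <;>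
          rcases e' with e' | e' | e' | e' | e' | e' | e' <;> omega

end Pool.Agent.H23.AE
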