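import Pool.Agent.H23.AE.Mem

/-!
# MP_ae97ec_co, d = 4: restriction sets of the second cylinder part and facets of the first part
-/

namespace Pool.Agent.H23.AE

open Finset Pool.Agent.H30.NZ

namespace S2WAA

/-- The path avoids `a` and `b` in the middle. -/
theorem mid {a b i : ℤ} (h : Par a b) (hp : Pth a b) (h3 : 2 ≤ i) (h4 : i ≤ a + b - 2) :
    1 ≤ rr a b i ∧ rr a b i ≤ a + b - 1 ∧ rr a b i ≠ a ∧ rr a b i ≠ b := by
  have hN := h.hN
  obtain ⟨h5, h6⟩ := hp.range i (by omega) (by omega)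
  refine ⟨h5, h6, fun e => ?_, fun e => ?_⟩
  · have := hp.inj i 1 (by omega) (by omega) le_rfl (by omega) (by rw [e, hp.one])
    omega
  · have := hp.inj i (a + b - 1) (by omega) (by omega) (by omega) le_rfl (by rw [e, hp.last])
    omega

/-- No facet of the first part contains both vertices. -/
theorem no {a b y y' i' r : ℤ} (h : Par a b) (hp : Pth a b) (h1 : -(a + b) ≤ y) (h2 : y ≤ -2)
    (h1' : 0 ≤ y') (h2' : y' ≤ 2 * a + b - 1) (h3' : 1 ≤ i') (h4' : i' ≤ a + b - 2)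
    (hr1 : 1 ≤ r) (hr2 : r ≤ a + b - 1) (hra : r ≠ a) (hrb : r ≠ b)
    (hx : y + 1 + (3 * a + 2 * b) ∈ fC a b y' i')
    (hx' : y + 1 + r ∈ fC a b y' i' ∨ y + 1 + r + (3 * a + 2 * b) ∈ fC a b y' i') : False := by
  have ha := h.ha
  have hb := h.hb
  rw [mem_fC0 h hp h1' h2' h3' h4'] at hx
  rw [mem_fC0 h hp h1' h2' h3' h4', mem_fC0 h hp h1' h2' h3' h4'] at hx'
  have r1 := hp.range i' h3' (by omega)
  have r2 := hp.range (i' + 1) (by omega) (by omega)
  have r3 := hp.step i' h3' h4'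
  generalize rr a b i' = s at *
  generalize rr a b (i' + 1) = s' at *
  rcases hx with hx | hx | hx | hx
  · omega
  · omega
  · rcases hx' with hx' | hx' <;> rcases hx' with hx' | hx' | hx' | hx' <;>
      rcases r3 with r3 | r3 <;> omega
  · rcases hx' with hx' | hx' <;> rcases hx' with hx' | hx' | hx' | hx' <;>
      rcases r3 with r3 | r3 <;> omega

end S2WAA

open S2WAA

theorem s2_WA {a b y i y' i' : ℤ} (h : Par a b) (hp : Pth a b) (h1 : -(a + b) ≤ y)
    (h2 : y ≤ -1) (h3 : 1 ≤ i) (h4 : i ≤ a + b - 2) (h1' : 0 ≤ y')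
    (h2' : y' ≤ 2 * a + b - 1) (h3' : 1 ≤ i') (h4' : i' ≤ a + b - 2) :
    ¬ RW a b y i ⊆ fC a b y' i' := by
  intro hsub
  have ha := h.ha
  have hb := h.hb
  have hN := h.hN
  by_cases hy : y ≤ -2
  · have hx : y + 1 + (3 * a + 2 * b) ∈ fC a b y' i' := by
      apply hsub
      rw [mem_RW h hp h1 h2 h3 h4]
      refine ⟨by omega, by omega, ?_⟩
      by_cases hi : i = 1
      · exact Or.inr (Or.inl ⟨hy, hi, Or.inl rfl⟩)
      · exact Or.inl ⟨hy, by omega, Or.inl rfl⟩
    have key : ∃ j : ℤ, 2 ≤ j ∧ j ≤ a + b - 2 ∧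
        (y + 1 + rr a b j ∈ RW a b y i ∨ y + 1 + rr a b j + (3 * a + 2 * b) ∈ RW a b y i) := by
      by_cases hi : i = 1
      · refine ⟨2, le_rfl, by omega, ?_⟩
        obtain ⟨m1, m2⟩ := hp.range 2 (by omega) (by omega)
        rcases lt_or_ge (y + 1 + rr a b 2) 0 with hl | hl
        · right
          rw [mem_RW h hp h1 h2 h3 h4]
          refine ⟨by omega, by omega, Or.inr (Or.inl ⟨hy, hi, ?_⟩)⟩
          exact Or.inr (Or.inr (Or.inr (Or.inr rfl)))
        · left
          rw [mem_RW h hp h1 h2 h3 h4]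
          refine ⟨by omega, by omega, Or.inr (Or.inl ⟨hy, hi, ?_⟩)⟩
          exact Or.inr (Or.inr (Or.inr (Or.inl rfl)))
      · refine ⟨i, by omega, h4, ?_⟩
        obtain ⟨m1, m2⟩ := hp.range i h3 (by omega)
        rcases lt_or_ge (y + 1 + rr a b i) 0 with hl | hl
        · right
          rw [mem_RW h hp h1 h2 h3 h4]
          refine ⟨by omega, by omega, Or.inl ⟨hy, by omega, ?_⟩⟩
          exact Or.inr (Or.inr rfl)
        · left
          rw [mem_RW h hp h1 h2 h3 h4]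
          refine ⟨by omega, by omega, Or.inl ⟨hy, by omega, ?_⟩⟩
          exact Or.inr (Or.inl rfl)
    obtain ⟨j, hj1, hj2, hj⟩ := key
    obtain ⟨m1, m2, m3, m4⟩ := mid h hp hj1 hj2
    exact no h hp h1 hy h1' h2' h3' h4' m1 m2 m3 m4 hx
      (hj.imp (fun e => hsub e) (fun e => hsub e))
  · have hy' : y = -1 := by omega
    have e1 : 3 * a + 2 * b - 1 ∈ fC a b y' i' := by
      apply hsub
      rw [mem_RW h hp h1 h2 h3 h4]
      refine ⟨by omega, by omega, ?_⟩
      by_cases hi : i = 1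
      · exact Or.inr (Or.inr (Or.inr ⟨hy', hi, Or.inl rfl⟩))
      · exact Or.inr (Or.inr (Or.inl ⟨hy', by omega, Or.inl rfl⟩))
    have e2 : (0 : ℤ) ∈ fC a b y' i' := by
      apply hsub
      rw [mem_RW h hp h1 h2 h3 h4]
      refine ⟨by omega, by omega, ?_⟩
      by_cases hi : i = 1
      · exact Or.inr (Or.inr (Or.inr ⟨hy', hi, Or.inr (Or.inl rfl)⟩))
      · exact Or.inr (Or.inr (Or.inl ⟨hy', by omega, Or.inr (Or.inl rfl)⟩))
    rw [mem_fC0 h hp h1' h2' h3' h4'] at e1 e2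
    have r1 := hp.range i' h3' (by omega)
    have r2 := hp.range (i' + 1) (by omega) (by omega)
    omega

end Pool.Agent.H23.AE
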