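import Pool.Agent.H23.AE.Defs

/-!
# MP_ae97ec_co, d = 4: restriction sets of the second cylinder part and core facets
-/

namespace Pool.Agent.H23.AE

open Finset Pool.Agent.H30.NZ

namespace S2WQA

/-- Two vertices of a core facet do not differ by `r` if `r ≠ a, b` and `1 ≤ r < N`. -/
theorem fQ_no {a b k x r : ℤ} (h : Par a b) (hr1 : 1 ≤ r) (hr2 : r ≤ a + b - 1) (hra : r ≠ a)
    (hrb : r ≠ b) (hx : x % nn a b ∈ fQ a b k) (hx' : (x + r) % nn a b ∈ fQ a b k) : False := by
  have ha := h.ha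
  have hb := h.hb
  unfold fQ at hx hx'
  obtain ⟨s, hs, e⟩ := mem_image.1 hx
  obtain ⟨s', hs', e'⟩ := mem_image.1 hx'
  have h1 : s ≡ x [ZMOD nn a b] := e
  have h2 : s' ≡ x + r [ZMOD nn a b] := e'
  have h3 : nn a b ∣ (x + r - x) - (s' - s) := (h2.sub h1).dvd
  have h4 : x + r - x - (s' - s) = r - (s' - s) := by ring
  rw [h4] at h3
  have hn : nn a b = 3 * a + 2 * b := rfl
  simp only [mem_insert, mem_singleton] at hs hs'
  have h5 : r - (s' - s) = 0 := by
    apply Int.eq_zero_of_abs_lt_dvd h3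
    rw [abs_lt, hn]
    omega
  omega

/-- The path avoids `a` and `b` in the middle. -/
theorem mid {a b i : ℤ} (h : Par a b) (hp : Pth a b) (h3 : 2 ≤ i) (h4 : i ≤ a + b - 2) :
    1 ≤ rr a b i ∧ rr a b i ≤ a + b - 1 ∧ rr a b i ≠ a ∧ rr a b i ≠ b := by
  have hN := h.hN
  obtain ⟨h5, h6⟩ := hp.range i (by omega) (by omega)
  refine ⟨h5, h6, fun e => ?_, fun e => ?_⟩
  · have := hp.inj i 1 (by omega) (by omega) le_rfl (by omega) (by rw [e, hp.one])
    omega
  · have := hp.inj i (a + b - 1) (by omega) (by omega) (by omega) le_rfl (by rw [e, hp.last])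
    omega

end S2WQA

open S2WQA

theorem s2_WQ {a b y i k : ℤ} (h : Par a b) (hp : Pth a b) (h1 : -(a + b) ≤ y)
    (h2 : y ≤ -1) (h3 : 1 ≤ i) (h4 : i ≤ a + b - 2) (h1' : 0 ≤ k)
    (h2' : k ≤ 3 * a + 2 * b - 1) : ¬ RW a b y i ⊆ fQ a b k := by
  intro hsub
  have hN := h.hN
  have key : ∃ x j : ℤ, 2 ≤ j ∧ j ≤ a + b - 2 ∧ x % nn a b ∈ RW a b y i ∧
      (x + rr a b j) % nn a b ∈ RW a b y i := by
    by_cases hy : y ≤ -2
    · by_cases hi : i = 1
      · refine ⟨y + 1, 2, le_rfl, by omega, ?_, ?_⟩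
        · unfold RW
          rw [if_pos hy, if_pos hi]
          exact mem_image_of_mem _ (by simp)
        · unfold RW
          rw [if_pos hy, if_pos hi]
          exact mem_image_of_mem _ (by simp)
      · refine ⟨y + 1, i, by omega, h4, ?_, ?_⟩
        · unfold RW
          rw [if_pos hy, if_neg hi]
          exact mem_image_of_mem _ (by simp)
        · unfold RW
          rw [if_pos hy, if_neg hi]
          exact mem_image_of_mem _ (by simp)
    · by_cases hi : i = 1
      · refine ⟨0, 2, le_rfl, by omega, ?_, ?_⟩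
        · unfold RW
          rw [if_neg hy, if_pos hi]
          exact mem_image_of_mem _ (by simp)
        · unfold RW
          rw [if_neg hy, if_pos hi]
          exact mem_image_of_mem _ (by simp)
      · refine ⟨0, i, by omega, h4, ?_, ?_⟩
        · unfold RW
          rw [if_neg hy, if_neg hi]
          exact mem_image_of_mem _ (by simp)
        · unfold RW
          rw [if_neg hy, if_neg hi]
          exact mem_image_of_mem _ (by simp)
  obtain ⟨x, j, hj1, hj2, hx, hx'⟩ := key
  obtain ⟨m1, m2, m3, m4⟩ := mid h hp hj1 hj2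
  exact fQ_no h m1 m2 m3 m4 (hsub hx) (hsub hx')

end Pool.Agent.H23.AE
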