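import Pool.Agent.H23.AE.Mem

/-!
# MP_ae97ec_co, d = 4: restriction sets of the second cylinder part and facets of the same part
-/

namespace Pool.Agent.H23.AE

open Finset Pool.Agent.H30.NZ

namespace S2WWA

/-- The path avoids `a` and `b` in the middle. -/
theorem mid {a b i : ℤ} (h : Par a b) (hp : Pth a b) (h3 : 2 ≤ i) (h4 : i ≤ a + b - 2) :
    1 ≤ rr a b i ∧ rr a b i ≤ a + b - 1 ∧ rr a b i ≠ a ∧ rr a b i ≠ b := by
  have hN := h.hN
  obtain ⟨h5, h6⟩ := hp.range i (by omega) (by omega)
  refine ⟨h5, h6, fun e => ?_, fun e => ?_⟩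
  · have := hp.inj i 1 (by omega) (by omega) le_rfl (by omega) (by rw [e, hp.one])
    omega
  · have := hp.inj i (a + b - 1) (by omega) (by omega) (by omega) le_rfl (by rw [e, hp.last])
    omega

/-- Membership in a facet of the second part, in the window `[-N, N - 1]`. -/
theorem win {a b y i x : ℤ} (h : Par a b) (hp : Pth a b) (h1 : -(a + b) ≤ y) (h2 : y ≤ -1)
    (h3 : 1 ≤ i) (h4 : i ≤ a + b - 2) (hx1 : -(a + b) ≤ x) (hx2 : x ≤ a + b - 1)
    (hx : x % nn a b ∈ fC a b y i) :
    x = y ∨ x = y + 1 ∨ x = y + 1 + rr a b i ∨ x = y + 1 + rr a b (i + 1) := by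
  have ha := h.ha
  have hb := h.hb
  have r1 := hp.range i h3 (by omega)
  have r2 := hp.range (i + 1) (by omega) (by omega)
  have e1 : nn a b = 3 * a + 2 * b := rfl
  have e2 := (mem_emod (n := nn a b) (x := x) (v := x % nn a b) (by omega) (by omega)
    (by omega)).1 rfl
  rw [mem_fC2 h hp h1 h2 h3 h4] at hx
  generalize x % nn a b = v at *
  omega

theorem in1 {a b y i : ℤ} (h2 : y ≤ -1) : (y + 1) % nn a b ∈ RW a b y i := by
  by_cases hy : y ≤ -2
  · unfold RW
    rw [if_pos hy]
    split_ifs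
    · exact mem_image_of_mem _ (by simp)
    · exact mem_image_of_mem _ (by simp)
  · have hy' : y = -1 := by omega
    subst hy'
    unfold RW
    rw [if_neg hy]
    split_ifs
    · exact mem_image_of_mem _ (by simp)
    · exact mem_image_of_mem _ (by simp)

theorem in2 {a b y i : ℤ} (hp : rr a b 1 = a) (h2 : y ≤ -1) :
    (y + 1 + rr a b i) % nn a b ∈ RW a b y i := by
  by_cases hy : y ≤ -2
  · unfold RW
    rw [if_pos hy]
    split_ifs with hi
    · subst hi
      rw [hp]
      exact mem_image_of_mem _ (by simp)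
    · exact mem_image_of_mem _ (by simp)
  · have hy' : y = -1 := by omega
    subst hy'
    unfold RW
    rw [if_neg hy]
    split_ifs with hi
    · subst hi
      rw [hp]
      exact mem_image_of_mem _ (by simp)
    · exact mem_image_of_mem _ (by simp)

theorem in3 {a b y : ℤ} (h2 : y ≤ -1) : (y + 1 + rr a b 2) % nn a b ∈ RW a b y 1 := by
  by_cases hy : y ≤ -2
  · unfold RW
    rw [if_pos hy, if_pos rfl]
    exact mem_image_of_mem _ (by simp)
  · have hy' : y = -1 := by omega
    subst hy'
    unfold RW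
    rw [if_neg hy, if_pos rfl]
    exact mem_image_of_mem _ (by simp)

end S2WWA

open S2WWA

theorem s2_WW {a b y i y' i' : ℤ} (h : Par a b) (hp : Pth a b) (h1 : -(a + b) ≤ y)
    (h2 : y ≤ -1) (h3 : 1 ≤ i) (h4 : i ≤ a + b - 2) (h1' : -(a + b) ≤ y') (h2' : y' ≤ -1)
    (h3' : 1 ≤ i') (h4' : i' ≤ a + b - 2) (hlt : y' < y ∨ (y' = y ∧ i < i')) :
    ¬ RW a b y i ⊆ fC a b y' i' := by
  intro hsub
  have ha := h.ha
  have hb := h.hb
  have hN := h.hN
  have r0 := hp.range i h3 (by omega)
  have r1 := hp.range i' h3' (by omega)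
  have r2 := hp.range (i' + 1) (by omega) (by omega)
  have w2 := win (x := y + 1 + rr a b i) h hp h1' h2' h3' h4' (by omega) (by omega)
    (hsub (in2 hp.one h2))
  rcases hlt with hlt | ⟨hlt, hii⟩
  · have w1 := win (x := y + 1) h hp h1' h2' h3' h4' (by omega) (by omega)
      (hsub (in1 h2))
    have key : ∃ j : ℤ, 2 ≤ j ∧ j ≤ a + b - 2 ∧ (y + 1 + rr a b j) % nn a b ∈ RW a b y i := by
      by_cases hi : i = 1
      · subst hi
        exact ⟨2, le_rfl, by omega, in3 h2⟩
      · exact ⟨i, by omega, h4, in2 hp.one h2⟩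
    obtain ⟨j, hj1, hj2, hj⟩ := key
    obtain ⟨m1, m2, m3, m4⟩ := mid h hp hj1 hj2
    have w3 := win (x := y + 1 + rr a b j) h hp h1' h2' h3' h4' (by omega) (by omega) (hsub hj)
    have st := hp.step i' h3' h4'
    generalize rr a b i' = s at *
    generalize rr a b (i' + 1) = s' at *
    generalize rr a b j = t at *
    omega
  · subst hlt
    have n1 : rr a b i ≠ rr a b i' := fun e => by
      have := hp.inj i i' h3 (by omega) h3' (by omega) e
      omega
    have n2 : rr a b i ≠ rr a b (i' + 1) := fun e => by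
      have := hp.inj i (i' + 1) h3 (by omega) (by omega) (by omega) e
      omega
    omega

end Pool.Agent.H23.AE
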