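import Pool.Agent.H23.AE.Mem

/-! # MP_ae97ec_co, d = 4: condition `s3` for the first cylinder part -/

namespace Pool.Agent.H23.AE

open Finset

namespace S3AA

/-- the elements of `fC \ RA` which are used -/
theorem mem_diff {a b y i : ℤ} (h : Par a b) (hp : Pth a b) (h1 : 0 ≤ y)
    (h2 : y ≤ 2 * a + b - 1) (h3 : 1 ≤ i) (h4 : i ≤ a + b - 2) :
    y + 1 ∈ fC a b y i \ RA a b y i ∧ y + 1 + rr a b i ∈ fC a b y i \ RA a b y i ∧
      (i = 1 → y + 1 + rr a b (i + 1) ∈ fC a b y i \ RA a b y i) := by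
  have e1 := hp.range i (by omega) (by omega)
  have e2 := hp.range (i + 1) (by omega) (by omega)
  have e3 := hp.step i h3 h4
  have e4 := h.ha
  have e5 := h.hb
  rw [mem_sdiff, mem_sdiff, mem_sdiff, mem_fC0 h hp h1 h2 h3 h4, mem_fC0 h hp h1 h2 h3 h4,
    mem_fC0 h hp h1 h2 h3 h4]
  refine ⟨⟨Or.inr (Or.inl rfl), ?_⟩, ⟨Or.inr (Or.inr (Or.inl rfl)), ?_⟩,
    fun hi => ⟨Or.inr (Or.inr (Or.inr rfl)), ?_⟩⟩ <;> unfold RA <;>
    split_ifs <;> simp only [mem_insert, mem_singleton, notMem_empty, not_false_eq_true] <;> omega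

theorem rr_eq_a {a b i : ℤ} (h : Par a b) (hp : Pth a b) (h3 : 1 ≤ i) (h4 : i ≤ a + b - 1)
    (e : rr a b i = a) : i = 1 := by
  have := h.hN
  exact hp.inj i 1 h3 h4 (by omega) (by omega) (by rw [e, hp.one])

theorem rr_eq_b {a b i : ℤ} (h : Par a b) (hp : Pth a b) (h3 : 1 ≤ i) (h4 : i ≤ a + b - 1)
    (e : rr a b i = b) : i = a + b - 1 := by
  have := h.hN
  exact hp.inj i (a + b - 1) h3 h4 (by omega) (by omega) (by rw [e, hp.last])

end S3AA

open S3AA

theorem s3_AA {a b y i y' i' : ℤ} (h : Par a b) (hp : Pth a b) (h1 : 0 ≤ y)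
    (h2 : y ≤ 2 * a + b - 1) (h3 : 1 ≤ i) (h4 : i ≤ a + b - 2) (h1' : 0 ≤ y')
    (h2' : y' ≤ 2 * a + b - 1) (h3' : 1 ≤ i') (h4' : i' ≤ a + b - 2)
    (hlt : y' < y ∨ (y' = y ∧ i < i')) : ¬ (fC a b y i \ RA a b y i) ⊆ fC a b y' i' := by
  intro hsub
  have hN := h.hN
  have ha := h.ha
  have hb := h.hb
  obtain ⟨m1, m2, m3⟩ := mem_diff h hp h1 h2 h3 h4
  have n1 := hsub m1
  have n2 := hsub m2
  rw [mem_fC0 h hp h1' h2' h3' h4'] at n1 n2
  have e1 := hp.range i (by omega) (by omega)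
  have e2 := hp.range (i + 1) (by omega) (by omega)
  have e3 := hp.range i' (by omega) (by omega)
  have e4 := hp.range (i' + 1) (by omega) (by omega)
  have e5 := hp.step i' h3' h4'
  rcases hlt with hlt | ⟨rfl, hlt⟩
  · -- different blocks
    have c1 : rr a b i = a ∨ rr a b i = b := by omega
    rcases c1 with c1 | c1
    · have hi : i = 1 := rr_eq_a h hp (by omega) (by omega) c1
      have n3 := hsub (m3 hi)
      rw [mem_fC0 h hp h1' h2' h3' h4'] at n3
      have c2 : rr a b (i + 1) ≠ rr a b i := by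
        intro e
        have := hp.inj (i + 1) i (by omega) (by omega) (by omega) (by omega) e
        omega
      omega
    · have hi := rr_eq_b h hp (by omega) (by omega) c1
      omega
  · -- same block
    have c1 : rr a b i ≠ rr a b i' := by
      intro e
      have := hp.inj i i' (by omega) (by omega) (by omega) (by omega) e
      omega
    have c2 : rr a b i ≠ rr a b (i' + 1) := by
      intro e
      have := hp.inj i (i' + 1) (by omega) (by omega) (by omega) (by omega) e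
      omega
    omega

theorem s3_AQ {a b y i k : ℤ} (h : Par a b) (hp : Pth a b) (h1 : 0 ≤ y)
    (h2 : y ≤ 2 * a + b - 1) (h3 : 1 ≤ i) (h4 : i ≤ a + b - 2) (h1' : 0 ≤ k)
    (h2' : k ≤ 3 * a + 2 * b - 1) : ¬ (fC a b y i \ RA a b y i) ⊆ fQ a b k := by
  intro hsub
  have hN := h.hN
  have ha := h.ha
  have hb := h.hb
  obtain ⟨m1, m2, m3⟩ := mem_diff h hp h1 h2 h3 h4
  have key : ∀ s : ℤ, 1 ≤ s → s ≤ a + b - 1 → y + 1 ∈ fQ a b k → y + 1 + s ∈ fQ a b k →
      s = a ∨ s = b := by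
    intro s hs1 hs2 k1 k2
    rw [mem_fQ h h1' h2'] at k1 k2
    omega
  have e1 := hp.range i (by omega) (by omega)
  have e2 := hp.range (i + 1) (by omega) (by omega)
  rcases key _ e1.1 e1.2 (hsub m1) (hsub m2) with c | c
  · have hi : i = 1 := rr_eq_a h hp (by omega) (by omega) c
    rcases key _ e2.1 e2.2 (hsub m1) (hsub (m3 hi)) with c' | c'
    · have := rr_eq_a h hp (by omega) (by omega) c'
      omega
    · have := rr_eq_b h hp (by omega) (by omega) c'
      omega
  · have := rr_eq_b h hp (by omega) (by omega) c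
    omega

end Pool.Agent.H23.AE
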