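import Pool.Agent.H23.AE.Mem

/-!
# MP_ae97ec_co: shelling condition, first cylinder part against the second one
-/

namespace Pool.Agent.H23.AE

open Finset Pool.Agent.H30.NZ

/-- an element of the facet which is not in the restriction set, in a `W`-facet: membership
reduced to inequalities -/
theorem s3aw_aux {a b y' i' v : ℤ} (h : Par a b) (hp : Pth a b) (h1' : -(a + b) ≤ y')
    (h2' : y' ≤ -1) (h3' : 1 ≤ i') (h4' : i' ≤ a + b - 2) (hv : v ∈ fC a b y' i') :
    0 ≤ v ∧ v < 3 * a + 2 * b ∧ (v = y' + 1 ∨ v = y' + 1 + rr a b i' ∨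
      v = y' + 1 + rr a b (i' + 1) ∨ (2 * a + b ≤ v ∧ y' + (3 * a + 2 * b) ≤ v)) ∧
      (v = y' + 1 → v = 0) := by
  have hm := (mem_fC2 h hp h1' h2' h3' h4').mp hv
  have hr := hp.range i' h3' (by omega)
  have hr' := hp.range (i' + 1) (by omega) (by omega)
  obtain ⟨g1, g2, g3⟩ := hm
  refine ⟨g1, g2, ?_, ?_⟩
  · omega
  · intro e
    omega

theorem s3_AW {a b y i y' i' : ℤ} (h : Par a b) (hp : Pth a b) (h1 : 0 ≤ y)
    (h2 : y ≤ 2 * a + b - 1) (h3 : 1 ≤ i) (h4 : i ≤ a + b - 2) (h1' : -(a + b) ≤ y')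
    (h2' : y' ≤ -1) (h3' : 1 ≤ i') (h4' : i' ≤ a + b - 2) :
    ¬ (fC a b y i \ RA a b y i) ⊆ fC a b y' i' := by
  intro hsub
  have ha := h.ha
  have hb := h.hb
  have hr := hp.range i h3 (by omega)
  have hr1 := hp.range (i + 1) (by omega) (by omega)
  have hq := hp.range i' h3' (by omega)
  have hq1 := hp.range (i' + 1) (by omega) (by omega)
  have hst := hp.step i' h3' h4'
  have hne : rr a b i ≠ rr a b (i + 1) := by
    intro e
    have := hp.inj i (i + 1) h3 (by omega) (by omega) (by omega) e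
    omega
  have key : ∀ v, v ∈ fC a b y i → v ∉ RA a b y i → 0 ≤ v ∧ v < 3 * a + 2 * b ∧
      (v = y' + 1 ∨ v = y' + 1 + rr a b i' ∨
      v = y' + 1 + rr a b (i' + 1) ∨ (2 * a + b ≤ v ∧ y' + (3 * a + 2 * b) ≤ v)) ∧
      (v = y' + 1 → v = 0) := by
    intro v hv hv'
    exact s3aw_aux h hp h1' h2' h3' h4' (hsub (Finset.mem_sdiff.mpr ⟨hv, hv'⟩))
  have hn : nn a b - 1 - (a + b) = 2 * a + b - 1 := by
    unfold nn
    ring
  by_cases hy : y = 2 * a + b - 1
  · -- the top block
    have k1 := key y ((mem_fC0 h hp h1 h2 h3 h4).mpr (Or.inl rfl)) (by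
      unfold RA
      rw [hn, if_pos hy]
      split_ifs with hi
      · exact Finset.notMem_empty _
      · rw [Finset.mem_singleton]
        omega)
    omega
  · by_cases hi : i = 1
    · have e1 : rr a b i = a := by rw [hi]; exact hp.one
      have k1 := key (y + 1) ((mem_fC0 h hp h1 h2 h3 h4).mpr (Or.inr (Or.inl rfl))) (by
        unfold RA
        rw [hn, if_neg hy, if_pos hi, Finset.mem_singleton]
        omega)
      have k2 := key (y + 1 + rr a b i)
        ((mem_fC0 h hp h1 h2 h3 h4).mpr (Or.inr (Or.inr (Or.inl rfl)))) (by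
        unfold RA
        rw [hn, if_neg hy, if_pos hi, Finset.mem_singleton]
        omega)
      have k3 := key (y + 1 + rr a b (i + 1))
        ((mem_fC0 h hp h1 h2 h3 h4).mpr (Or.inr (Or.inr (Or.inr rfl)))) (by
        unfold RA
        rw [hn, if_neg hy, if_pos hi, Finset.mem_singleton]
        omega)
      omega
    · have e1 : rr a b i ≠ a := by
        intro e
        have := hp.inj i 1 h3 (by omega) (by omega) (by omega) (e.trans hp.one.symm)
        omega
      have e2 : rr a b i ≠ b := by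
        intro e
        have := hp.inj i (a + b - 1) h3 (by omega) (by omega) (by omega) (e.trans hp.last.symm)
        omega
      have k1 := key (y + 1) ((mem_fC0 h hp h1 h2 h3 h4).mpr (Or.inr (Or.inl rfl))) (by
        unfold RA
        rw [hn, if_neg hy, if_neg hi, Finset.mem_insert, Finset.mem_singleton]
        omega)
      have k2 := key (y + 1 + rr a b i)
        ((mem_fC0 h hp h1 h2 h3 h4).mpr (Or.inr (Or.inr (Or.inl rfl)))) (by
        unfold RA
        rw [hn, if_neg hy, if_neg hi, Finset.mem_insert, Finset.mem_singleton]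
        omega)
      omega

end Pool.Agent.H23.AE
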