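import Pool.Agent.H23.AE.Mem

/-!
# MP_ae97ec_co, d = 4: condition (s3) inside the second cylinder part
-/

namespace Pool.Agent.H23.AE

open Finset Pool.Agent.H30.NZ

theorem s3_WW {a b y i y' i' : ℤ} (h : Par a b) (hp : Pth a b) (h1 : -(a + b) ≤ y)
    (h2 : y ≤ -1) (h3 : 1 ≤ i) (h4 : i ≤ a + b - 2) (h1' : -(a + b) ≤ y')
    (h2' : y' ≤ -1) (h3' : 1 ≤ i') (h4' : i' ≤ a + b - 2)
    (hlt : y < y' ∨ (y' = y ∧ i' < i)) : ¬ (fC a b y i \ RW a b y i) ⊆ fC a b y' i' := by
  intro hsub
  have ha := h.ha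
  have hb := h.hb
  have hr := hp.range i h3 (by omega)
  have hr1 := hp.range (i + 1) (by omega) (by omega)
  have hq := hp.range i' h3' (by omega)
  have hq1 := hp.range (i' + 1) (by omega) (by omega)
  have key : ∀ v, v ∈ fC a b y i → v ∉ RW a b y i → v ∈ fC a b y' i' := by
    intro v hv hv'
    exact hsub (Finset.mem_sdiff.mpr ⟨hv, hv'⟩)
  rcases hlt with hlt | ⟨rfl, hlt⟩
  · -- a later block
    have hy : y ≤ -2 := by omega
    have k1 := key (y + (3 * a + 2 * b)) ((mem_fC2 h hp h1 h2 h3 h4).mpr (by omega)) (by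
      rw [mem_RW h hp h1 h2 h3 h4]
      have e2 : i = 1 → rr a b 2 = rr a b (i + 1) := by
        rintro rfl
        norm_num
      omega)
    rw [mem_fC2 h hp h1' h2' h3' h4'] at k1
    omega
  · -- the same block
    have n0 : rr a b (i + 1) ≠ rr a b i := by
      intro e
      have := hp.inj (i + 1) i (by omega) (by omega) h3 (by omega) e
      omega
    have n1 : rr a b (i + 1) ≠ rr a b i' := by
      intro e
      have := hp.inj (i + 1) i' (by omega) (by omega) h3' (by omega) e
      omega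
    have n2 : rr a b (i + 1) ≠ rr a b (i' + 1) := by
      intro e
      have := hp.inj (i + 1) (i' + 1) (by omega) (by omega) (by omega) (by omega) e
      omega
    rcases le_or_gt 0 (y' + 1 + rr a b (i + 1)) with c | c
    · have k1 := key (y' + 1 + rr a b (i + 1)) ((mem_fC2 h hp h1 h2 h3 h4).mpr (by omega)) (by
        rw [mem_RW h hp h1 h2 h3 h4]
        omega)
      rw [mem_fC2 h hp h1' h2' h3' h4'] at k1
      omega
    · have k1 := key (y' + 1 + rr a b (i + 1) + (3 * a + 2 * b))
        ((mem_fC2 h hp h1 h2 h3 h4).mpr (by omega)) (by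
        rw [mem_RW h hp h1 h2 h3 h4]
        omega)
      rw [mem_fC2 h hp h1' h2' h3' h4'] at k1
      omega

end Pool.Agent.H23.AE
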