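import Pool.Agent.H23.AE.ShellSphere
import Pool.Agent.H23.AE.Mem
import Pool.Agent.H23.AE.Path
import Pool.Agent.H23.AE.CSI
import Pool.Agent.H23.AE.ClA
import Pool.Agent.H23.AE.ClQ
import Pool.Agent.H23.AE.ClW
import Pool.Agent.H23.AE.S2A
import Pool.Agent.H23.AE.S2Q
import Pool.Agent.H23.AE.S2WA
import Pool.Agent.H23.AE.S2WQ
import Pool.Agent.H23.AE.S2WW
import Pool.Agent.H23.AE.S3A
import Pool.Agent.H23.AE.S3AW
import Pool.Agent.H23.AE.S3Q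
import Pool.Agent.H23.AE.S3W

/-!
# MP_ae97ec_co, d = 4: `KK a b` is a sphere
-/

namespace Pool.Agent.H23.AE

open Finset Pool.Agent.H30.NZ

theorem h23_nn (a b : ℤ) : nn a b - 1 - (a + b) = 2 * a + b - 1 := by
  unfold nn; ring

theorem h23_ff0 {a b y i : ℤ} : ff a b (0, y, i) = fC a b y i := by
  simp [ff]

theorem h23_ff1 {a b y i : ℤ} : ff a b (1, y, i) = fQ a b y := by
  simp [ff]

theorem h23_ff2 {a b y i : ℤ} : ff a b (2, y, i) = fC a b y i := by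
  simp [ff]

theorem h23_RR0 {a b y i : ℤ} : RR a b (0, y, i) = RA a b y i := by
  simp [RR]

theorem h23_RR1 {a b y i : ℤ} : RR a b (1, y, i) = RQ a b y := by
  simp [RR]

theorem h23_RR2 {a b y i : ℤ} : RR a b (2, y, i) = RW a b y i := by
  simp [RR]

theorem shelling_KK {a b : ℤ} (h : Par a b) (hp : Pth a b) :
    Shelling (Idx a b) (ff a b) (RR a b) rk where
  card := fun t ht => ff_card h hp ht
  sub := fun t ht => RR_sub h hp ht
  inj := fun s hs t ht e => rk_inj h hs ht e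
  closed := by
    rintro ⟨s, y, i⟩ ht x hx
    rw [mem_Idx] at ht
    rcases ht with ⟨rfl, h1, h2, h3, h4⟩ | ⟨rfl, h1, h2, rfl⟩ | ⟨rfl, h1, h2, h3, h4⟩
    · rw [h23_ff0] at hx ⊢
      exact closed_A h hp h1 h2 h3 h4 x hx
    · rw [h23_ff1] at hx ⊢
      exact closed_Q h hp h1 h2 x hx
    · rw [h23_ff2] at hx ⊢
      exact closed_W h hp h1 h2 h3 h4 x hx
  s2 := by
    rintro ⟨s, y, i⟩ ht ⟨s', y', i'⟩ ht' hlt
    rw [mem_Idx] at ht ht'
    rcases ht with ⟨rfl, h1, h2, h3, h4⟩ | ⟨rfl, h1, h2, rfl⟩ | ⟨rfl, h1, h2, h3, h4⟩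
    · rw [h23_RR0]
      rcases ht' with ⟨rfl, h1', h2', h3', h4'⟩ | ⟨rfl, h1', h2', rfl⟩ | ⟨rfl, h1', h2', h3', h4'⟩
      · rw [h23_ff0]
        rw [rk00] at hlt
        exact s2_AA h hp h1 h2 h3 h4 h1' h2' h3' h4' hlt
      · exact absurd hlt (not_lt.2 (le_of_lt rk01))
      · exact absurd hlt (not_lt.2 (le_of_lt rk02))
    · rw [h23_RR1]
      rcases ht' with ⟨rfl, h1', h2', h3', h4'⟩ | ⟨rfl, h1', h2', rfl⟩ | ⟨rfl, h1', h2', h3', h4'⟩
      · rw [h23_ff0]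
        exact s2_QA h hp h1 h2 h1' h2' h3' h4'
      · rw [h23_ff1]
        rw [rk11] at hlt
        exact s2_QQ h h1' hlt h2
      · exact absurd hlt (not_lt.2 (le_of_lt rk12))
    · rw [h23_RR2]
      rcases ht' with ⟨rfl, h1', h2', h3', h4'⟩ | ⟨rfl, h1', h2', rfl⟩ | ⟨rfl, h1', h2', h3', h4'⟩
      · rw [h23_ff0]
        exact s2_WA h hp h1 h2 h3 h4 h1' h2' h3' h4'
      · rw [h23_ff1]
        exact s2_WQ h hp h1 h2 h3 h4 h1' h2'
      · rw [h23_ff2]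
        rw [rk22] at hlt
        exact s2_WW h hp h1 h2 h3 h4 h1' h2' h3' h4' hlt
  s3 := by
    rintro ⟨s, y, i⟩ ht ⟨s', y', i'⟩ ht' hlt
    rw [mem_Idx] at ht ht'
    rcases ht with ⟨rfl, h1, h2, h3, h4⟩ | ⟨rfl, h1, h2, rfl⟩ | ⟨rfl, h1, h2, h3, h4⟩
    · rw [h23_RR0, h23_ff0]
      rcases ht' with ⟨rfl, h1', h2', h3', h4'⟩ | ⟨rfl, h1', h2', rfl⟩ | ⟨rfl, h1', h2', h3', h4'⟩
      · rw [h23_ff0]
        rw [rk00] at hlt
        exact s3_AA h hp h1 h2 h3 h4 h1' h2' h3' h4' (by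
          rcases hlt with h5 | ⟨h5, h6⟩
          · exact Or.inl h5
          · exact Or.inr ⟨h5.symm, h6⟩)
      · rw [h23_ff1]
        exact s3_AQ h hp h1 h2 h3 h4 h1' h2'
      · rw [h23_ff2]
        exact s3_AW h hp h1 h2 h3 h4 h1' h2' h3' h4'
    · rw [h23_RR1, h23_ff1]
      rcases ht' with ⟨rfl, h1', h2', h3', h4'⟩ | ⟨rfl, h1', h2', rfl⟩ | ⟨rfl, h1', h2', h3', h4'⟩
      · exact absurd hlt (not_lt.2 (le_of_lt rk01))
      · rw [h23_ff1]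
        rw [rk11] at hlt
        exact s3_QQ h h1 hlt h2'
      · rw [h23_ff2]
        exact s3_QW h hp h1 h2 h1' h2' h3' h4'
    · rw [h23_RR2, h23_ff2]
      rcases ht' with ⟨rfl, h1', h2', h3', h4'⟩ | ⟨rfl, h1', h2', rfl⟩ | ⟨rfl, h1', h2', h3', h4'⟩
      · exact absurd hlt (not_lt.2 (le_of_lt rk02))
      · exact absurd hlt (not_lt.2 (le_of_lt rk12))
      · rw [h23_ff2]
        rw [rk22] at hlt
        exact s3_WW h hp h1 h2 h3 h4 h1' h2' h3' h4' (by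
          rcases hlt with h5 | ⟨h5, h6⟩
          · exact Or.inl h5
          · exact Or.inr ⟨h5.symm, h6⟩)

theorem isSph_KK {a b : ℤ} (h : Par a b) : IsSph 4 (KK a b) := by
  refine isSph_of_shelling (shelling_KK h (pth_of_par h)) ⟨(1, 0, 0), ?_⟩
  rw [mem_Idx]
  right; left
  have h1 := h.ha
  have h2 := h.hb
  exact ⟨rfl, le_refl _, by omega, rfl⟩

end Pool.Agent.H23.AE
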