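import Pool.Agent.H23.AE.Flip
import Pool.Agent.H23.AE.KFacts
import Pool.Agent.H23.AE.Mem

/-!
# MP_ae97ec_co, d = 4: all odd `v ≥ 7`
-/

namespace Pool.Agent.H23.AE

open Finset Pool.Agent.H30.NZ

namespace OddM

/-- Translation by `t` modulo `n`. -/
def tr (n t : ℤ) (F : Finset ℤ) : Finset ℤ := F.image (fun x => (x + t) % n)

/-- Reduction modulo `n` of a translate. -/
def rd (n x : ℤ) (A : Finset ℤ) : Finset ℤ := A.image (fun z => (x + z) % n)

theorem tr_rd (n t x : ℤ) (A : Finset ℤ) : tr n t (rd n x A) = rd n (x + t) A := by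
  unfold tr rd
  rw [image_image]
  refine image_congr ?_
  intro z _
  simp only [Function.comp_apply, Int.emod_add_emod]
  congr 1
  ring

theorem rd_mod (n x : ℤ) (A : Finset ℤ) : rd n (x % n) A = rd n x A := by
  unfold rd
  refine image_congr ?_
  intro z _
  simp only [Int.emod_add_emod]

theorem tr_tr {n t : ℤ} {F : Finset ℤ} (hF : ∀ x ∈ F, 0 ≤ x ∧ x < n) :
    tr n (-t) (tr n t F) = F := by
  unfold tr
  rw [image_image]
  conv_rhs => rw [← image_id (s := F)]
  refine image_congr ?_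
  intro z hz
  have := hF z hz
  simp only [Function.comp_apply, Int.emod_add_emod, id]
  rw [show z + t + -t = z by ring]
  exact Int.emod_eq_of_lt this.1 this.2

theorem fl_eq (c x : ℤ) : fl c x = {rd (nn 4 c) x {0, 1, 4, 8 + c},
    rd (nn 4 c) x {0, 1, 4 + c, 8 + c}, rd (nn 4 c) x {1, 4, 4 + c, 8 + c}} := by
  unfold fl rd
  simp only [image_insert, image_singleton, add_zero, add_assoc]

theorem flo_eq (c x : ℤ) : flo c x = {rd (nn 4 c) x {0, 1, 4, 4 + c},
    rd (nn 4 c) x {0, 4, 4 + c, 8 + c}} := by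
  unfold flo fQ rd
  simp only [image_insert, image_singleton, add_zero, add_assoc]
  have : (4 : ℤ) + (c + 4) = 8 + c := by ring
  rw [this]

theorem fl_mod (c x : ℤ) : fl c (x % nn 4 c) = fl c x := by
  simp only [fl_eq, rd_mod]

theorem flo_mod (c x : ℤ) : flo c (x % nn 4 c) = flo c x := by
  simp only [flo_eq, rd_mod]

theorem fl_tr {c x t : ℤ} {F : Finset ℤ} (h : F ∈ fl c x) : tr (nn 4 c) t F ∈ fl c (x + t) := by
  simp only [fl_eq, mem_insert, mem_singleton] at h ⊢
  rcases h with h | h | h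
  · left; rw [h, tr_rd]
  · right; left; rw [h, tr_rd]
  · right; right; rw [h, tr_rd]

theorem flo_tr {c x t : ℤ} {F : Finset ℤ} (h : F ∈ flo c x) : tr (nn 4 c) t F ∈ flo c (x + t) := by
  simp only [flo_eq, mem_insert, mem_singleton] at h ⊢
  rcases h with h | h
  · left; rw [h, tr_rd]
  · right; rw [h, tr_rd]

theorem bi {n : ℤ} {m : ℕ} (hn : 0 < n) (hm : (m : ℤ) = n) {f : ℤ → Cx}
    (hf : ∀ x, f (x % n) = f x) {F : Finset ℤ} :
    F ∈ (range m).biUnion (fun x => f (x : ℤ)) ↔ ∃ x : ℤ, F ∈ f x := by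
  simp only [mem_biUnion, mem_range]
  constructor
  · rintro ⟨x, _, h⟩
    exact ⟨x, h⟩
  · rintro ⟨x, h⟩
    have h1 := Int.emod_nonneg x hn.ne'
    have h2 := Int.emod_lt_of_pos x hn
    refine ⟨(x % n).toNat, by omega, ?_⟩
    rw [Int.toNat_of_nonneg h1, hf]
    exact h

theorem mem_FK {c : ℤ} {m : ℕ} (hc : 1 ≤ c) (hm : (m : ℤ) = nn 4 c) {F : Finset ℤ} :
    F ∈ FK c m ↔ (F ∈ KK 4 c ∧ ∀ x, F ∉ flo c x) ∨ ∃ x, F ∈ fl c x := by
  have hn : 0 < nn 4 c := by unfold nn; omega
  unfold FK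
  rw [mem_union, mem_sdiff, bi hn hm (flo_mod c), bi hn hm (fl_mod c), not_exists]

end OddM

open OddM

theorem csn_odd {v : ℕ} (hv : 7 ≤ v) (ho : Odd v) : ∃ K, CSN v K := by
  obtain ⟨c, hcv⟩ : ∃ c : ℤ, (v : ℤ) = c + 6 := ⟨(v : ℤ) - 6, by ring⟩
  have hc : 1 ≤ c := by omega
  have hco : Odd c := by
    obtain ⟨k, hk⟩ := ho
    exact ⟨(k : ℤ) - 3, by omega⟩
  have hpar : Par 4 c := by
    refine ⟨by norm_num, hc, by omega, ?_, ?_⟩
    · intro e
      obtain ⟨k, hk⟩ := hco
      omega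
    · obtain ⟨k, hk⟩ := hco
      rcases Int.even_or_odd' k with ⟨j, hj | hj⟩
      · exact ⟨-j, 1, by rw [hk, hj]; ring⟩
      · exact ⟨j + 1, -1, by rw [hk, hj]; ring⟩
  have en : 3 * (4 : ℤ) + 2 * c = 2 * (v : ℤ) := by omega
  have hn : nn 4 c = 2 * (v : ℤ) := by unfold nn; omega
  have hm : ((2 * v : ℕ) : ℤ) = nn 4 c := by rw [hn]; push_cast; ring
  have hn0 : 0 < nn 4 c := by rw [hn]; omega
  have hflv : ∀ x, ∀ F ∈ fl c x, ∀ y ∈ F, 0 ≤ y ∧ y < nn 4 c := by
    intro x F hF y hy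
    have key : ∀ A, y ∈ rd (nn 4 c) x A → 0 ≤ y ∧ y < nn 4 c := by
      intro A h
      obtain ⟨z, _, rfl⟩ := mem_image.1 h
      exact ⟨Int.emod_nonneg _ hn0.ne', Int.emod_lt_of_pos _ hn0⟩
    simp only [fl_eq, mem_insert, mem_singleton] at hF
    rcases hF with rfl | rfl | rfl
    · exact key _ hy
    · exact key _ hy
    · exact key _ hy
  have hKv : ∀ F ∈ KK 4 c, ∀ x ∈ F, 0 ≤ x ∧ x < nn 4 c := by
    intro F hF x hx
    have := KK_vert hpar F hF x hx
    unfold nn
    exact this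
  refine ⟨FK c (2 * v), isSph_FK hc hco (le_of_eq hm), ?_, ?_, ?_, ?_⟩
  · intro F hF x hx
    rw [mem_FK hc hm] at hF
    rcases hF with ⟨h, _⟩ | ⟨z, h⟩
    · have := hKv F h x hx
      omega
    · have := hflv z F h x hx
      omega
  · intro F hF
    rw [mem_FK hc hm] at hF ⊢
    rw [← hn]
    rcases hF with ⟨h, h'⟩ | ⟨z, h⟩
    · left
      refine ⟨?_, ?_⟩
      · have := KK_rot hpar F h
        rwa [en, ← hn] at this
      · intro x hx
        have := flo_tr (t := -1) hx
        rw [show F.image (fun x => (x + 1) % nn 4 c) = tr (nn 4 c) 1 F from rfl,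
          tr_tr (hKv F h)] at this
        exact h' _ this
    · right
      exact ⟨z + 1, fl_tr (t := 1) h⟩
  · intro F hF x hx y hy e
    rw [mem_FK hc hm] at hF
    rcases hF with ⟨h, _⟩ | ⟨z, h⟩
    · have := KK_anti hpar F h x hx y hy (by omega)
      omega
    · obtain ⟨z', h0, h1, h2⟩ : ∃ z', 0 ≤ z' ∧ z' < nn 4 c ∧ F ∈ fl c z' :=
        ⟨z % nn 4 c, Int.emod_nonneg _ hn0.ne', Int.emod_lt_of_pos _ hn0, by rwa [fl_mod]⟩
      simp only [fl_eq, mem_insert, mem_singleton] at h2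
      rcases h2 with rfl | rfl | rfl
      all_goals
        simp only [rd, mem_image, mem_insert, mem_singleton, exists_eq_or_imp, exists_eq_left] at hx hy
        rw [mem_emod hn0 (by omega) (by omega), mem_emod hn0 (by omega) (by omega),
          mem_emod hn0 (by omega) (by omega), mem_emod hn0 (by omega) (by omega)] at hx hy
        omega
  · intro x y hx hxy hy hne
    by_cases hd : y - x ≤ 4 + c ∨ 2 * (v : ℤ) - (4 + c) ≤ y - x
    · obtain ⟨F, hF, hxF, hyF⟩ := KK_nbr hpar x y hx hxy (by omega) (by omega)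
      by_cases hf : ∀ z, F ∉ flo c z
      · exact ⟨F, (mem_FK hc hm).2 (Or.inl ⟨hF, hf⟩), hxF, hyF⟩
      · push Not at hf
        obtain ⟨z, hz⟩ := hf
        have key : ∀ A ∈ ({{0, 1, 4, 8 + c}, {0, 1, 4 + c, 8 + c}, {1, 4, 4 + c, 8 + c}} :
            Finset (Finset ℤ)), ∀ p ∈ A, ∀ q ∈ A, x = (z + p) % nn 4 c → y = (z + q) % nn 4 c →
            ∃ F ∈ FK c (2 * v), x ∈ F ∧ y ∈ F := by
          intro A hA p hp q hq ex ey
          refine ⟨rd (nn 4 c) z A, (mem_FK hc hm).2 (Or.inr ⟨z, ?_⟩), ?_, ?_⟩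
          · simp only [fl_eq, mem_insert, mem_singleton] at hA ⊢
            rcases hA with rfl | rfl | rfl
            · left; rfl
            · right; left; rfl
            · right; right; rfl
          · rw [ex]; exact mem_image_of_mem _ hp
          · rw [ey]; exact mem_image_of_mem _ hq
        have hxy' : x ≠ y := by omega
        simp only [flo_eq, mem_insert, mem_singleton] at hz
        rcases hz with rfl | rfl
        all_goals
          obtain ⟨p, hp, ep⟩ := mem_image.1 hxF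
          obtain ⟨q, hq, eq⟩ := mem_image.1 hyF
          simp only [mem_insert, mem_singleton] at hp hq
          have hpq : p ≠ q := by
            rintro rfl
            exact hxy' (ep.symm.trans eq)
        · rcases hp with rfl | rfl | rfl | rfl <;> rcases hq with rfl | rfl | rfl | rfl <;>
            first
              | exact absurd rfl hpq
              | (refine key {0, 1, 4, 8 + c} ?_ _ ?_ _ ?_ ep.symm eq.symm <;> simp; done)
              | (refine key {0, 1, 4 + c, 8 + c} ?_ _ ?_ _ ?_ ep.symm eq.symm <;> simp; done)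
              | (refine key {1, 4, 4 + c, 8 + c} ?_ _ ?_ _ ?_ ep.symm eq.symm <;> simp; done)
        · rcases hp with rfl | rfl | rfl | rfl <;> rcases hq with rfl | rfl | rfl | rfl <;>
            first
              | exact absurd rfl hpq
              | (refine key {0, 1, 4, 8 + c} ?_ _ ?_ _ ?_ ep.symm eq.symm <;> simp; done)
              | (refine key {0, 1, 4 + c, 8 + c} ?_ _ ?_ _ ?_ ep.symm eq.symm <;> simp; done)
              | (refine key {1, 4, 4 + c, 8 + c} ?_ _ ?_ _ ?_ ep.symm eq.symm <;> simp; done)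
    · have hcase : y - x = v - 1 ∨ y - x = v + 1 := by omega
      rcases hcase with h | h
      · refine ⟨rd (nn 4 c) (y - 1) {0, 1, 4, 8 + c},
          (mem_FK hc hm).2 (Or.inr ⟨y - 1, by simp [fl_eq]⟩), ?_, ?_⟩
        · refine mem_image.2 ⟨8 + c, by simp, ?_⟩
          rw [mem_emod hn0 (by omega) (by omega)]
          omega
        · refine mem_image.2 ⟨1, by simp, ?_⟩
          rw [mem_emod hn0 (by omega) (by omega)]
          omega
      · refine ⟨rd (nn 4 c) (x - 1) {0, 1, 4, 8 + c},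
          (mem_FK hc hm).2 (Or.inr ⟨x - 1, by simp [fl_eq]⟩), ?_, ?_⟩
        · refine mem_image.2 ⟨1, by simp, ?_⟩
          rw [mem_emod hn0 (by omega) (by omega)]
          omega
        · refine mem_image.2 ⟨8 + c, by simp, ?_⟩
          rw [mem_emod hn0 (by omega) (by omega)]
          omega

end Pool.Agent.H23.AE
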