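import Pool.Agent.H23.AE.Mem

/-!
# MP_ae97ec_co, d = 4: condition (s3) for the core facets
-/

namespace Pool.Agent.H23.AE

open Finset Pool.Agent.H30.NZ

theorem S3Q_mem_sd {a b k v : ℤ} (h : Par a b) (h1 : 0 ≤ k) (h2 : k ≤ 3 * a + 2 * b - 1)
    (hv : 0 ≤ v ∧ v < 3 * a + 2 * b ∧
      (v = k ∨ v = k + a ∨ v = k + a + b ∨ v = k + a + b + a ∨ v + (3 * a + 2 * b) = k + a ∨
        v + (3 * a + 2 * b) = k + a + b ∨ v + (3 * a + 2 * b) = k + a + b + a))
    (hR : v ∉ RQ a b k) : v ∈ fQ a b k \ RQ a b k :=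
  mem_sdiff.2 ⟨(mem_fQ h h1 h2).2 hv, hR⟩

theorem s3_QQ {a b k k' : ℤ} (h : Par a b) (h1 : 0 ≤ k) (hlt : k < k')
    (h2 : k' ≤ 3 * a + 2 * b - 1) : ¬ (fQ a b k \ RQ a b k) ⊆ fQ a b k' := by
  intro hs
  have ha := h.ha
  have hb := h.hb
  have hN := h.hN
  have hne := h.ne
  have hk : k ≤ 3 * a + 2 * b - 1 := by omega
  have h1' : 0 ≤ k' := by omega
  rcases le_or_gt k (a + b - 1) with c1 | c1
  · have e1 := (mem_fQ h h1' h2).1 (hs (S3Q_mem_sd (v := k + a) h h1 hk (by omega)
      (by simp only [RQ, if_pos c1, mem_insert, mem_singleton]; omega)))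
    have e2 := (mem_fQ h h1' h2).1 (hs (S3Q_mem_sd (v := k + a + b) h h1 hk (by omega)
      (by simp only [RQ, if_pos c1, mem_insert, mem_singleton]; omega)))
    omega
  rcases le_or_gt k (a + b + a - 1) with c2 | c2
  · have e1 := (mem_fQ h h1' h2).1 (hs (S3Q_mem_sd (v := k) h h1 hk (by omega)
      (by simp only [RQ, if_neg (not_le.2 c1), if_pos c2, mem_insert, mem_singleton]; omega)))
    have e2 := (mem_fQ h h1' h2).1 (hs (S3Q_mem_sd (v := k + a) h h1 hk (by omega)
      (by simp only [RQ, if_neg (not_le.2 c1), if_pos c2, mem_insert, mem_singleton]; omega)))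
    omega
  rcases le_or_gt k (nn a b - a - 1) with c3 | c3
  · have c3' : k ≤ 3 * a + 2 * b - a - 1 := c3
    have e1 := (mem_fQ h h1' h2).1 (hs (S3Q_mem_sd (v := k) h h1 hk (by omega)
      (by simp only [RQ, if_neg (not_le.2 c1), if_neg (not_le.2 c2), if_pos c3, mem_insert,
            mem_singleton]; omega)))
    have e2 := (mem_fQ h h1' h2).1 (hs (S3Q_mem_sd (v := k - (a + b)) h h1 hk (by omega)
      (by simp only [RQ, if_neg (not_le.2 c1), if_neg (not_le.2 c2), if_pos c3, mem_insert,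
            mem_singleton]; omega)))
    omega
  · have c3' : 3 * a + 2 * b - a - 1 < k := c3
    have e2 := (mem_fQ h h1' h2).1 (hs (S3Q_mem_sd (v := k - (a + b)) h h1 hk (by omega)
      (by simp only [RQ, nn, if_neg (not_le.2 c1), if_neg (not_le.2 c2), if_neg (not_le.2 c3'),
            mem_insert, mem_singleton]; omega)))
    omega

theorem s3_QW {a b k y i : ℤ} (h : Par a b) (hp : Pth a b) (h1 : 0 ≤ k)
    (h2 : k ≤ 3 * a + 2 * b - 1) (h1' : -(a + b) ≤ y)
    (h2' : y ≤ -1) (h3' : 1 ≤ i) (h4' : i ≤ a + b - 2) :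
    ¬ (fQ a b k \ RQ a b k) ⊆ fC a b y i := by
  intro hs
  have ha := h.ha
  have hb := h.hb
  have hN := h.hN
  have hne := h.ne
  have hr := hp.range i h3' (by omega)
  have hr' := hp.range (i + 1) (by omega) (by omega)
  have hst := hp.step i h3' h4'
  rcases le_or_gt k (a + b - 1) with c1 | c1
  · have e1 := (mem_fC2 h hp h1' h2' h3' h4').1 (hs (S3Q_mem_sd (v := k + a) h h1 h2 (by omega)
      (by simp only [RQ, if_pos c1, mem_insert, mem_singleton]; omega)))
    have e2 := (mem_fC2 h hp h1' h2' h3' h4').1 (hs (S3Q_mem_sd (v := k + a + b) h h1 h2 (by omega)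
      (by simp only [RQ, if_pos c1, mem_insert, mem_singleton]; omega)))
    omega
  rcases le_or_gt k (a + b + a - 1) with c2 | c2
  · have e1 := (mem_fC2 h hp h1' h2' h3' h4').1 (hs (S3Q_mem_sd (v := k) h h1 h2 (by omega)
      (by simp only [RQ, if_neg (not_le.2 c1), if_pos c2, mem_insert, mem_singleton]; omega)))
    have e2 := (mem_fC2 h hp h1' h2' h3' h4').1 (hs (S3Q_mem_sd (v := k + a) h h1 h2 (by omega)
      (by simp only [RQ, if_neg (not_le.2 c1), if_pos c2, mem_insert, mem_singleton]; omega)))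
    omega
  rcases le_or_gt k (nn a b - a - 1) with c3 | c3
  · have c3' : k ≤ 3 * a + 2 * b - a - 1 := c3
    have e1 := (mem_fC2 h hp h1' h2' h3' h4').1 (hs (S3Q_mem_sd (v := k) h h1 h2 (by omega)
      (by simp only [RQ, if_neg (not_le.2 c1), if_neg (not_le.2 c2), if_pos c3, mem_insert,
            mem_singleton]; omega)))
    have e2 := (mem_fC2 h hp h1' h2' h3' h4').1 (hs (S3Q_mem_sd (v := k - (a + b)) h h1 h2
      (by omega)
      (by simp only [RQ, if_neg (not_le.2 c1), if_neg (not_le.2 c2), if_pos c3, mem_insert,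
            mem_singleton]; omega)))
    omega
  · have c3' : 3 * a + 2 * b - a - 1 < k := c3
    have e2 := (mem_fC2 h hp h1' h2' h3' h4').1 (hs (S3Q_mem_sd (v := k - (a + b)) h h1 h2
      (by omega)
      (by simp only [RQ, nn, if_neg (not_le.2 c1), if_neg (not_le.2 c2), if_neg (not_le.2 c3'),
            mem_insert, mem_singleton]; omega)))
    omega

end Pool.Agent.H23.AE
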