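import Pool.Agent.H23.AE.Bist
import Pool.Agent.H30.NZ.Comb
import Pool.Agent.H30.NZ.PL1

/-!
# A shelled closed complex is a sphere

For an initial segment `J` of the shelling, `sst f J u` is the union of the facets `f j`, `j ∈ J`,
and of the cone with apex `u` over the boundary `sbd f J` of their union. Adding the next facet
`f i` is the bistellar move at `G = insert u (f i)` with `R = R i`.
-/

namespace Pool.Agent.H23.AE

open Finset Pool.Agent.H30.NZ

open Classical in
/-- The ridges in a unique facet `f j`, `j ∈ J`. -/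
noncomputable def sbd {ι : Type} (f : ι → Finset ℤ) (J : Finset ι) : Cx :=
  (J.biUnion (fun i => (f i).image (fun x => (f i).erase x))).filter
    (fun E => ∀ j ∈ J, ∀ j' ∈ J, E ⊆ f j → E ⊆ f j' → j = j')

/-- The facets of `J` and the cone over their boundary. -/
noncomputable def sst {ι : Type} (f : ι → Finset ℤ) (J : Finset ι) (u : ℤ) : Cx :=
  J.image f ∪ cone u (sbd f J)

theorem mem_sbd {ι : Type} {f : ι → Finset ℤ} {J : Finset ι} {E : Finset ℤ} :
    E ∈ sbd f J ↔ (∃ i ∈ J, ∃ x ∈ f i, (f i).erase x = E) ∧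
      ∀ j ∈ J, ∀ j' ∈ J, E ⊆ f j → E ⊆ f j' → j = j' := by
  classical
  unfold sbd
  rw [mem_filter]
  simp only [mem_biUnion, mem_image]

/-- A ridge of a 4-element facet which lies in another facet is a ridge of the latter. -/
theorem ss_ridge {A B E : Finset ℤ} {x : ℤ} (hA : A.card = 4) (hB : B.card = 4) (hx : x ∈ A)
    (hE : A.erase x = E) (h : E ⊆ B) : ∃ y ∈ B, B.erase y = E := by
  have hc : E.card = 3 := by rw [← hE, card_erase_of_mem hx, hA]
  have h1 : (B \ E).card = 1 := by rw [card_sdiff_of_subset h, hB, hc]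
  obtain ⟨y, hy⟩ := card_eq_one.mp h1
  have hyB : y ∈ B \ E := by rw [hy]; exact mem_singleton_self y
  refine ⟨y, (mem_sdiff.mp hyB).1, ?_⟩
  symm
  apply eq_of_subset_of_card_le
  · intro z hz
    refine mem_erase.mpr ⟨?_, h hz⟩
    rintro rfl
    exact (mem_sdiff.mp hyB).2 hz
  · rw [card_erase_of_mem (mem_sdiff.mp hyB).1, hB, hc]

section

variable {ι α : Type} [LinearOrder α] {I : Finset ι} {f R : ι → Finset ℤ} {ρ : ι → α}

/-- If `E = f i` minus `x` with `x ∈ R i`, no later facet contains `E`. -/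
theorem ss_later (h : Shelling I f R ρ) {i j : ι} (hi : i ∈ I) (hj : j ∈ I) {x : ℤ}
    (hx : x ∈ R i) (hlt : ρ i < ρ j) : ¬ (f i).erase x ⊆ f j := by
  intro hs
  apply h.s3 i hi j hj hlt
  intro z hz
  rw [mem_sdiff] at hz
  apply hs
  refine mem_erase.mpr ⟨?_, hz.1⟩
  rintro rfl
  exact hz.2 hx

/-- If `E = f i` minus `x` with `x ∉ R i`, no earlier facet contains `E`. -/
theorem ss_earlier (h : Shelling I f R ρ) {i j : ι} (hi : i ∈ I) (hj : j ∈ I) {x : ℤ}
    (hx : x ∉ R i) (hlt : ρ j < ρ i) : ¬ (f i).erase x ⊆ f j := by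
  intro hs
  apply h.s2 i hi j hj hlt
  intro z hz
  apply hs
  refine mem_erase.mpr ⟨?_, h.sub i hi hz⟩
  rintro rfl
  exact hx hz

/-- A ridge is not in three facets. -/
theorem ss_three (h : Shelling I f R ρ) {i j k : ι} (hi : i ∈ I) (hj : j ∈ I) (hk : k ∈ I)
    {E : Finset ℤ} {x : ℤ} (hE : (f j).erase x = E) (h1 : E ⊆ f i)
    (h3 : E ⊆ f k) (h12 : ρ i < ρ j) (h23 : ρ j < ρ k) : False := by
  by_cases hR : x ∈ R j
  · exact ss_later h hj hk hR h23 (hE ▸ h3)
  · exact ss_earlier h hj hi hR h12 (hE ▸ h1)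

/-- Two different earlier facets do not both contain a ridge of `f i`. -/
theorem ss_two (h : Shelling I f R ρ) {i j k : ι} (hi : i ∈ I) (hj : j ∈ I) (hk : k ∈ I)
    {x : ℤ} (hx : x ∈ f i) (hji : ρ j < ρ i) (hki : ρ k < ρ i) (h1 : (f i).erase x ⊆ f j)
    (h2 : (f i).erase x ⊆ f k) : j = k := by
  rcases lt_trichotomy (ρ j) (ρ k) with hlt | he | hlt
  · obtain ⟨y, hy, hE⟩ := ss_ridge (h.card i hi) (h.card k hk) hx rfl h2
    exact (ss_three h hj hk hi hE h1 (erase_subset _ _) hlt hki).elim
  · exact h.inj j hj k hk he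
  · obtain ⟨y, hy, hE⟩ := ss_ridge (h.card i hi) (h.card j hj) hx rfl h1
    exact (ss_three h hk hj hi hE h2 (erase_subset _ _) hlt hji).elim

/-- The boundary after adding a facet. -/
theorem sbd_insert (h : Shelling I f R ρ) [DecidableEq ι] {J : Finset ι} {i : ι} (hJ : J ⊆ I)
    (hi : i ∈ I) (hiJ : ∀ j ∈ J, ρ j < ρ i) (hall : ∀ j ∈ I, ρ j < ρ i → j ∈ J) :
    sbd f (insert i J) = (sbd f J \ part (f i) (R i)) ∪ part (f i) (f i \ R i) := by
  ext E
  simp only [mem_union, mem_sdiff, part, mem_image]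
  rw [mem_sbd, mem_sbd]
  constructor
  · rintro ⟨⟨k, hk, x, hx, hE⟩, hu⟩
    rcases mem_insert.mp hk with rfl | hkJ
    · by_cases hR : x ∈ R k
      · exfalso
        obtain ⟨j, hj, hne, hs⟩ := h.closed k hi x hx
        have hlt : ρ j < ρ k := by
          rcases lt_trichotomy (ρ j) (ρ k) with hlt | he | hlt
          · exact hlt
          · exact (hne (h.inj j hj k hi he)).elim
          · exact (ss_later h hi hj hR hlt hs).elim
        apply hne
        apply hu j (mem_insert_of_mem (hall j hj hlt)) k hk (hE ▸ hs)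
        rw [← hE]
        exact erase_subset _ _
      · exact Or.inr ⟨x, ⟨hx, hR⟩, hE⟩
    · left
      refine ⟨⟨⟨k, hkJ, x, hx, hE⟩, ?_⟩, ?_⟩
      · intro j hj j' hj' h1 h2
        exact hu j (mem_insert_of_mem hj) j' (mem_insert_of_mem hj') h1 h2
      · rintro ⟨y, hy, hE2⟩
        have h1 : E ⊆ f i := by rw [← hE2]; exact erase_subset _ _
        have h2 : E ⊆ f k := by rw [← hE]; exact erase_subset _ _
        have h3 := hu i (mem_insert_self i J) k hk h1 h2
        subst h3
        exact (hiJ i hkJ).ne rfl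
  · rintro (⟨⟨⟨k, hk, x, hx, hE⟩, hu⟩, hn⟩ | ⟨x, ⟨hx, hR⟩, hE⟩)
    · have hEi : ¬ E ⊆ f i := by
        intro hs
        obtain ⟨y, hy, hE2⟩ := ss_ridge (h.card k (hJ hk)) (h.card i hi) hx hE hs
        by_cases hR : y ∈ R i
        · exact hn ⟨y, hR, hE2⟩
        · refine ss_earlier h hi (hJ hk) hR (hiJ k hk) ?_
          rw [hE2, ← hE]
          exact erase_subset _ _
      refine ⟨⟨k, mem_insert_of_mem hk, x, hx, hE⟩, ?_⟩
      intro j hj j' hj' h1 h2
      rcases mem_insert.mp hj with rfl | hj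
      · exact (hEi h1).elim
      rcases mem_insert.mp hj' with rfl | hj'
      · exact (hEi h2).elim
      exact hu j hj j' hj' h1 h2
    · have hno : ∀ j ∈ J, ¬ E ⊆ f j := by
        intro j hj hs
        exact ss_earlier h hi (hJ hj) hR (hiJ j hj) (hE ▸ hs)
      refine ⟨⟨i, mem_insert_self i J, x, hx, hE⟩, ?_⟩
      intro j hj j' hj' h1 h2
      rcases mem_insert.mp hj with rfl | hj
      · rcases mem_insert.mp hj' with rfl | hj'
        · rfl
        · exact (hno j' hj' h2).elim
      · exact (hno j hj h1).elim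

theorem sbd_sub {J : Finset ι} {E : Finset ℤ} (hE : E ∈ sbd f J) : ∃ k ∈ J, E ⊆ f k := by
  obtain ⟨⟨k, hk, x, -, rfl⟩, -⟩ := mem_sbd.mp hE
  exact ⟨k, hk, erase_subset _ _⟩

/-- The facets removed by the bistellar move at `insert u F`. -/
theorem ss_part_R {F T : Finset ℤ} {u : ℤ} (hu : u ∉ T) :
    part (insert u F) T = cone u (part F T) := by
  unfold part cone
  rw [image_image]
  apply image_congr
  intro x hx
  have : u ≠ x := by rintro rfl; exact hu hx
  exact erase_insert_of_ne this

theorem ss_part_C {F T : Finset ℤ} {u : ℤ} (hu : u ∉ F) (hT : T ⊆ F) :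
    part (insert u F) (insert u F \ T) = insert F (cone u (part F (F \ T))) := by
  have hu' : u ∉ T := fun h => hu (hT h)
  rw [insert_sdiff_of_notMem F hu']
  unfold part
  rw [image_insert, erase_insert hu]
  congr 1
  exact ss_part_R (fun h => hu (mem_sdiff.mp h).1)

/-- Facets of `J` are not in the cone with a new apex. -/
theorem ss_not_mem_cone {F : Finset ℤ} {u : ℤ} {K : Cx} (hu : u ∉ F) : F ∉ cone u K := by
  intro hF
  obtain ⟨E, -, rfl⟩ := mem_image.mp hF
  exact hu (mem_insert_self u E)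

/-- Adding a facet is a bistellar move. -/
theorem sst_insert (h : Shelling I f R ρ) [DecidableEq ι] {J : Finset ι} {i : ι} (hJ : J ⊆ I)
    (hi : i ∈ I) (hiJ : ∀ j ∈ J, ρ j < ρ i) (hall : ∀ j ∈ I, ρ j < ρ i → j ∈ J) {u : ℤ}
    (hu : ∀ i ∈ I, u ∉ f i) :
    sst f (insert i J) u = (sst f J u \ part (insert u (f i)) (R i)) ∪
      part (insert u (f i)) (insert u (f i) \ R i) := by
  have huR : u ∉ R i := fun hh => hu i hi (h.sub i hi hh)
  rw [ss_part_R huR, ss_part_C (hu i hi) (h.sub i hi)]
  unfold sst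
  rw [sbd_insert h hJ hi hiJ hall, cone_union, cone_sdiff, image_insert, union_sdiff_distrib]
  · have h1 : J.image f \ cone u (part (f i) (R i)) = J.image f := by
      apply sdiff_eq_self_of_disjoint
      rw [disjoint_left]
      intro F hF
      obtain ⟨j, hj, rfl⟩ := mem_image.mp hF
      exact ss_not_mem_cone (hu j (hJ hj))
    rw [h1]
    ext F
    simp only [mem_union, mem_insert]
    tauto
  · intro hh
    obtain ⟨E, hE, huE⟩ := h83_mem_vts.mp hh
    obtain ⟨k, hk, hs⟩ := sbd_sub hE
    exact hu k (hJ hk) (hs huE)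
  · intro hh
    obtain ⟨E, hE, huE⟩ := h83_mem_vts.mp hh
    obtain ⟨x, hx, rfl⟩ := mem_image.mp hE
    exact hu i hi (mem_erase.mp huE).2

theorem sst_step (h : Shelling I f R ρ) [DecidableEq ι] {J : Finset ι} {i : ι} (hJ : J ⊆ I)
    (hne : J.Nonempty)
    (hi : i ∈ I) (hiJ : ∀ j ∈ J, ρ j < ρ i) (hall : ∀ j ∈ I, ρ j < ρ i → j ∈ J) {u : ℤ}
    (hu : ∀ i ∈ I, u ∉ f i) (hS : IsSph 4 (sst f J u)) : IsSph 4 (sst f (insert i J) u) := by
  have huR : u ∉ R i := fun hh => hu i hi (h.sub i hi hh)
  rw [sst_insert h hJ hi hiJ hall hu]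
  apply isSph_bist hS
  · exact (h.sub i hi).trans (subset_insert _ _)
  · rw [nonempty_iff_ne_empty]
    intro he
    obtain ⟨j, hj⟩ := hne
    apply h.s2 i hi j (hJ hj) (hiJ j hj)
    rw [he]
    exact empty_subset _
  · intro he
    apply huR
    rw [he]
    exact mem_insert_self _ _
  · intro x hx
    have hxf : x ∈ f i := h.sub i hi hx
    have hxu : u ≠ x := by rintro rfl; exact huR hx
    rw [erase_insert_of_ne hxu]
    unfold sst
    rw [mem_union]
    right
    apply mem_image_of_mem
    rw [mem_sbd]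
    obtain ⟨j, hj, hjne, hs⟩ := h.closed i hi x hxf
    have hlt : ρ j < ρ i := by
      rcases lt_trichotomy (ρ j) (ρ i) with hlt | he | hlt
      · exact hlt
      · exact (hjne (h.inj j hj i hi he)).elim
      · exact (ss_later h hi hj hx hlt hs).elim
    obtain ⟨y, hy, hE⟩ := ss_ridge (h.card i hi) (h.card j hj) hxf rfl hs
    refine ⟨⟨j, hall j hj hlt, y, hy, hE⟩, ?_⟩
    intro k hk k' hk' h1 h2
    exact ss_two h hi (hJ hk) (hJ hk') hxf (hiJ k hk) (hiJ k' hk') h1 h2
  · intro F hF hs
    have huF : u ∈ F := by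
      apply hs
      rw [mem_sdiff]
      exact ⟨mem_insert_self _ _, huR⟩
    unfold sst at hF
    rw [mem_union] at hF
    rcases hF with hF | hF
    · obtain ⟨j, hj, rfl⟩ := mem_image.mp hF
      exact (hu j (hJ hj) huF).elim
    obtain ⟨E, hE, rfl⟩ := mem_image.mp hF
    have hE' := mem_sbd.mp hE
    obtain ⟨⟨k, hk, x, hx, hEk⟩, huq⟩ := hE'
    have hfE : f i \ R i ⊆ E := by
      intro z hz
      rw [mem_sdiff] at hz
      have h1 : z ∈ insert u E := by
        apply hs
        rw [mem_sdiff]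
        exact ⟨mem_insert_of_mem hz.1, hz.2⟩
      rcases mem_insert.mp h1 with rfl | h1
      · exact (hu i hi hz.1).elim
      · exact h1
    obtain ⟨j, hj, hjne, hs2⟩ := h.closed k (hJ hk) x hx
    rw [hEk] at hs2
    have hjJ : j ∉ J := by
      intro hjJ
      apply hjne
      apply huq j hjJ k hk hs2
      rw [← hEk]
      exact erase_subset _ _
    have hji : ¬ ρ j < ρ i := fun hlt => hjJ (hall j hj hlt)
    rcases lt_trichotomy (ρ j) (ρ i) with hlt | he | hlt
    · exact (hji hlt).elim
    · have hji' := h.inj j hj i hi he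
      subst hji'
      obtain ⟨y, hy, hE2⟩ := ss_ridge (h.card k (hJ hk)) (h.card j hj) hx hEk hs2
      have hyR : y ∈ R j := by
        by_contra hyR
        have h2 : y ∈ E := hfE (mem_sdiff.mpr ⟨hy, hyR⟩)
        rw [← hE2] at h2
        exact (mem_erase.mp h2).1 rfl
      refine ⟨y, hyR, ?_⟩
      have hyu : u ≠ y := by rintro rfl; exact huR hyR
      rw [erase_insert_of_ne hyu, hE2]
    · exact (h.s3 i hi j hj hlt (hfE.trans hs2)).elim
  · intro F hF hs
    unfold sst at hF
    rw [mem_union] at hF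
    rcases hF with hF | hF
    · obtain ⟨j, hj, rfl⟩ := mem_image.mp hF
      exact h.s2 i hi j (hJ hj) (hiJ j hj) hs
    · obtain ⟨E, hE, rfl⟩ := mem_image.mp hF
      obtain ⟨k, hk, hsk⟩ := sbd_sub hE
      apply h.s2 i hi k (hJ hk) (hiJ k hk)
      intro z hz
      rcases mem_insert.mp (hs hz) with rfl | h1
      · exact (huR hz).elim
      · exact hsk h1

theorem sst_single [DecidableEq ι] {i : ι} {u : ℤ} (hu : u ∉ f i) (hc : (f i).card = 4) :
    IsSph 4 (sst f {i} u) := by
  refine ⟨insert u (f i), ?_, id, id, ?_⟩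
  · rw [card_insert_of_notMem hu, hc]
  · have : sst f {i} u = bsimp (insert u (f i)) := by
      unfold sst bsimp
      rw [image_singleton, image_insert, erase_insert hu]
      have h1 : cone u (sbd f {i}) = (f i).image (fun x => (insert u (f i)).erase x) := by
        unfold cone
        ext F
        simp only [mem_image]
        constructor
        · rintro ⟨E, hE, rfl⟩
          obtain ⟨⟨k, hk, x, hx, rfl⟩, -⟩ := mem_sbd.mp hE
          rw [mem_singleton] at hk
          subst hk
          refine ⟨x, hx, ?_⟩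
          apply erase_insert_of_ne
          rintro rfl
          exact hu hx
        · rintro ⟨x, hx, rfl⟩
          refine ⟨(f i).erase x, ?_, ?_⟩
          · rw [mem_sbd]
            refine ⟨⟨i, mem_singleton_self i, x, hx, rfl⟩, ?_⟩
            intro j hj j' hj' _ _
            rw [mem_singleton] at hj hj'
            rw [hj, hj']
          · symm
            apply erase_insert_of_ne
            rintro rfl
            exact hu hx
      rw [h1]
      rfl
    rw [this]
    exact plh_refl _

end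

theorem isSph_of_shelling {ι α : Type} [LinearOrder α] {I : Finset ι} {f R : ι → Finset ℤ}
    {ρ : ι → α} (h : Shelling I f R ρ) (hne : I.Nonempty) : IsSph 4 (I.image f) := by
  classical
  obtain ⟨u, hu⟩ := Infinite.exists_notMem_finset (I.biUnion f)
  have hu' : ∀ i ∈ I, u ∉ f i := by
    intro i hi hh
    exact hu (mem_biUnion.mpr ⟨i, hi, hh⟩)
  have key : ∀ J : Finset ι, J ⊆ I → (∀ i ∈ J, ∀ j ∈ I, ρ j < ρ i → j ∈ J) → J.Nonempty →
      IsSph 4 (sst f J u) := by
    intro J
    induction J using Finset.induction_on_max_value ρ with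
    | empty => intro _ _ hn; exact (not_nonempty_empty hn).elim
    | insert a s ha hmax ih =>
      intro hsI hdown _
      have haI : a ∈ I := hsI (mem_insert_self a s)
      have hsI' : s ⊆ I := (subset_insert a s).trans hsI
      have hlt : ∀ j ∈ s, ρ j < ρ a := by
        intro j hj
        apply lt_of_le_of_ne (hmax j hj)
        intro he
        have := h.inj j (hsI' hj) a haI he
        exact ha (this ▸ hj)
      have hall : ∀ j ∈ I, ρ j < ρ a → j ∈ s := by
        intro j hj hja
        rcases mem_insert.mp (hdown a (mem_insert_self a s) j hj hja) with rfl | hjs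
        · exact (hja.ne rfl).elim
        · exact hjs
      rcases s.eq_empty_or_nonempty with hs | hs
      · subst hs
        exact sst_single (hu' a haI) (h.card a haI)
      · apply sst_step h hsI' hs haI hlt hall hu'
        apply ih hsI' _ hs
        intro i hi j hj hji
        exact hall j hj (hji.trans (hlt i hi))
  have h1 := key I (Subset.refl I) (fun i _ j hj _ => hj) hne
  have h2 : sbd f I = ∅ := by
    rw [eq_empty_iff_forall_notMem]
    intro E hE
    obtain ⟨⟨k, hk, x, hx, hEk⟩, huq⟩ := mem_sbd.mp hE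
    obtain ⟨j, hj, hjne, hs⟩ := h.closed k hk x hx
    apply hjne
    apply huq j hj k hk (hEk ▸ hs)
    rw [← hEk]
    exact erase_subset _ _
  unfold sst at h1
  rw [h2] at h1
  have h3 : cone u (∅ : Cx) = ∅ := rfl
  rw [h3, union_empty] at h1
  exact h1

end Pool.Agent.H23.AE
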