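import Pool.Agent.H23.AE.Defs
import Pool.Agent.H23.AE.ShellSphere

/-!
# MP_ae97ec_co, d = 4, v = 4 and v = 5: explicit shellings
-/

namespace Pool.Agent.H23.AE

open Finset Pool.Agent.H30.NZ

namespace SmallA

/-- Facets for `v = 4` (the boundary of the cross polytope). -/
def F4 : List (List ℤ) :=
  [[2, 3, 4, 5], [1, 2, 3, 4], [2, 4, 5, 7], [4, 5, 6, 7], [1, 2, 4, 7], [3, 4, 5, 6],
    [0, 1, 2, 7], [0, 2, 5, 7], [1, 4, 6, 7], [0, 1, 6, 7], [1, 3, 4, 6], [0, 5, 6, 7],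
    [0, 1, 3, 6], [0, 3, 5, 6], [0, 2, 3, 5], [0, 1, 2, 3]]

/-- Restriction sets for `v = 4`. -/
def R4 : List (List ℤ) :=
  [[], [1], [7], [6], [1, 7], [3, 6], [0], [0, 5], [1, 6], [0, 6], [1, 3, 6], [0, 5, 6],
    [0, 3], [0, 3, 5], [0, 2, 3], [0, 1, 2, 3]]

/-- Facets for `v = 5`. -/
def F5 : List (List ℤ) :=
  [[1, 4, 7, 8], [4, 5, 7, 8], [1, 4, 5, 8], [0, 1, 7, 8], [0, 1, 8, 9], [4, 5, 6, 7],
    [3, 4, 5, 6], [1, 2, 4, 5], [3, 4, 6, 7], [0, 1, 4, 7], [1, 2, 5, 8], [0, 7, 8, 9],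
    [0, 3, 4, 7], [2, 3, 4, 5], [2, 3, 5, 6], [1, 2, 8, 9], [1, 2, 3, 4], [0, 1, 2, 9],
    [0, 1, 3, 4], [0, 1, 2, 3], [0, 3, 6, 7], [5, 6, 7, 8], [2, 5, 8, 9], [0, 2, 3, 9],
    [2, 5, 6, 9], [2, 3, 6, 9], [0, 3, 6, 9], [0, 6, 7, 9], [5, 6, 8, 9], [6, 7, 8, 9]]

/-- Restriction sets for `v = 5`. -/
def R5 : List (List ℤ) :=
  [[], [5], [1, 5], [0], [9], [6], [3], [2], [3, 7], [0, 4], [2, 8], [7, 9], [0, 3], [2, 3],
    [2, 6], [2, 9], [1, 3], [0, 2], [0, 1, 3], [0, 2, 3], [0, 6], [6, 8], [5, 9], [3, 9],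
    [6, 9], [3, 6, 9], [0, 6, 9], [6, 7, 9], [6, 8, 9], [6, 7, 8, 9]]

/-- The facet with index `i`. -/
def fac (F : List (List ℤ)) (i : ℕ) : Finset ℤ := (F.getD i []).toFinset

theorem shelling_of {F R : List (List ℤ)} {m : ℕ}
    (h0 : ∀ i < m, (fac F i).card = 4) (h1 : ∀ i < m, fac R i ⊆ fac F i)
    (h2 : ∀ i < m, ∀ x ∈ fac F i, ∃ j < m, j ≠ i ∧ (fac F i).erase x ⊆ fac F j)
    (h3 : ∀ i < m, ∀ j < i, ¬ fac R i ⊆ fac F j)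
    (h4 : ∀ j < m, ∀ i < j, ¬ (fac F i \ fac R i) ⊆ fac F j) :
    Shelling (range m) (fac F) (fac R) (fun i => i) where
  card := fun i hi => h0 i (mem_range.1 hi)
  sub := fun i hi => h1 i (mem_range.1 hi)
  inj := fun _ _ _ _ h => h
  closed := by
    intro i hi x hx
    obtain ⟨j, hj, h, h'⟩ := h2 i (mem_range.1 hi) x hx
    exact ⟨j, mem_range.2 hj, h, h'⟩
  s2 := fun i hi j _ h => h3 i (mem_range.1 hi) j h
  s3 := fun i _ j hj h => h4 j (mem_range.1 hj) i h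

theorem csn_of {F : List (List ℤ)} {m v : ℕ} (hs : IsSph 4 ((range m).image (fac F)))
    (hv : ∀ i < m, ∀ x ∈ fac F i, 0 ≤ x ∧ x < 2 * (v : ℤ))
    (hr : ∀ i < m, ∃ j < m, (fac F i).image (fun x => (x + 1) % (2 * (v : ℤ))) = fac F j)
    (ha : ∀ i < m, ∀ x ∈ fac F i, ∀ y ∈ fac F i, y - x ≠ (v : ℤ))
    (hn : ∀ y < 2 * v, ∀ x < y, y - x ≠ v → ∃ i < m, (x : ℤ) ∈ fac F i ∧ (y : ℤ) ∈ fac F i) :
    CSN v ((range m).image (fac F)) where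
  sph := hs
  vert := by
    intro G hG
    obtain ⟨i, hi, rfl⟩ := mem_image.1 hG
    exact hv i (mem_range.1 hi)
  rot := by
    intro G hG
    obtain ⟨i, hi, rfl⟩ := mem_image.1 hG
    obtain ⟨j, hj, e⟩ := hr i (mem_range.1 hi)
    rw [e]
    exact mem_image_of_mem _ (mem_range.2 hj)
  anti := by
    intro G hG
    obtain ⟨i, hi, rfl⟩ := mem_image.1 hG
    exact ha i (mem_range.1 hi)
  nbr := by
    intro x y hx hxy hy hne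
    obtain ⟨p, rfl⟩ : ∃ p : ℕ, x = p := ⟨x.toNat, by omega⟩
    obtain ⟨q, rfl⟩ : ∃ q : ℕ, y = q := ⟨y.toNat, by omega⟩
    obtain ⟨i, hi, h1, h2⟩ := hn q (by omega) p (by omega) (by omega)
    exact ⟨fac F i, mem_image_of_mem _ (mem_range.2 hi), h1, h2⟩

end SmallA

open SmallA

theorem csn_four : ∃ K, CSN 4 K := by
  refine ⟨_, csn_of (F := F4) (m := 16) (isSph_of_shelling
    (shelling_of (F := F4) (R := R4) (m := 16) ?_ ?_ ?_ ?_ ?_) ⟨0, by simp⟩) ?_ ?_ ?_ ?_⟩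
  all_goals decide +kernel

theorem csn_five : ∃ K, CSN 5 K := by
  refine ⟨_, csn_of (F := F5) (m := 30) (isSph_of_shelling
    (shelling_of (F := F5) (R := R5) (m := 30) ?_ ?_ ?_ ?_ ?_) ⟨0, by simp⟩) ?_ ?_ ?_ ?_⟩
  all_goals decide +kernel

end Pool.Agent.H23.AE
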