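import Pool.Agent.H23.AE.Defs
import Pool.Agent.H30.NZ.Sphere

/-!
# MP_ae97ec_co: replacing a ball in a sphere by another ball with the same boundary
-/

namespace Pool.Agent.H23.AE

open Finset Pool.Agent.H30.NZ

/-- A ball glued to a complex along its boundary may be replaced by the cone over its boundary. -/
private theorem sw_glue {L A : Cx} {w : ℤ} (hA : Ball A) (hwL : w ∉ vts L) (hwA : w ∉ vts A)
    (h1 : ∀ s, Fc A s → Fc L s → Fc (bd A) s) :
    ∃ f g, PLH f g (real (L ∪ A)) (real (L ∪ cone w (bd A))) := by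
  have hwb : w ∉ vts (bd A) := fun h => hwA (vts_bd h)
  obtain ⟨f, g, hfg, hid⟩ := hA w hwA
  have hid' : ∀ x ∈ real (bd A), g x = x := by
    intro x hx
    have := hfg.gf x (bo_real_bd_le A hx)
    rwa [hid x hx] at this
  obtain ⟨F1, G1, h2, -, -, -, -⟩ := plh_glue (plh_refl (real L)) hfg
    (isClosed_real _) (isClosed_real _) (isClosed_real _) (isClosed_real _)
    (fun x hx hx' => by
      have : x ∈ real (bd A) := real_inter h1 ⟨hx', hx⟩
      rw [hid x this]; rfl)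
    (fun x hx hx' => by
      have : x ∈ real (bd A) := (real_cone_zero hwb).1 ⟨hx', real_zero hx hwL⟩
      rw [hid' x this]; rfl)
  rw [← real_union, ← real_union] at h2
  exact ⟨F1, G1, h2⟩

theorem isSph_swap {c : ℕ} {S A A' : Cx} (hS : IsSph c S) (hA : Ball A) (hA' : Ball A')
    (hs : A ⊆ S) (hbd : bd A' = bd A) (h1 : ∀ s, Fc A s → Fc (S \ A) s → Fc (bd A) s)
    (h2 : ∀ s, Fc A' s → Fc (S \ A) s → Fc (bd A) s) : IsSph c ((S \ A) ∪ A') := by
  obtain ⟨w, hw⟩ := Infinite.exists_notMem_finset (vts S ∪ vts A')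
  rw [mem_union, not_or] at hw
  have hwA : w ∉ vts A := fun h => hw.1 (vts_mono hs h)
  have hwL : w ∉ vts (S \ A) := fun h => hw.1 (vts_mono sdiff_subset h)
  obtain ⟨f1, g1, e1⟩ := sw_glue hA hwL hwA h1
  obtain ⟨f2, g2, e2⟩ := sw_glue hA' hwL hw.2 (fun s hs1 hs2 => by
    rw [hbd]
    exact h2 s hs1 hs2)
  rw [hbd] at e2
  rw [sdiff_union_of_subset hs] at e1
  obtain ⟨F, hF, f', g', h3⟩ := hS
  exact ⟨F, hF, _, _, plh_trans (plh_trans e2 (plh_symm e1)) h3⟩

end Pool.Agent.H23.AE
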