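import Pool.Agent.H23.AE.Defs
import Mathlib.Analysis.Convex.GaugeRescale

/-!
# MP_ae97ec_co: the boundary of a simplex with five vertices is homeomorphic to the 3-sphere
-/

namespace Pool.Agent.H23.AE

open Finset Pool.Agent.H30.NZ

/-- The solid simplex of dimension 4. -/
private def sol : Set (EuclideanSpace ℝ (Fin 4)) := {z | (∀ i, 0 ≤ z i) ∧ ∑ i, z i ≤ 1}

/-- Its interior. -/
private def solI : Set (EuclideanSpace ℝ (Fin 4)) := {z | (∀ i, 0 < z i) ∧ ∑ i, z i < 1}

private theorem sol_closed : IsClosed sol := by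
  have h1 : sol = (⋂ i : Fin 4, {z : EuclideanSpace ℝ (Fin 4) | 0 ≤ z i}) ∩
      {z : EuclideanSpace ℝ (Fin 4) | ∑ i, z i ≤ 1} := by
    ext z
    simp [sol]
  rw [h1]
  refine IsClosed.inter (isClosed_iInter fun i => ?_) ?_
  · exact isClosed_le continuous_const (by fun_prop)
  · exact isClosed_le (by fun_prop) continuous_const

private theorem solI_open : IsOpen solI := by
  have h1 : solI = (⋂ i : Fin 4, {z : EuclideanSpace ℝ (Fin 4) | 0 < z i}) ∩
      {z : EuclideanSpace ℝ (Fin 4) | ∑ i, z i < 1} := by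
    ext z
    simp [solI]
  rw [h1]
  refine IsOpen.inter (isOpen_iInter_of_finite fun i => ?_) ?_
  · exact isOpen_lt continuous_const (by fun_prop)
  · exact isOpen_lt (by fun_prop) continuous_const

private theorem sol_convex : Convex ℝ sol := by
  intro x hx y hy a b ha hb hab
  refine ⟨fun i => ?_, ?_⟩
  · have := hx.1 i
    have := hy.1 i
    simp only [PiLp.add_apply, PiLp.smul_apply, smul_eq_mul]
    positivity
  · simp only [PiLp.add_apply, PiLp.smul_apply, smul_eq_mul, sum_add_distrib, ← mul_sum]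
    have := hx.2
    have := hy.2
    nlinarith

private theorem sol_bdd : Bornology.IsBounded sol := by
  rw [isBounded_iff_forall_norm_le]
  refine ⟨1, fun z hz => ?_⟩
  rw [EuclideanSpace.norm_eq, Real.sqrt_le_one]
  have h1 : ∀ i, z i ≤ 1 := fun i =>
    (single_le_sum (fun j _ => hz.1 j) (mem_univ i)).trans hz.2
  refine le_trans (sum_le_sum fun i _ => ?_) hz.2
  have := hz.1 i
  have := h1 i
  rw [Real.norm_eq_abs, sq_abs]
  nlinarith

private theorem interior_sol : interior sol = solI := by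
  apply Set.Subset.antisymm
  · intro z hz
    rw [mem_interior_iff_mem_nhds, Metric.mem_nhds_iff] at hz
    obtain ⟨ε, he, hb⟩ := hz
    have hn : ∀ i : Fin 4, ∀ c : ℝ, |c| < ε →
        z + c • EuclideanSpace.single i (1 : ℝ) ∈ sol := by
      intro i c hc
      apply hb
      rw [Metric.mem_ball, dist_eq_norm, add_sub_cancel_left, norm_smul]
      simpa using hc
    refine ⟨fun i => ?_, ?_⟩
    · have h1 := (hn i (-(ε / 2)) (by rw [abs_neg, abs_of_pos (by linarith)]; linarith)).1 i
      simp at h1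
      linarith
    · have h1 := (hn 0 (ε / 2) (by rw [abs_of_pos (by linarith)]; linarith)).2
      simp only [PiLp.add_apply, PiLp.smul_apply, smul_eq_mul, sum_add_distrib, ← mul_sum] at h1
      have h2 : ∑ i : Fin 4, (EuclideanSpace.single (0 : Fin 4) (1 : ℝ)) i = 1 := by
        simp
      rw [h2] at h1
      linarith
  · exact interior_maximal (fun z hz => ⟨fun i => (hz.1 i).le, hz.2.le⟩) solI_open

private theorem mem_frontier_sol {z : EuclideanSpace ℝ (Fin 4)} : z ∈ frontier sol ↔
    (∀ i, 0 ≤ z i) ∧ ∑ i, z i ≤ 1 ∧ ((∃ i, z i = 0) ∨ ∑ i, z i = 1) := by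
  rw [frontier, sol_closed.closure_eq, interior_sol]
  constructor
  · rintro ⟨⟨h1, h2⟩, h3⟩
    refine ⟨h1, h2, ?_⟩
    by_contra hc
    push Not at hc
    exact h3 ⟨fun i => lt_of_le_of_ne (h1 i) (Ne.symm (hc.1 i)), lt_of_le_of_ne h2 hc.2⟩
  · rintro ⟨h1, h2, h3⟩
    refine ⟨⟨h1, h2⟩, fun h4 => ?_⟩
    rcases h3 with ⟨i, hi⟩ | h3
    · exact (h4.1 i).ne' hi
    · exact h4.2.ne h3

private theorem mem_real_bsimp {F : Finset ℤ} {x : ℤ → ℝ} : x ∈ real (bsimp F) ↔
    (∀ i, 0 ≤ x i) ∧ (∀ i, i ∉ F → x i = 0) ∧ ∑ i ∈ F, x i = 1 ∧ ∃ v ∈ F, x v = 0 := by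
  constructor
  · rintro ⟨h1, G, hG, h2, h3⟩
    obtain ⟨v, hv, rfl⟩ := mem_image.1 hG
    have h4 : x v = 0 := h2 v (notMem_erase v F)
    refine ⟨h1, fun i hi => h2 i (fun h => hi (mem_of_mem_erase h)), ?_, v, hv, h4⟩
    rw [← add_sum_erase F x hv, h4, h3, zero_add]
  · rintro ⟨h1, h2, h3, v, hv, h4⟩
    refine ⟨h1, F.erase v, mem_image.2 ⟨v, hv, rfl⟩, fun i hi => ?_, ?_⟩
    · by_cases hiv : i = v
      · rw [hiv]; exact h4
      · exact h2 i (fun h => hi (mem_erase.2 ⟨hiv, h⟩))
    · rw [← add_sum_erase F x hv, h4, zero_add] at h3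
      exact h3

private theorem sol_ne : (interior sol).Nonempty := by
  rw [interior_sol]
  refine ⟨WithLp.toLp 2 (fun _ => (1 / 8 : ℝ)), fun i => ?_, ?_⟩
  · norm_num
  · norm_num

private theorem homeo_frontier {F : Finset ℤ} (hF : F.card = 5) :
    Nonempty (real (bsimp F) ≃ₜ frontier sol) := by
  obtain ⟨w, hw⟩ : F.Nonempty := card_pos.1 (by omega)
  have hc : (F.erase w).card = 4 := by rw [card_erase_of_mem hw, hF]
  let e : Fin 4 ≃ ↥(F.erase w) := ((F.erase w).equivFinOfCardEq hc).symm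
  have hsum : ∀ x : ℤ → ℝ, ∑ i : Fin 4, x (e i) = ∑ j ∈ F.erase w, x j := by
    intro x
    rw [← sum_coe_sort (F.erase w) x]
    exact Equiv.sum_comp e (fun j : ↥(F.erase w) => x j)
  let back : (EuclideanSpace ℝ (Fin 4)) → ℤ → ℝ := fun z j =>
    if h : j ∈ F.erase w then z (e.symm ⟨j, h⟩) else if j = w then 1 - ∑ i, z i else 0
  have back_w : ∀ z, back z w = 1 - ∑ i, z i := by
    intro z
    simp [back]
  have back_e : ∀ z (i : Fin 4), back z (e i) = z i := by
    intro z i
    simp only [back]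
    rw [dif_pos (e i).2]
    simp
  have back_out : ∀ z, ∀ j, j ∉ F → back z j = 0 := by
    intro z j hj
    simp only [back]
    rw [dif_neg (fun h => hj (mem_of_mem_erase h)), if_neg (fun h : j = w => hj (by rw [h]; exact hw))]
  have back_sum : ∀ z, ∑ j ∈ F, back z j = 1 := by
    intro z
    rw [← add_sum_erase F _ hw, ← hsum, back_w]
    simp [back_e]
  have hcases : ∀ j ∈ F, j = w ∨ ∃ i, j = (e i : ℤ) := by
    intro j hj
    by_cases h : j = w
    · exact Or.inl h
    · exact Or.inr ⟨e.symm ⟨j, mem_erase.2 ⟨h, hj⟩⟩, by simp⟩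
  have he_mem : ∀ i, (e i : ℤ) ∈ F := fun i => mem_of_mem_erase (e i).2
  refine ⟨{ toFun := fun x => ⟨WithLp.toLp 2 (fun i => x.1 (e i)), ?_⟩
            invFun := fun z => ⟨back z.1, ?_⟩
            left_inv := ?_
            right_inv := ?_
            continuous_toFun := ?_
            continuous_invFun := ?_ }⟩
  · obtain ⟨h1, h2, h3, v, hv, h4⟩ := mem_real_bsimp.1 x.2
    rw [← add_sum_erase F _ hw, ← hsum] at h3
    rw [mem_frontier_sol]
    refine ⟨fun i => h1 _, ?_, ?_⟩
    · show ∑ i : Fin 4, x.1 (e i) ≤ 1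
      have := h1 w
      linarith
    · rcases hcases v hv with rfl | ⟨i, rfl⟩
      · right
        show ∑ i : Fin 4, x.1 (e i) = 1
        linarith
      · exact Or.inl ⟨i, h4⟩
  · obtain ⟨h1, h2, h3⟩ := mem_frontier_sol.1 z.2
    rw [mem_real_bsimp]
    refine ⟨fun j => ?_, back_out _, back_sum _, ?_⟩
    · by_cases hj : j ∈ F
      · rcases hcases j hj with rfl | ⟨i, rfl⟩
        · rw [back_w]
          linarith
        · rw [back_e]
          exact h1 i
      · rw [back_out _ j hj]
    · rcases h3 with ⟨i, hi⟩ | h3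
      · exact ⟨e i, he_mem i, by rw [back_e]; exact hi⟩
      · exact ⟨w, hw, by rw [back_w, h3, sub_self]⟩
  · intro x
    obtain ⟨h1, h2, h3, v, hv, h4⟩ := mem_real_bsimp.1 x.2
    rw [← add_sum_erase F _ hw, ← hsum] at h3
    apply Subtype.ext
    funext j
    show back _ j = x.1 j
    by_cases hj : j ∈ F
    · rcases hcases j hj with rfl | ⟨i, rfl⟩
      · rw [back_w]
        show 1 - ∑ i : Fin 4, x.1 (e i) = _
        linarith
      · rw [back_e]
    · rw [back_out _ j hj, h2 j hj]
  · intro z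
    apply Subtype.ext
    ext i
    show back z.1 (e i) = z.1 i
    exact back_e _ _
  · apply Continuous.subtype_mk
    refine (PiLp.continuous_toLp 2 _).comp ?_
    exact continuous_pi fun i => (continuous_apply _).comp continuous_subtype_val
  · apply Continuous.subtype_mk
    refine continuous_pi fun j => ?_
    by_cases hj : j ∈ F
    · rcases hcases j hj with rfl | ⟨i, rfl⟩
      · simp only [back_w]
        fun_prop
      · simp only [back_e]
        fun_prop
    · simp only [back_out _ j hj]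
      exact continuous_const

theorem homeo_bsimp {F : Finset ℤ} (hF : F.card = 5) :
    Nonempty (real (bsimp F) ≃ₜ Metric.sphere (0 : EuclideanSpace ℝ (Fin 4)) 1) := by
  obtain ⟨g⟩ := homeo_frontier hF
  obtain ⟨h, -, -, h3⟩ := exists_homeomorph_image_interior_closure_frontier_eq_unitBall
    sol_convex sol_ne sol_bdd
  exact ⟨(g.trans (h.image (frontier sol))).trans (Homeomorph.setCongr h3)⟩

end Pool.Agent.H23.AE
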